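import Pool.Agent.Helper94.AF.Defs

open Set Finset

set_option linter.unusedSectionVars false

namespace Pool.AF

/-! ## AF-15 SHARP: a functional that is coercive on an open convex cone modulo its lineality
space -/

private theorem closure_smul_mem {F : Type*} [NormedAddCommGroup F] [NormedSpace ℝ F]
    (C : Set F) (hcone : ∀ x ∈ C, ∀ t : ℝ, 0 < t → t • x ∈ C) (k : F) (hk : k ∈ closure C)
    (t : ℝ) (ht : 0 < t) : t • k ∈ closure C := by
  have hcont : Continuous (fun x : F => t • x) := continuous_const_smul t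
  have h := map_mem_closure hcont hk (fun x hx => hcone x hx t ht)
  exact h

private theorem add_closure_mem {F : Type*} [NormedAddCommGroup F] [NormedSpace ℝ F]
    (C : Set F) (ho : IsOpen C) (hc : Convex ℝ C)
    (hcone : ∀ x ∈ C, ∀ t : ℝ, 0 < t → t • x ∈ C) (x k : F) (hx : x ∈ C)
    (hk : k ∈ closure C) : x + k ∈ C := by
  have hxi : x ∈ interior C := by rw [ho.interior_eq]; exact hx
  have h := hc.combo_interior_closure_mem_interior hxi hk (a := 1 / 2) (b := 1 / 2)
    (by norm_num) (by norm_num) (by norm_num)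
  rw [ho.interior_eq] at h
  have h2 := hcone _ h 2 (by norm_num)
  have he : (2 : ℝ) • ((1 / 2 : ℝ) • x + (1 / 2 : ℝ) • k) = x + k := by
    rw [smul_add, smul_smul, smul_smul]; norm_num
  rwa [he] at h2

theorem exists_coercive {F : Type*} [NormedAddCommGroup F] [NormedSpace ℝ F]
    [FiniteDimensional ℝ F] (C : Set F) (ho : IsOpen C) (hc : Convex ℝ C) (hne : C.Nonempty)
    (hcone : ∀ x ∈ C, ∀ t : ℝ, 0 < t → t • x ∈ C) (V : Submodule ℝ F)
    (hV : ∀ v, v ∈ V ↔ ∀ x ∈ C, ∀ t : ℝ, x + t • v ∈ C) (e : F →L[ℝ] F)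
    (hr : ∀ v, e v ∈ V) (he : ∀ v ∈ V, e v = v) :
    ∃ (ξ : F →ₗ[ℝ] ℝ) (c₀ : ℝ), 0 < c₀ ∧ (∀ v ∈ V, ξ v = 0) ∧ ∀ v ∈ C, c₀ * ‖v - e v‖ ≤ ξ v := by
  classical
  set S : Set F := {w | w ∈ closure C ∧ e w = 0 ∧ ‖w‖ = 1} with hS
  have h0 : (0 : F) ∈ closure C := by
    obtain ⟨x, hx⟩ := hne
    have hlim : Filter.Tendsto (fun n : ℕ => (1 / ((n : ℝ) + 1)) • x) Filter.atTop
        (nhds ((0 : ℝ) • x)) :=
      (tendsto_one_div_add_atTop_nhds_zero_nat (𝕜 := ℝ)).smul_const x
    rw [zero_smul] at hlim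
    refine mem_closure_of_tendsto hlim (Filter.Eventually.of_forall fun n => ?_)
    exact hcone x hx _ (by positivity)
  -- the only common point with the opposite
  have hsharp : ∀ w ∈ S, -w ∉ closure C := by
    rintro w ⟨hw, hew, hw1⟩ hneg
    have hwV : w ∈ V := by
      rw [hV]
      intro x hx t
      rcases lt_trichotomy t 0 with ht | ht | ht
      · have h := add_closure_mem C ho hc hcone x ((-t) • (-w)) hx
          (closure_smul_mem C hcone _ hneg _ (by linarith))
        rwa [smul_neg, neg_smul, neg_neg] at h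
      · rw [ht, zero_smul, add_zero]; exact hx
      · exact add_closure_mem C ho hc hcone x (t • w) hx (closure_smul_mem C hcone _ hw _ ht)
    have : w = 0 := by rw [← he w hwV, hew]
    rw [this, norm_zero] at hw1
    exact zero_ne_one hw1
  have hScomp : IsCompact S := by
    have hcl : IsClosed S := by
      have h1 : IsClosed {w : F | e w = 0} := isClosed_eq e.continuous continuous_const
      have h2 : IsClosed {w : F | ‖w‖ = 1} := isClosed_eq continuous_norm continuous_const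
      have : S = closure C ∩ ({w : F | e w = 0} ∩ {w : F | ‖w‖ = 1}) := by
        ext w
        simp only [hS, Set.mem_setOf_eq, Set.mem_inter_iff]
      rw [this]
      exact isClosed_closure.inter (h1.inter h2)
    refine IsCompact.of_isClosed_subset (isCompact_sphere (0 : F) 1) hcl ?_
    rintro w ⟨_, _, hw⟩
    simpa using hw
  -- for each point a functional
  have hf : ∀ w ∈ S, ∃ f : F →L[ℝ] ℝ, (∀ k ∈ closure C, 0 ≤ f k) ∧ 0 < f w := by
    intro w hw
    obtain ⟨f, u, hfu, hfk⟩ := geometric_hahn_banach_point_closed hc.closure isClosed_closure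
      (hsharp w hw)
    have hu : u < 0 := by simpa using hfk 0 h0
    refine ⟨f, ?_, ?_⟩
    · intro k hk
      by_contra hlt
      rw [not_le] at hlt
      have hpos : 0 < u / f k := div_pos_of_neg_of_neg hu hlt
      have h := hfk _ (closure_smul_mem C hcone k hk (u / f k) hpos)
      rw [map_smul, smul_eq_mul, div_mul_cancel₀ _ hlt.ne] at h
      exact lt_irrefl _ h
    · rw [map_neg] at hfu
      linarith
  choose! f hf0 hf1 using hf
  obtain ⟨t, htS, ht⟩ := hScomp.elim_nhds_subcover (fun w => {x : F | 0 < f w x}) (by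
    intro w hw
    exact (isOpen_lt continuous_const (f w).continuous).mem_nhds (hf1 w hw))
  set g : F →L[ℝ] ℝ := ∑ w ∈ t, f w with hg
  have hgS : ∀ w ∈ S, 0 < g w := by
    intro w hw
    obtain ⟨i, hi, hwi⟩ := Set.mem_iUnion₂.1 (ht hw)
    rw [hg, _root_.sum_apply]
    refine Finset.sum_pos' (fun j hj => hf0 j (htS j hj) w hw.1) ⟨i, hi, hwi⟩
  obtain ⟨c, hc0, hcS⟩ : ∃ c : ℝ, 0 < c ∧ ∀ w ∈ S, c ≤ g w := by
    rcases S.eq_empty_or_nonempty with hem | hne'
    · exact ⟨1, one_pos, by rw [hem]; simp⟩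
    · obtain ⟨w, hw, hmin⟩ := hScomp.exists_isMinOn hne' g.continuous.continuousOn
      exact ⟨g w, hgS w hw, fun w' hw' => hmin hw'⟩
  refine ⟨(g : F →ₗ[ℝ] ℝ) ∘ₗ (LinearMap.id - (e : F →ₗ[ℝ] F)), c, hc0, ?_, ?_⟩
  · intro v hv
    simp [he v hv]
  · intro v hv
    have hmem : v - e v ∈ closure C := by
      apply subset_closure
      have h := (hV (e v)).1 (hr v) v hv (-1)
      rwa [neg_one_smul, ← sub_eq_add_neg] at h
    have hee : e (v - e v) = 0 := by rw [map_sub, he _ (hr v), sub_self]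
    have hval : ((g : F →ₗ[ℝ] ℝ) ∘ₗ (LinearMap.id - (e : F →ₗ[ℝ] F))) v = g (v - e v) := by simp
    rw [hval]
    rcases eq_or_ne (v - e v) 0 with hz | hz
    · rw [hz]; simp
    · have hn : 0 < ‖v - e v‖ := norm_pos_iff.2 hz
      have hwS : (‖v - e v‖)⁻¹ • (v - e v) ∈ S := by
        refine ⟨closure_smul_mem C hcone _ hmem _ (inv_pos.2 hn), ?_, ?_⟩
        · rw [map_smul, hee, smul_zero]
        · rw [norm_smul, norm_inv, norm_norm, inv_mul_cancel₀ hn.ne']
      have h := hcS _ hwS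
      rw [map_smul, smul_eq_mul] at h
      calc c * ‖v - e v‖ ≤ ((‖v - e v‖)⁻¹ * g (v - e v)) * ‖v - e v‖ :=
            mul_le_mul_of_nonneg_right h hn.le
        _ = g (v - e v) := by field_simp

/-- A functional that is coercive on an open cone bounds linear maps preserving the cone: for
`v` in the cone there is `A` with `‖(1 - e) T‖ ≤ A ξ (T v)` for every `T` mapping the cone to
itself. -/
theorem coercive_bound {F : Type*} [NormedAddCommGroup F] [NormedSpace ℝ F]
    [FiniteDimensional ℝ F] (C : Set F) (ho : IsOpen C) (e : F →L[ℝ] F) (ξ : F →ₗ[ℝ] ℝ) (c₀ : ℝ)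
    (hc₀ : 0 < c₀) (hξ : ∀ v ∈ C, c₀ * ‖v - e v‖ ≤ ξ v) (v : F) (hv : v ∈ C) :
    ∃ A : ℝ, 0 < A ∧ ∀ T : F →L[ℝ] F, (∀ x ∈ C, T x ∈ C) → ‖(1 - e) * T‖ ≤ A * ξ (T v) := by
  obtain ⟨r, hr, hball⟩ := Metric.isOpen_iff.1 ho v hv
  refine ⟨1 / (c₀ * (r / 2)), by positivity, ?_⟩
  intro T hT
  have hTv : 0 ≤ ξ (T v) := le_trans (by positivity) (hξ _ (hT v hv))
  refine ContinuousLinearMap.opNorm_le_bound _ (by positivity) ?_
  intro u
  rcases eq_or_ne u 0 with hu | hu
  · rw [hu]; simp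
  have hun : 0 < ‖u‖ := norm_pos_iff.2 hu
  set δ : ℝ := (r / 2) / ‖u‖ with hδ
  have hδ0 : 0 < δ := by positivity
  have hnorm : ‖δ • u‖ = r / 2 := by
    rw [norm_smul, Real.norm_eq_abs, abs_of_pos hδ0, hδ]; field_simp
  have h1 : v + δ • u ∈ C := hball (by
    rw [Metric.mem_ball, dist_eq_norm, add_sub_cancel_left, hnorm]; linarith)
  have h2 : v - δ • u ∈ C := hball (by
    rw [Metric.mem_ball, dist_eq_norm, sub_sub_cancel_left, norm_neg, hnorm]; linarith)
  have k1 := hξ _ (hT _ h1)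
  have k2 := hξ _ (hT _ h2)
  set a : F := T v - e (T v) with ha
  set b : F := T u - e (T u) with hb
  have e1 : T (v + δ • u) - e (T (v + δ • u)) = a + δ • b := by
    simp only [map_add, map_smul, ha, hb, smul_sub]; abel
  have e2 : T (v - δ • u) - e (T (v - δ • u)) = a - δ • b := by
    simp only [map_sub, map_smul, ha, hb, smul_sub]; abel
  rw [e1] at k1
  rw [e2] at k2
  have s1 : ξ (T (v + δ • u)) = ξ (T v) + δ * ξ (T u) := by simp
  have s2 : ξ (T (v - δ • u)) = ξ (T v) - δ * ξ (T u) := by simp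
  rw [s1] at k1
  rw [s2] at k2
  have htri : 2 * (δ * ‖b‖) ≤ ‖a + δ • b‖ + ‖a - δ • b‖ := by
    have : (2 : ℝ) • (δ • b) = (a + δ • b) - (a - δ • b) := by
      rw [two_smul]; abel
    have hn := norm_sub_le (a + δ • b) (a - δ • b)
    rw [← this, norm_smul, norm_smul, Real.norm_eq_abs, Real.norm_eq_abs, abs_of_pos hδ0] at hn
    simpa using hn
  have hmain : c₀ * (δ * ‖b‖) ≤ ξ (T v) := by nlinarith
  have hval : ((1 - e) * T) u = b := by simp [hb]
  rw [hval]
  have : ‖b‖ = (c₀ * (δ * ‖b‖)) * (1 / (c₀ * (r / 2)) * ‖u‖) := by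
    rw [hδ]; field_simp
  rw [this]
  calc (c₀ * (δ * ‖b‖)) * (1 / (c₀ * (r / 2)) * ‖u‖)
      ≤ ξ (T v) * (1 / (c₀ * (r / 2)) * ‖u‖) := mul_le_mul_of_nonneg_right hmain (by positivity)
    _ = 1 / (c₀ * (r / 2)) * ξ (T v) * ‖u‖ := by ring

end Pool.AF
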