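import Pool.Agent.Helper94.AF.Norm
import Pool.Agent.Helper94.AF.Sharp

open Set Finset

set_option linter.unusedSectionVars false

namespace Pool.AF

open Pool.SV

/-! ## AF-17 BLKC: the block of a quotient of cone type (uses `exists_norm`,
`exists_coercive`, `coercive_bound`)

The representation is `(c g)⁻¹ g` on `B / A`, identified with `ℝ^d`. -/

section

variable {E : Type*} [NormedAddCommGroup E] [NormedSpace ℝ E] [FiniteDimensional ℝ E]

private theorem growth_aux {A₀ A₂ X Y s : ℝ} {m : ℕ} (hA₀ : 0 < A₀) (hA₂ : 0 < A₂)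
    (hX : A₀⁻¹ ≤ X) (hY : A₀⁻¹ ≤ Y) (hXs : X ≤ A₂ * s) (hYX : Y ≤ A₀ * X ^ m) :
    (A₀ * A₂ + A₀ * (A₀ * A₂ ^ (m + 1)))⁻¹ ≤ s ∧
      X ≤ (A₀ * A₂ + A₀ * (A₀ * A₂ ^ (m + 1))) * s ^ (m + 1) ∧
      Y ≤ (A₀ * A₂ + A₀ * (A₀ * A₂ ^ (m + 1))) * s ^ (m + 1) := by
  have hX0 : 0 < X := lt_of_lt_of_le (inv_pos.2 hA₀) hX
  have hY0 : 0 < Y := lt_of_lt_of_le (inv_pos.2 hA₀) hY
  have hs : 0 < s := by
    by_contra h
    have : A₂ * s ≤ 0 := mul_nonpos_of_nonneg_of_nonpos hA₂.le (not_lt.1 h)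
    linarith
  have hp : 0 < A₀ * (A₀ * A₂ ^ (m + 1)) := mul_pos hA₀ (mul_pos hA₀ (pow_pos hA₂ _))
  have hq : 0 < A₀ * A₂ := mul_pos hA₀ hA₂
  have hXY : A₀ * (X * Y) ≤ (A₀ * A₂ + A₀ * (A₀ * A₂ ^ (m + 1))) * s ^ (m + 1) := by
    have h1 : X ^ (m + 1) ≤ (A₂ * s) ^ (m + 1) := pow_le_pow_left₀ hX0.le hXs _
    calc A₀ * (X * Y) ≤ A₀ * (X * (A₀ * X ^ m)) :=
          mul_le_mul_of_nonneg_left (mul_le_mul_of_nonneg_left hYX hX0.le) hA₀.le
      _ = A₀ * (A₀ * X ^ (m + 1)) := by ring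
      _ ≤ A₀ * (A₀ * (A₂ * s) ^ (m + 1)) :=
        mul_le_mul_of_nonneg_left (mul_le_mul_of_nonneg_left h1 hA₀.le) hA₀.le
      _ = A₀ * (A₀ * A₂ ^ (m + 1)) * s ^ (m + 1) := by ring
      _ ≤ (A₀ * A₂ + A₀ * (A₀ * A₂ ^ (m + 1))) * s ^ (m + 1) :=
        mul_le_mul_of_nonneg_right (by linarith) (pow_pos hs _).le
  rw [inv_le_iff_one_le_mul₀ hA₀] at hX hY
  refine ⟨?_, le_trans ?_ hXY, le_trans ?_ hXY⟩
  · rw [inv_le_iff_one_le_mul₀ (by linarith)]
    have h2 : 0 < s * (A₀ * (A₀ * A₂ ^ (m + 1))) := mul_pos hs hp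
    nlinarith
  · nlinarith
  · nlinarith

private theorem idem_apply {e : Alg E} (he : e * e = e) (v : E × ℝ) : e (e v) = e v := by
  have := congrArg (fun T : Alg E => T v) he
  simpa using this

private theorem finrank_aux {A B : Submodule ℝ E} (hAB : A < B) (f : Alg E) (hff : f * f = f)
    (hB : ∀ v, (f v).2 = 0 ∧ (f v).1 ∈ B) (hA : ∀ a ∈ A, f (a, 0) = 0) :
    Module.finrank ℝ (LinearMap.range (f : (E × ℝ) →ₗ[ℝ] (E × ℝ))) + Module.finrank ℝ A ≤
      Module.finrank ℝ B := by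
  let L : B →ₗ[ℝ] (E × ℝ) :=
    (f : (E × ℝ) →ₗ[ℝ] (E × ℝ)) ∘ₗ (LinearMap.inl ℝ E ℝ) ∘ₗ B.subtype
  have h1 : LinearMap.range (f : (E × ℝ) →ₗ[ℝ] (E × ℝ)) ≤ LinearMap.range L := by
    rintro _ ⟨v, rfl⟩
    refine ⟨⟨(f v).1, (hB v).2⟩, ?_⟩
    change f ((f v).1, 0) = f v
    have h2 : (((f v).1, 0) : E × ℝ) = f v := by
      ext
      · rfl
      · exact (hB v).1.symm
    rw [h2]
    exact idem_apply hff v
  have h2 := Submodule.finrank_mono h1
  have h3 := LinearMap.finrank_range_add_finrank_ker L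
  have h4 : A.submoduleOf B ≤ LinearMap.ker L := by
    intro a ha
    have ha' : (a : E) ∈ A := ha
    exact hA a ha'
  have h5 := Submodule.finrank_mono h4
  have h6 : Module.finrank ℝ (A.submoduleOf B) = Module.finrank ℝ A :=
    LinearEquiv.finrank_eq (Submodule.submoduleOfEquivOfLe hAB.le)
  omega

theorem blk_cone (D : Geo E) (A B : Submodule ℝ E) (hAB : A < B)
    (hA : ∀ g ∈ D.Γ, ∀ v ∈ A, g.linear v ∈ A) (hB : ∀ g ∈ D.Γ, ∀ v ∈ B, g.linear v ∈ B)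
    (hC : ConeType D.Γ A B) (eA eB : Alg E) (hA2 : eA * eA = eA) (hB2 : eB * eB = eB)
    (hAr : ∀ v : E × ℝ, eA v = v ↔ v.2 = 0 ∧ v.1 ∈ A)
    (hBr : ∀ v : E × ℝ, eB v = v ↔ v.2 = 0 ∧ v.1 ∈ B) (hAB1 : eA * eB = eA)
    (hAB2 : eB * eA = eA) :
    ∃ (c : D.Γ → ℝ) (Q : Blk D.Γ) (b : ℕ), PosMul c ∧
      Q.d + Module.finrank ℝ A ≤ Module.finrank ℝ B ∧
      ∀ v ∈ Q.C, Grow (cut (hatHom D.Γ) (eB - eA) c) (fun g => Q.ev g v) b := by
  classical
  obtain ⟨C, U, hU, hCU, hCne, hCc, hCs, hClin, hCinv⟩ := hC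
  obtain ⟨f, hfdef⟩ : ∃ f : Alg E, f = eB - eA := ⟨_, rfl⟩
  rw [← hfdef]
  have hff : f * f = f := by
    rw [hfdef, mul_sub, sub_mul, sub_mul, hA2, hB2, hAB1, hAB2]
    simp
  have hfv : ∀ v, f v = eB v - eA v := by
    intro v
    rw [hfdef]
    rfl
  -- elements of `A × 0` and `B × 0`
  have hφA : ∀ (g : D.Γ) (v : E × ℝ), eA v = v → eA (hatHom D.Γ g v) = hatHom D.Γ g v := by
    intro g v hv
    rw [hAr] at hv ⊢
    change (hat g.1 v).2 = 0 ∧ (hat g.1 v).1 ∈ A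
    rw [hat_apply]
    refine ⟨hv.1, ?_⟩
    simp only [hv.1, zero_smul, add_zero]
    exact hA g.1 g.2 _ hv.2
  have hφB : ∀ (g : D.Γ) (v : E × ℝ), eB v = v → eB (hatHom D.Γ g v) = hatHom D.Γ g v := by
    intro g v hv
    rw [hBr] at hv ⊢
    change (hat g.1 v).2 = 0 ∧ (hat g.1 v).1 ∈ B
    rw [hat_apply]
    refine ⟨hv.1, ?_⟩
    simp only [hv.1, zero_smul, add_zero]
    exact hB g.1 g.2 _ hv.2
  have hAiB : ∀ v : E × ℝ, eA v = v → eB v = v := by
    intro v hv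
    rw [hAr] at hv
    rw [hBr]
    exact ⟨hv.1, hAB.le hv.2⟩
  have hfA : ∀ v : E × ℝ, eA v = v → f v = 0 := by
    intro v hv
    rw [hfv, hv, hAiB v hv, sub_self]
  have heBf : ∀ v, eB (f v) = f v := by
    intro v
    have h1 : eB * f = f := by
      rw [hfdef, mul_sub, hB2, hAB2]
    have := congrArg (fun T : Alg E => T v) h1
    simpa using this
  have hfB : ∀ v, (f v).2 = 0 ∧ (f v).1 ∈ B := fun v => (hBr _).1 (heBf v)
  have hmul : ∀ g h : D.Γ, f * hatHom D.Γ (g * h) * f =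
      (f * hatHom D.Γ g * f) * (f * hatHom D.Γ h * f) := by
    intro g h
    apply ContinuousLinearMap.ext
    intro v
    rw [map_mul]
    change f (hatHom D.Γ g (hatHom D.Γ h (f v))) =
      f (hatHom D.Γ g (f (f (hatHom D.Γ h (f v)))))
    rw [idem_apply hff, hfv (hatHom D.Γ h (f v)), hφB h _ (heBf v), map_sub, map_sub,
      hfA _ (hφA g _ (idem_apply hA2 _)), sub_zero]
  -- points of `C`
  have hfC : ∀ v : E × ℝ, v.2 = 0 → v.1 ∈ C → (f v).1 ∈ C := by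
    intro v hv2 hv1
    have h1 : eB v = v := by
      rw [hBr]
      refine ⟨hv2, ?_⟩
      rw [hCU] at hv1
      exact hv1.2
    have h2 := (hAr (eA v)).1 (idem_apply hA2 v)
    rw [hfv, h1]
    have h3 := (hClin _ (hAB.le h2.2)).1 h2.2 _ hv1 (-1)
    simpa [sub_eq_add_neg] using h3
  have hf0 : f ≠ 0 := by
    intro h
    obtain ⟨b, hb, hbA⟩ := SetLike.exists_of_lt hAB
    have h1 : f (b, 0) = 0 := by
      rw [h]
      rfl
    rw [hfv, (hBr (b, 0)).2 ⟨rfl, hb⟩, sub_eq_zero] at h1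
    exact hbA ((hAr (b, 0)).1 h1.symm).2
  obtain ⟨c, hc, A₀, m, hA₀, hcut⟩ := exists_norm (hatHom D.Γ) f hff hf0 hmul
  -- the space `W`
  let W : Submodule ℝ (E × ℝ) := LinearMap.range (f : (E × ℝ) →ₗ[ℝ] (E × ℝ))
  have hWf : ∀ w : W, f (w : E × ℝ) = w := by
    rintro ⟨_, v, rfl⟩
    exact idem_apply hff v
  have hWB : ∀ w : W, (w : E × ℝ).2 = 0 ∧ (w : E × ℝ).1 ∈ B := by
    intro w
    rw [← hWf w]
    exact hfB _
  let CW : Set W := {w | (w : E × ℝ).1 ∈ C}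
  have hCWopen : IsOpen CW := by
    have h1 : CW = (fun w : W => (w : E × ℝ).1) ⁻¹' U := by
      ext w
      change (w : E × ℝ).1 ∈ C ↔ (w : E × ℝ).1 ∈ U
      rw [hCU]
      exact ⟨fun h => h.1, fun h => ⟨h, (hWB w).2⟩⟩
    rw [h1]
    exact hU.preimage (continuous_fst.comp continuous_subtype_val)
  have hCWconvex : Convex ℝ CW :=
    hCc.linear_preimage ((LinearMap.fst ℝ E ℝ) ∘ₗ W.subtype)
  have hCWne : CW.Nonempty := by
    obtain ⟨x, hx⟩ := hCne
    exact ⟨⟨f (x, 0), ⟨(x, 0), rfl⟩⟩, hfC (x, 0) rfl hx⟩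
  have hCWsmul : ∀ x ∈ CW, ∀ t : ℝ, 0 < t → t • x ∈ CW := by
    intro x hx t ht
    exact hCs _ hx t ht
  have hCWlin : ∀ v : W, v ∈ (⊥ : Submodule ℝ W) ↔ ∀ x ∈ CW, ∀ t : ℝ, x + t • v ∈ CW := by
    intro v
    constructor
    · intro hv x hx t
      rw [Submodule.mem_bot] at hv
      rw [hv, smul_zero, add_zero]
      exact hx
    · intro h
      rw [Submodule.mem_bot]
      have h1 : (v : E × ℝ).1 ∈ A := by
        rw [hClin _ (hWB v).2]
        intro x hx t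
        have h2 := h ⟨f (x, 0), ⟨(x, 0), rfl⟩⟩ (hfC (x, 0) rfl hx) t
        have h3 : (f (x, 0)).1 + t • (v : E × ℝ).1 ∈ C := h2
        have hxB : x ∈ B := by
          rw [hCU] at hx
          exact hx.2
        rw [hfv, (hBr (x, 0)).2 ⟨rfl, hxB⟩] at h3
        have h4 := (hAr (eA (x, 0))).1 (idem_apply hA2 (x, 0))
        have h5 := (hClin _ (hAB.le h4.2)).1 h4.2 _ h3 1
        have h6 : ((x, 0) - eA (x, 0)).1 + t • (v : E × ℝ).1 + (1 : ℝ) • (eA (x, 0)).1 =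
            x + t • (v : E × ℝ).1 := by
          rw [Prod.fst_sub, one_smul]
          abel
        rwa [h6] at h5
      have h2 : f (v : E × ℝ) = 0 := hfA _ ((hAr _).2 ⟨(hWB v).1, h1⟩)
      rw [hWf] at h2
      exact Subtype.ext h2
  obtain ⟨ξ, c₀, hc₀, -, hξ⟩ := exists_coercive CW hCWopen hCWconvex hCWne hCWsmul ⊥ hCWlin
    (0 : W →L[ℝ] W) (fun v => by simp) (fun v hv => by
      rw [Submodule.mem_bot] at hv
      rw [hv]
      simp)
  have hξ' : ∀ w ∈ CW, c₀ * ‖w‖ ≤ ξ w := by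
    intro w hw
    simpa using hξ w hw
  have hpos : ∀ w ∈ CW, 0 < ξ w := by
    intro w hw
    rcases eq_or_ne w 0 with h0 | h0
    · exfalso
      rw [h0] at hw
      obtain ⟨δ, hδ, hball⟩ := Metric.isOpen_iff.1 hCWopen 0 hw
      obtain ⟨v, hv⟩ : ∃ v : W, v ≠ 0 := by
        by_contra hcon
        push Not at hcon
        apply hf0
        apply ContinuousLinearMap.ext
        intro v
        exact congrArg Subtype.val (hcon ⟨f v, ⟨v, rfl⟩⟩)
      have hnv : 0 < ‖v‖ := norm_pos_iff.2 hv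
      set w' : W := (δ / (2 * ‖v‖)) • v with hw'
      have hnw' : ‖w'‖ = δ / 2 := by
        rw [hw', norm_smul, Real.norm_of_nonneg (by positivity)]
        field_simp
      have h1 : w' ∈ CW := hball (by
        rw [mem_ball_zero_iff, hnw']
        linarith)
      have h2 : -w' ∈ CW := hball (by
        rw [mem_ball_zero_iff, norm_neg, hnw']
        linarith)
      have h3 := hξ' _ h1
      have h4 := hξ' _ h2
      rw [norm_neg, map_neg] at h4
      rw [hnw'] at h3 h4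
      have h5 : 0 < c₀ * (δ / 2) := by positivity
      linarith
    · exact lt_of_lt_of_le (mul_pos hc₀ (norm_pos_iff.2 h0)) (hξ' w hw)
  -- the representation on `W`
  let t : D.Γ → (W →ₗ[ℝ] W) := fun g =>
    ((f * hatHom D.Γ g : Alg E) : (E × ℝ) →ₗ[ℝ] (E × ℝ)).restrict (p := W) (q := W)
      (fun x _ => ⟨hatHom D.Γ g x, rfl⟩)
  have htapp : ∀ g (w : W), ((t g w : W) : E × ℝ) = f (hatHom D.Γ g w) := fun g w => rfl
  have ht1 : t 1 = LinearMap.id := by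
    apply LinearMap.ext
    intro w
    apply Subtype.ext
    rw [htapp, map_one]
    exact hWf w
  have htm : ∀ g h, t (g * h) = t g ∘ₗ t h := by
    intro g h
    apply LinearMap.ext
    intro w
    apply Subtype.ext
    rw [LinearMap.comp_apply, htapp, htapp, htapp]
    have h1 := congrArg (fun T : Alg E => T (w : E × ℝ)) (hmul g h)
    change f (hatHom D.Γ (g * h) (f w)) =
      f (hatHom D.Γ g (f (f (hatHom D.Γ h (f w))))) at h1
    rwa [idem_apply hff, hWf] at h1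
  have htC : ∀ g, ∀ w ∈ CW, t g w ∈ CW := by
    intro g w hw
    change (f (hatHom D.Γ g w)).1 ∈ C
    have h1 : hatHom D.Γ g (w : E × ℝ) = (g.1.linear (w : E × ℝ).1, 0) := by
      change hat g.1 (w : E × ℝ) = _
      rw [hat_apply, (hWB w).1]
      simp
    rw [h1]
    exact hfC _ rfl (hCinv g.1 g.2 _ hw)
  have hc1 : c 1 = 1 := by
    have h2 := hc.2 1 1
    rw [mul_one] at h2
    have := hc.1 1
    nlinarith
  have hcinv : ∀ g, c g⁻¹ = (c g)⁻¹ := by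
    intro g
    have h1 := hc.2 g g⁻¹
    rw [mul_inv_cancel, hc1] at h1
    exact eq_inv_of_mul_eq_one_right h1.symm
  let ε : W ≃ₗ[ℝ] (Fin (Module.finrank ℝ W) → ℝ) := (Module.finBasis ℝ W).equivFun
  let Q : Blk D.Γ :=
    { d := Module.finrank ℝ W
      ρ :=
        { toFun := fun g => ε.toLinearMap ∘ₗ ((c g)⁻¹ • t g) ∘ₗ ε.symm.toLinearMap
          map_one' := by
            apply LinearMap.ext
            intro v
            simp [ht1, hc1]
          map_mul' := by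
            intro g h
            apply LinearMap.ext
            intro v
            simp only [LinearMap.comp_apply, LinearEquiv.coe_coe, LinearMap.smul_apply,
              Module.End.mul_apply, LinearEquiv.symm_apply_apply, htm, hc.2, map_smul,
              smul_smul, mul_inv]
            rw [mul_comm] }
      C := ε.symm.toLinearMap ⁻¹' CW
      ξ := ξ ∘ₗ ε.symm.toLinearMap
      isOpen := hCWopen.preimage (LinearMap.continuous_of_finiteDimensional _)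
      convex := hCWconvex.linear_preimage _
      nonempty := by
        obtain ⟨w, hw⟩ := hCWne
        refine ⟨ε w, ?_⟩
        change ε.symm (ε w) ∈ CW
        rwa [LinearEquiv.symm_apply_apply]
      smul_mem := by
        intro v hv s hs
        change ε.symm (s • v) ∈ CW
        rw [map_smul]
        exact hCWsmul _ hv s hs
      inv := by
        intro g v hv
        change ε.symm (ε ((c g)⁻¹ • t g (ε.symm v))) ∈ CW
        rw [LinearEquiv.symm_apply_apply]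
        exact hCWsmul _ (htC g _ hv) _ (inv_pos.2 (hc.1 g))
      pos := by
        intro v hv
        exact hpos _ hv }
  refine ⟨c, Q, m + 1, hc, ?_, ?_⟩
  · exact finrank_aux hAB f hff hfB (fun a ha => hfA _ ((hAr (a, 0)).2 ⟨rfl, ha⟩))
  · intro v hv
    have hv' : ε.symm v ∈ CW := hv
    have hev : ∀ g, Q.ev g v = c g * ξ (t g⁻¹ (ε.symm v)) := by
      intro g
      change ξ (ε.symm (ε ((c g⁻¹)⁻¹ • t g⁻¹ (ε.symm v)))) = _
      rw [LinearEquiv.symm_apply_apply, hcinv, inv_inv, map_smul, smul_eq_mul]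
    obtain ⟨A₁, hA₁, hT⟩ := coercive_bound CW hCWopen (0 : W →L[ℝ] W) ξ c₀ hc₀ hξ _ hv'
    have hA₂ : 0 < A₁ * ‖f‖ := mul_pos hA₁ (norm_pos_iff.2 hf0)
    refine ⟨_, add_pos (mul_pos hA₀ hA₂) (mul_pos hA₀ (mul_pos hA₀ (pow_pos hA₂ (m + 1)))), ?_⟩
    intro g
    have hnc : ∀ h : D.Γ, ‖cut (hatHom D.Γ) f c h‖ = (c h)⁻¹ * ‖f * hatHom D.Γ h * f‖ := by
      intro h
      rw [cut, norm_smul, norm_inv, Real.norm_of_nonneg (hc.1 h).le]
    have hX : A₀⁻¹ ≤ ‖cut (hatHom D.Γ) f c g⁻¹‖ := (hcut g⁻¹).1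
    have hY : A₀⁻¹ ≤ ‖cut (hatHom D.Γ) f c g‖ := (hcut g).1
    have hYX : ‖cut (hatHom D.Γ) f c g‖ ≤ A₀ * ‖cut (hatHom D.Γ) f c g⁻¹‖ ^ m := by
      have := (hcut g⁻¹).2
      rwa [inv_inv] at this
    have hXs : ‖cut (hatHom D.Γ) f c g⁻¹‖ ≤ A₁ * ‖f‖ * Q.ev g v := by
      rw [hnc, hcinv, inv_inv, hev]
      have h1 := hT (LinearMap.toContinuousLinearMap (t g⁻¹)) (htC g⁻¹)
      rw [sub_zero, one_mul] at h1
      have h2 : ‖f * hatHom D.Γ g⁻¹ * f‖ ≤
          ‖LinearMap.toContinuousLinearMap (t g⁻¹)‖ * ‖f‖ := by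
        refine ContinuousLinearMap.opNorm_le_bound _ (by positivity) ?_
        intro x
        have h3 := (LinearMap.toContinuousLinearMap (t g⁻¹)).le_opNorm ⟨f x, ⟨x, rfl⟩⟩
        have h4 : ‖(LinearMap.toContinuousLinearMap (t g⁻¹)) ⟨f x, ⟨x, rfl⟩⟩‖ =
            ‖(f * hatHom D.Γ g⁻¹ * f) x‖ := rfl
        have h5 : ‖(⟨f x, ⟨x, rfl⟩⟩ : W)‖ = ‖f x‖ := rfl
        rw [h4, h5] at h3
        refine h3.trans ?_
        rw [mul_assoc]
        exact mul_le_mul_of_nonneg_left (f.le_opNorm x) (norm_nonneg _)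
      have h6 : (LinearMap.toContinuousLinearMap (t g⁻¹)) (ε.symm v) = t g⁻¹ (ε.symm v) := rfl
      rw [h6] at h1
      calc c g * ‖f * hatHom D.Γ g⁻¹ * f‖
          ≤ c g * (A₁ * ξ (t g⁻¹ (ε.symm v)) * ‖f‖) :=
            mul_le_mul_of_nonneg_left
              (h2.trans (mul_le_mul_of_nonneg_right h1 (norm_nonneg _))) (hc.1 g).le
        _ = _ := by ring
    obtain ⟨g1, g2, g3⟩ := growth_aux hA₀ hA₂ hX hY hXs hYX
    exact ⟨g1, g3, g2⟩

end

end Pool.AF
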