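import Pool.Agent.Helper94.AF.Norm

open Set Finset

set_option linter.unusedSectionVars false

namespace Pool.AF

open Pool.SV

/-! ## AF-16 BLKP: the block of a quotient of quadratic type (uses `exists_norm`)

The representation is `(ρ g q) (b) = q (c g • g⁻¹ b)` on `L`, the cone consists of the forms in
`L` that are positive definite on `B / A`, and `ξ q = ∑ q (b_j)` for a basis `b_j` of `B / A`. -/

section Abstract

variable {W : Type*} [NormedAddCommGroup W] [NormedSpace ℝ W] [FiniteDimensional ℝ W]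

private theorem continuous_quad (q : QuadraticForm ℝ W) : Continuous q := by
  have h1 : Continuous ((LinearMap.toContinuousLinearMap :
      (W →ₗ[ℝ] ℝ) ≃ₗ[ℝ] (W →L[ℝ] ℝ)).toLinearMap ∘ₗ (QuadraticMap.associated q)) :=
    LinearMap.continuous_of_finiteDimensional _
  have h2 : (fun w : W => ((LinearMap.toContinuousLinearMap :
      (W →ₗ[ℝ] ℝ) ≃ₗ[ℝ] (W →L[ℝ] ℝ)).toLinearMap ∘ₗ (QuadraticMap.associated q)) w w) = q := by
    funext w
    exact QuadraticMap.associated_eq_self_apply ℝ q w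
  rw [← h2]
  exact h1.clm_apply continuous_id

private instance finite_quad : FiniteDimensional ℝ (QuadraticForm ℝ W) := by
  refine Module.Finite.of_injective (QuadraticMap.associatedHom ℝ :
    QuadraticMap ℝ W ℝ →ₗ[ℝ] LinearMap.BilinMap ℝ W ℝ) ?_
  intro q q' h
  rw [← QuadraticMap.toQuadraticMap_associated ℝ q, ← QuadraticMap.toQuadraticMap_associated ℝ q',
    h]

/-- Composition with a linear map, as a linear map of quadratic forms. -/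
private def cmp (T : W →ₗ[ℝ] W) : QuadraticForm ℝ W →ₗ[ℝ] QuadraticForm ℝ W where
  toFun q := q.comp T
  map_add' _ _ := rfl
  map_smul' _ _ := rfl

private theorem cmp_apply (T : W →ₗ[ℝ] W) (q : QuadraticForm ℝ W) (w : W) :
    cmp T q w = q (T w) := rfl

/-- Evaluation at a vector. -/
private def evq (L : Submodule ℝ (QuadraticForm ℝ W)) (w : W) : L →ₗ[ℝ] ℝ where
  toFun q := (q : QuadraticForm ℝ W) w
  map_add' _ _ := rfl
  map_smul' _ _ := rfl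

private theorem exists_blk {G : Type*} [Group G] (T : G →* (W →ₗ[ℝ] W)) (A : Submodule ℝ W)
    (p : W →ₗ[ℝ] W) (hp1 : ∀ w, w - p w ∈ A) (hp2 : ∀ w, p w = 0 ↔ w ∈ A)
    (hp3 : ∀ w, p (p w) = p w) (hTA : ∀ g, ∀ a ∈ A, T g a ∈ A) (hAtop : ∃ w, w ∉ A)
    (L : Submodule ℝ (QuadraticForm ℝ W)) (hL1 : ∀ q ∈ L, ∀ a ∈ A, ∀ b : W, q (b + a) = q b)
    (hL2 : ∃ q ∈ L, ∀ b : W, b ∉ A → 0 < q b) (hL3 : ∀ g, ∀ q ∈ L, q.comp (T g) ∈ L)
    (c : G → ℝ) (hc : PosMul c) :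
    ∃ Q : Blk G, Q.d = Module.finrank ℝ L ∧ ∀ v ∈ Q.C, ∃ m : ℝ, 0 < m ∧ ∀ g,
      m * ∑ j, ((c g)⁻¹ * ‖p (T g (Module.finBasis ℝ W j))‖) ^ 2 ≤ Q.ev g v := by
  classical
  haveI hfree : Module.Free ℝ L := Module.Free.of_divisionRing ℝ L
  haveI hfin : Module.Finite ℝ L := FiniteDimensional.finiteDimensional_submodule L
  have hc1 : c 1 = 1 := by
    have h := hc.2 1 1
    rw [mul_one] at h
    have h0 := hc.1 1
    nlinarith
  have hcinv : ∀ g, c g⁻¹ = (c g)⁻¹ := by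
    intro g
    have h := hc.2 g g⁻¹
    rw [mul_inv_cancel, hc1] at h
    exact eq_inv_of_mul_eq_one_right h.symm
  -- reduction to the complement
  have hqp : ∀ q ∈ L, ∀ w, q w = q (p w) := by
    intro q hq w
    have h := hL1 q hq (w - p w) (hp1 w) (p w)
    rw [← h]
    congr 1
    abel
  have hscale : ∀ q ∈ L, ∀ w, p w ≠ 0 → q w = ‖p w‖ ^ 2 * q (‖p w‖⁻¹ • p w) := by
    intro q hq w hw
    rw [QuadraticMap.map_smul, hqp q hq w, smul_eq_mul]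
    have : ‖p w‖ ≠ 0 := norm_ne_zero_iff.2 hw
    field_simp
  set K : Set W := {w | ‖w‖ = 1 ∧ p w = w} with hK
  have hKc : IsCompact K := by
    have h1 : IsClosed {w : W | p w = w} :=
      isClosed_eq (LinearMap.continuous_of_finiteDimensional p) continuous_id
    have h2 : K = Metric.sphere (0 : W) 1 ∩ {w : W | p w = w} := by
      ext w
      simp [hK]
    rw [h2]
    exact (isCompact_sphere (0 : W) 1).inter_right h1
  have hKmem : ∀ w, p w ≠ 0 → ‖p w‖⁻¹ • p w ∈ K := by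
    intro w hw
    have h1 : ‖p w‖ ≠ 0 := norm_ne_zero_iff.2 hw
    refine ⟨?_, ?_⟩
    · rw [norm_smul, norm_inv, norm_norm, inv_mul_cancel₀ h1]
    · rw [map_smul, hp3]
  have hKA : ∀ w ∈ K, w ∉ A := by
    intro w hw h
    have h1 := (hp2 w).2 h
    rw [hw.2] at h1
    have h2 := hw.1
    rw [h1, norm_zero] at h2
    exact zero_ne_one h2
  have hposK : ∀ q ∈ L, (∀ w ∈ K, 0 < q w) → ∀ w, w ∉ A → 0 < q w := by
    intro q hq h w hw
    have hw' : p w ≠ 0 := fun h => hw ((hp2 w).1 h)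
    rw [hscale q hq w hw']
    exact mul_pos (pow_pos (norm_pos_iff.2 hw') 2) (h _ (hKmem w hw'))
  -- coordinates
  set d := Module.finrank ℝ L with hd
  set e : L ≃ₗ[ℝ] (Fin d → ℝ) := (Module.finBasis ℝ L).equivFun with he
  have hesymm : ∀ (v : Fin d → ℝ) (w : W), ((e.symm v : L) : QuadraticForm ℝ W) w =
      ∑ i, v i * ((Module.finBasis ℝ L i : L) : QuadraticForm ℝ W) w := by
    intro v w
    have h1 : e.symm v = ∑ i, v i • Module.finBasis ℝ L i := Module.Basis.equivFun_symm_apply _ _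
    have h2 : ((e.symm v : L) : QuadraticForm ℝ W) w = evq L w (e.symm v) := rfl
    rw [h2, h1, map_sum]
    refine Finset.sum_congr rfl fun i _ => ?_
    rw [map_smul, smul_eq_mul]
    rfl
  -- the representation on `L`
  have hM : ∀ g, ∀ q ∈ L, ((c g) ^ 2 • cmp (T g⁻¹)) q ∈ L := by
    intro g q hq
    exact L.smul_mem _ (hL3 g⁻¹ q hq)
  let M : G → (L →ₗ[ℝ] L) := fun g => ((c g) ^ 2 • cmp (T g⁻¹)).restrict (hM g)
  have hMapp : ∀ g (q : L) (w : W), ((M g q : L) : QuadraticForm ℝ W) w =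
      (c g) ^ 2 * (q : QuadraticForm ℝ W) (T g⁻¹ w) := fun g q w => rfl
  have hM1 : M 1 = LinearMap.id := by
    refine LinearMap.ext fun q => Subtype.ext (QuadraticMap.ext fun w => ?_)
    rw [hMapp, hc1, inv_one, map_one]
    simp
  have hMmul : ∀ g h, M (g * h) = (M g).comp (M h) := by
    intro g h
    refine LinearMap.ext fun q => Subtype.ext (QuadraticMap.ext fun w => ?_)
    rw [LinearMap.comp_apply, hMapp, hMapp, hMapp, hc.2, mul_inv_rev, map_mul,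
      Module.End.mul_apply]
    ring
  let ρ : G →* ((Fin d → ℝ) →ₗ[ℝ] (Fin d → ℝ)) :=
    { toFun := fun g => (e.toLinearMap ∘ₗ M g) ∘ₗ e.symm.toLinearMap
      map_one' := by
        refine LinearMap.ext fun v => ?_
        simp [hM1]
      map_mul' := by
        intro g h
        refine LinearMap.ext fun v => ?_
        simp [hMmul, Module.End.mul_apply] }
  have hρ : ∀ g v, e.symm (ρ g v) = M g (e.symm v) := by
    intro g v
    change e.symm (e (M g (e.symm v))) = _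
    rw [LinearEquiv.symm_apply_apply]
  let C : Set (Fin d → ℝ) := {v | ∀ w, w ∉ A → 0 < ((e.symm v : L) : QuadraticForm ℝ W) w}
  let ξ : (Fin d → ℝ) →ₗ[ℝ] ℝ :=
    (∑ j, evq L (Module.finBasis ℝ W j)) ∘ₗ e.symm.toLinearMap
  have hξ : ∀ v, ξ v = ∑ j, ((e.symm v : L) : QuadraticForm ℝ W) (Module.finBasis ℝ W j) := by
    intro v
    change (∑ j, evq L (Module.finBasis ℝ W j)) (e.symm v) = _
    rw [LinearMap.sum_apply]
    rfl
  have hzero : ∀ q ∈ L, ∀ a ∈ A, q a = 0 := by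
    intro q hq a ha
    have h := hL1 q hq a ha 0
    rw [zero_add, QuadraticMap.map_zero] at h
    exact h
  have hnonneg : ∀ v ∈ C, ∀ w, 0 ≤ ((e.symm v : L) : QuadraticForm ℝ W) w := by
    intro v hv w
    by_cases hw : w ∈ A
    · rw [hzero _ (e.symm v).2 w hw]
    · exact (hv w hw).le
  have hopen : IsOpen C := by
    rw [isOpen_iff_mem_nhds]
    intro v hv
    have h1 : ∀ᶠ v' in nhds v, ∀ w ∈ K, 0 < ((e.symm v' : L) : QuadraticForm ℝ W) w := by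
      refine hKc.eventually_forall_of_forall_eventually
        (P := fun v' w => 0 < ((e.symm v' : L) : QuadraticForm ℝ W) w) fun w hw => ?_
      have h2 : Continuous fun z : (Fin d → ℝ) × W =>
          ((e.symm z.1 : L) : QuadraticForm ℝ W) z.2 := by
        simp only [hesymm]
        refine continuous_finsetSum _ fun i _ => ?_
        exact ((continuous_apply i).comp continuous_fst).mul
          ((continuous_quad _).comp continuous_snd)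
      exact h2.continuousAt.eventually (lt_mem_nhds (hv w (hKA w hw)))
    filter_upwards [h1] with v' hv'
    exact hposK _ (e.symm v').2 hv'
  have hne : C.Nonempty := by
    obtain ⟨q, hq, hq'⟩ := hL2
    refine ⟨e ⟨q, hq⟩, fun w hw => ?_⟩
    rw [LinearEquiv.symm_apply_apply]
    exact hq' w hw
  obtain ⟨j₀, hj₀⟩ : ∃ j, Module.finBasis ℝ W j ∉ A := by
    by_contra hcon
    push Not at hcon
    obtain ⟨w, hw⟩ := hAtop
    apply hw
    rw [← (Module.finBasis ℝ W).sum_repr w]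
    exact A.sum_mem fun j _ => A.smul_mem _ (hcon j)
  have hinvA : ∀ g, ∀ w, w ∉ A → T g w ∉ A := by
    intro g w hw h
    apply hw
    have h1 := hTA g⁻¹ _ h
    rw [← Module.End.mul_apply, ← map_mul, inv_mul_cancel, map_one] at h1
    exact h1
  refine ⟨⟨d, ρ, C, ξ, hopen, ?_, hne, ?_, ?_, ?_⟩, rfl, ?_⟩
  · intro v hv v' hv' a b ha hb hab w hw
    have h1 : ((e.symm (a • v + b • v') : L) : QuadraticForm ℝ W) w =
        a * ((e.symm v : L) : QuadraticForm ℝ W) w +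
          b * ((e.symm v' : L) : QuadraticForm ℝ W) w := by
      rw [map_add, map_smul, map_smul]
      rfl
    rw [h1]
    have h2 := hv w hw
    have h3 := hv' w hw
    rcases ha.eq_or_lt with h | h
    · have hb1 : b = 1 := by linarith
      rw [← h, hb1]
      linarith
    · have h4 : 0 < a * ((e.symm v : L) : QuadraticForm ℝ W) w := mul_pos h h2
      have h5 : 0 ≤ b * ((e.symm v' : L) : QuadraticForm ℝ W) w := mul_nonneg hb h3.le
      linarith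
  · intro v hv t ht w hw
    have h1 : ((e.symm (t • v) : L) : QuadraticForm ℝ W) w =
        t * ((e.symm v : L) : QuadraticForm ℝ W) w := by
      rw [map_smul]
      rfl
    rw [h1]
    exact mul_pos ht (hv w hw)
  · intro g v hv w hw
    rw [hρ, hMapp]
    exact mul_pos (pow_pos (hc.1 g) 2) (hv _ (hinvA g⁻¹ w hw))
  · intro v hv
    rw [hξ]
    exact Finset.sum_pos' (fun j _ => hnonneg v hv _) ⟨j₀, Finset.mem_univ _, hv _ hj₀⟩
  · intro v hv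
    -- lower bound of the form
    obtain ⟨m, hm, hmK⟩ : ∃ m : ℝ, 0 < m ∧ ∀ w ∈ K,
        m ≤ ((e.symm v : L) : QuadraticForm ℝ W) w := by
      rcases K.eq_empty_or_nonempty with h | h
      · exact ⟨1, one_pos, by rw [h]; intro w hw; exact hw.elim⟩
      · obtain ⟨w₀, hw₀, hmin⟩ := hKc.exists_isMinOn h
          (continuous_quad ((e.symm v : L) : QuadraticForm ℝ W)).continuousOn
        exact ⟨_, hv w₀ (hKA w₀ hw₀), fun w hw => hmin hw⟩
    have hlow : ∀ w, m * ‖p w‖ ^ 2 ≤ ((e.symm v : L) : QuadraticForm ℝ W) w := by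
      intro w
      by_cases hw : p w = 0
      · rw [hw, norm_zero]
        have := hnonneg v hv w
        simpa using this
      · rw [hscale _ (e.symm v).2 w hw, mul_comm]
        exact mul_le_mul_of_nonneg_left (hmK _ (hKmem w hw)) (sq_nonneg _)
    refine ⟨m, hm, fun g => ?_⟩
    change _ ≤ ξ (ρ g⁻¹ v)
    rw [hξ, Finset.mul_sum]
    refine Finset.sum_le_sum fun j _ => ?_
    rw [hρ, hMapp, inv_inv, hcinv, mul_pow]
    have h1 := hlow (T g (Module.finBasis ℝ W j))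
    have h2 : 0 ≤ ((c g)⁻¹) ^ 2 := sq_nonneg _
    calc m * ((c g)⁻¹ ^ 2 * ‖p (T g (Module.finBasis ℝ W j))‖ ^ 2)
        = (c g)⁻¹ ^ 2 * (m * ‖p (T g (Module.finBasis ℝ W j))‖ ^ 2) := by ring
      _ ≤ _ := mul_le_mul_of_nonneg_left h1 h2

end Abstract

section

variable {E : Type*} [NormedAddCommGroup E] [NormedSpace ℝ E] [FiniteDimensional ℝ E]

private theorem num_grow {A₀ C₂ t s y : ℝ} {m : ℕ} (hA : 0 < A₀) (hC : 0 < C₂) (ht : A₀⁻¹ ≤ t)
    (hts : t ^ 2 ≤ C₂ * s) (hy : y ≤ A₀ * t ^ m) :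
    (A₀ ^ 2 * C₂ + (A₀⁻¹ + A₀ * A₀⁻¹ ^ m) * (A₀ ^ 2 * C₂) ^ (m + 1))⁻¹ ≤ s ∧
    t ≤ (A₀ ^ 2 * C₂ + (A₀⁻¹ + A₀ * A₀⁻¹ ^ m) * (A₀ ^ 2 * C₂) ^ (m + 1)) * s ^ (m + 1) ∧
    y ≤ (A₀ ^ 2 * C₂ + (A₀⁻¹ + A₀ * A₀⁻¹ ^ m) * (A₀ ^ 2 * C₂) ^ (m + 1)) * s ^ (m + 1) := by
  have hk : 0 < A₀ ^ 2 * C₂ := by positivity
  have h1 : 1 ≤ A₀ * t := by
    have := mul_le_mul_of_nonneg_left ht hA.le
    rwa [mul_inv_cancel₀ hA.ne'] at this
  have h2 : (A₀ * t) ^ 2 ≤ A₀ ^ 2 * C₂ * s := by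
    rw [mul_pow, mul_assoc]
    exact mul_le_mul_of_nonneg_left hts (by positivity)
  have h3 : A₀ * t ≤ (A₀ * t) ^ 2 := by nlinarith
  have hr : 1 ≤ A₀ ^ 2 * C₂ * s := by linarith
  have hs : (A₀ ^ 2 * C₂)⁻¹ ≤ s := by
    rw [inv_le_iff_one_le_mul₀ hk]
    linarith
  have hs0 : 0 < s := lt_of_lt_of_le (inv_pos.2 hk) hs
  have hx : 0 ≤ (A₀⁻¹ + A₀ * A₀⁻¹ ^ m) * (A₀ ^ 2 * C₂) ^ (m + 1) := by positivity
  have hr1 : A₀ ^ 2 * C₂ * s ≤ (A₀ ^ 2 * C₂ * s) ^ (m + 1) := le_self_pow₀ hr (by omega)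
  have hrm : (A₀ ^ 2 * C₂ * s) ^ m ≤ (A₀ ^ 2 * C₂ * s) ^ (m + 1) :=
    pow_le_pow_right₀ hr (by omega)
  have hexp : (A₀ ^ 2 * C₂ * s) ^ (m + 1) = (A₀ ^ 2 * C₂) ^ (m + 1) * s ^ (m + 1) := mul_pow _ _ _
  have hsp : 0 < s ^ (m + 1) := pow_pos hs0 _
  have hkp : 0 < (A₀ ^ 2 * C₂) ^ (m + 1) := pow_pos hk _
  refine ⟨?_, ?_, ?_⟩
  · refine le_trans ?_ hs
    exact inv_anti₀ hk (by linarith)
  · have h4 : t ≤ A₀⁻¹ * (A₀ ^ 2 * C₂ * s) ^ (m + 1) := by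
      have h5 : A₀⁻¹ * (A₀ * t) ≤ A₀⁻¹ * (A₀ ^ 2 * C₂ * s) ^ (m + 1) :=
        mul_le_mul_of_nonneg_left (h3.trans (h2.trans hr1)) (by positivity)
      rwa [← mul_assoc, inv_mul_cancel₀ hA.ne', one_mul] at h5
    rw [hexp] at h4
    have h6 : 0 ≤ A₀ ^ 2 * C₂ * s ^ (m + 1) := by positivity
    have h7 : 0 ≤ A₀ * A₀⁻¹ ^ m * ((A₀ ^ 2 * C₂) ^ (m + 1) * s ^ (m + 1)) := by positivity
    have h8 : (A₀ ^ 2 * C₂ + (A₀⁻¹ + A₀ * A₀⁻¹ ^ m) * (A₀ ^ 2 * C₂) ^ (m + 1)) * s ^ (m + 1) =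
        A₀ ^ 2 * C₂ * s ^ (m + 1) + A₀⁻¹ * ((A₀ ^ 2 * C₂) ^ (m + 1) * s ^ (m + 1)) +
          A₀ * A₀⁻¹ ^ m * ((A₀ ^ 2 * C₂) ^ (m + 1) * s ^ (m + 1)) := by ring
    rw [h8]
    linarith
  · have h4 : A₀ * t ^ m ≤ A₀ * A₀⁻¹ ^ m * (A₀ ^ 2 * C₂ * s) ^ (m + 1) := by
      have h5 : (A₀ * t) ^ m ≤ (A₀ ^ 2 * C₂ * s) ^ (m + 1) :=
        (pow_le_pow_left₀ (by linarith) (h3.trans h2) m).trans hrm
      have h6 : A₀ * A₀⁻¹ ^ m * (A₀ * t) ^ m ≤ A₀ * A₀⁻¹ ^ m * (A₀ ^ 2 * C₂ * s) ^ (m + 1) :=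
        mul_le_mul_of_nonneg_left h5 (by positivity)
      have h7 : A₀ * A₀⁻¹ ^ m * (A₀ * t) ^ m = A₀ * t ^ m := by
        rw [mul_pow, inv_pow]
        field_simp
      rwa [h7] at h6
    rw [hexp] at h4
    have h6 : 0 ≤ A₀ ^ 2 * C₂ * s ^ (m + 1) := by positivity
    have h7 : 0 ≤ A₀⁻¹ * ((A₀ ^ 2 * C₂) ^ (m + 1) * s ^ (m + 1)) := by positivity
    have h8 : (A₀ ^ 2 * C₂ + (A₀⁻¹ + A₀ * A₀⁻¹ ^ m) * (A₀ ^ 2 * C₂) ^ (m + 1)) * s ^ (m + 1) =
        A₀ ^ 2 * C₂ * s ^ (m + 1) + A₀⁻¹ * ((A₀ ^ 2 * C₂) ^ (m + 1) * s ^ (m + 1)) +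
          A₀ * A₀⁻¹ ^ m * ((A₀ ^ 2 * C₂) ^ (m + 1) * s ^ (m + 1)) := by ring
    rw [h8]
    linarith

/-- The operator norm is bounded by the values on a basis. -/
private theorem exists_op {W : Type*} [NormedAddCommGroup W] [NormedSpace ℝ W]
    [FiniteDimensional ℝ W] {X Y : Type*} [NormedAddCommGroup X] [NormedSpace ℝ X]
    [NormedAddCommGroup Y] [NormedSpace ℝ Y] [FiniteDimensional ℝ X] (π : X →ₗ[ℝ] W) :
    ∃ K : ℝ, 0 ≤ K ∧ ∀ (U : W →ₗ[ℝ] Y) (x : X),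
      ‖U (π x)‖ ≤ K * Real.sqrt (∑ j, ‖U (Module.finBasis ℝ W j)‖ ^ 2) * ‖x‖ := by
  let co : ∀ j : Fin (Module.finrank ℝ W), X →L[ℝ] ℝ := fun j =>
    LinearMap.toContinuousLinearMap (((Module.finBasis ℝ W).coord j) ∘ₗ π)
  refine ⟨∑ j, ‖co j‖, Finset.sum_nonneg fun j _ => norm_nonneg _, fun U x => ?_⟩
  have h1 : U (π x) = ∑ j, (co j x) • U (Module.finBasis ℝ W j) := by
    conv_lhs => rw [← (Module.finBasis ℝ W).sum_repr (π x)]
    rw [map_sum]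
    refine Finset.sum_congr rfl fun j _ => ?_
    rw [map_smul]
    rfl
  rw [h1, Finset.sum_mul, Finset.sum_mul]
  refine (norm_sum_le _ _).trans (Finset.sum_le_sum fun j _ => ?_)
  rw [norm_smul]
  have h2 : ‖co j x‖ ≤ ‖co j‖ * ‖x‖ := (co j).le_opNorm x
  have h3 : ‖U (Module.finBasis ℝ W j)‖ ≤
      Real.sqrt (∑ j, ‖U (Module.finBasis ℝ W j)‖ ^ 2) := by
    refine Real.le_sqrt_of_sq_le ?_
    exact Finset.single_le_sum (f := fun j => ‖U (Module.finBasis ℝ W j)‖ ^ 2)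
      (fun i _ => sq_nonneg _) (Finset.mem_univ j)
  calc ‖co j x‖ * ‖U (Module.finBasis ℝ W j)‖
      ≤ (‖co j‖ * ‖x‖) * Real.sqrt (∑ j, ‖U (Module.finBasis ℝ W j)‖ ^ 2) :=
        mul_le_mul h2 h3 (norm_nonneg _) (by positivity)
    _ = _ := by ring

theorem blk_quad (D : Geo E) (A B : Submodule ℝ E) (hAB : A < B)
    (hA : ∀ g ∈ D.Γ, ∀ v ∈ A, g.linear v ∈ A) (hB : ∀ g ∈ D.Γ, ∀ v ∈ B, g.linear v ∈ B)
    (k : ℕ) (hq : QuadType D.Γ A B k) (eA eB : Alg E) (hA2 : eA * eA = eA) (hB2 : eB * eB = eB)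
    (hAr : ∀ v : E × ℝ, eA v = v ↔ v.2 = 0 ∧ v.1 ∈ A)
    (hBr : ∀ v : E × ℝ, eB v = v ↔ v.2 = 0 ∧ v.1 ∈ B) (hAB1 : eA * eB = eA)
    (hAB2 : eB * eA = eA) :
    ∃ (c : D.Γ → ℝ) (Q : Blk D.Γ) (b : ℕ), PosMul c ∧
      Q.d + Module.finrank ℝ A ≤ Module.finrank ℝ B + k ∧
      ∀ v ∈ Q.C, Grow (cut (hatHom D.Γ) (eB - eA) c) (fun g => Q.ev g v) b := by
  obtain ⟨L, hLd, hL1, hL2, hL3⟩ := hq
  set f : Alg E := eB - eA with hf
  have hidem : ∀ e : Alg E, e * e = e → ∀ x, e (e x) = e x := by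
    intro e he x
    rw [← mul_apply_eq_comp, he]
  have hfA : ∀ x : E × ℝ, (eA x).2 = 0 ∧ (eA x).1 ∈ A := fun x =>
    (hAr (eA x)).1 (hidem eA hA2 x)
  have hfB : ∀ x : E × ℝ, (eB x).2 = 0 ∧ (eB x).1 ∈ B := fun x =>
    (hBr (eB x)).1 (hidem eB hB2 x)
  have hfx : ∀ x : E × ℝ, f x = eB x - eA x := fun x => rfl
  have hf2 : ∀ x : E × ℝ, (f x).2 = 0 ∧ (f x).1 ∈ B := by
    intro x
    rw [hfx]
    refine ⟨?_, ?_⟩
    · rw [Prod.snd_sub, (hfA x).1, (hfB x).1, sub_zero]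
    · rw [Prod.fst_sub]
      exact B.sub_mem (hfB x).2 (hAB.le (hfA x).2)
  have hfb : ∀ b ∈ B, f (b, 0) = (b, 0) - eA (b, 0) := by
    intro b hb
    rw [hfx, (hBr (b, 0)).2 ⟨rfl, hb⟩]
  have hfa : ∀ a ∈ A, f (a, 0) = 0 := by
    intro a ha
    rw [hfb a (hAB.le ha), (hAr (a, 0)).2 ⟨rfl, ha⟩, sub_self]
  have hff : f * f = f := by
    rw [hf, mul_sub, sub_mul, sub_mul, hA2, hB2, hAB1, hAB2, sub_self, sub_zero]
  obtain ⟨b₀, hb₀B, hb₀A⟩ := SetLike.exists_of_lt hAB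
  have hf0 : f ≠ 0 := by
    intro h
    have h1 := hfb b₀ hb₀B
    rw [h] at h1
    have h2 : eA (b₀, 0) = (b₀, 0) := (sub_eq_zero.1 h1.symm).symm
    exact hb₀A ((hAr (b₀, 0)).1 h2).2
  have hφ : ∀ (g : D.Γ) (b : E), (hatHom D.Γ g) (b, 0) = (g.1.linear b, 0) := by
    intro g b
    change hat g.1 (b, 0) = _
    rw [hat_apply]
    simp
  have hφf : ∀ (g : D.Γ) (x : E × ℝ), (hatHom D.Γ g) (f x) = (g.1.linear (f x).1, 0) := by
    intro g x
    rw [← hφ]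
    congr 1
    exact Prod.ext rfl (hf2 x).1
  have hkey : ∀ (g : D.Γ) (b : E), b ∈ B → f (hatHom D.Γ g (f (b, 0))) =
      f (hatHom D.Γ g (b, 0)) := by
    intro g b hb
    rw [hfb b hb, map_sub, map_sub, sub_eq_self]
    have h1 : eA (b, 0) = ((eA (b, 0)).1, 0) := Prod.ext rfl (hfA (b, 0)).1
    rw [h1, hφ]
    exact hfa _ (hA g.1 g.2 _ (hfA (b, 0)).2)
  have hmul : ∀ g h : D.Γ, f * hatHom D.Γ (g * h) * f =
      (f * hatHom D.Γ g * f) * (f * hatHom D.Γ h * f) := by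
    intro g h
    rw [map_mul]
    refine ContinuousLinearMap.ext fun x => ?_
    simp only [mul_apply_eq_comp]
    have h1 : f (f (hatHom D.Γ h (f x))) = f (hatHom D.Γ h (f x)) := hidem f hff _
    rw [h1, hφf h x, hkey g _ (hB h.1 h.2 _ (hf2 x).2)]
  obtain ⟨c, hc, A₀, m, hA₀, hN⟩ := exists_norm (hatHom D.Γ) f hff hf0 hmul
  -- the representation on `B`
  let T : D.Γ →* (B →ₗ[ℝ] B) :=
    { toFun := fun g => (g.1.linear : E →ₗ[ℝ] E).restrict (fun v hv => hB g.1 g.2 v hv)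
      map_one' := rfl
      map_mul' := fun g h => rfl }
  have hT : ∀ (g : D.Γ) (b : B), ((T g b : B) : E) = g.1.linear (b : E) := fun g b => rfl
  let p : B →ₗ[ℝ] B := LinearMap.codRestrict B
    ((LinearMap.fst ℝ E ℝ) ∘ₗ (f : (E × ℝ) →ₗ[ℝ] (E × ℝ)) ∘ₗ (LinearMap.inl ℝ E ℝ) ∘ₗ B.subtype)
    (fun b => (hf2 _).2)
  have hp : ∀ b : B, ((p b : B) : E) = (f ((b : E), 0)).1 := fun b => rfl
  have hp' : ∀ b : B, f ((b : E), 0) = (((p b : B) : E), 0) := fun b =>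
    Prod.ext (hp b).symm (hf2 _).1
  obtain ⟨Q, hQd, hQ⟩ := exists_blk T (A.comap B.subtype) p
    (by
      intro w
      rw [Submodule.mem_comap]
      have h1 := congrArg Prod.fst (hfb w w.2)
      rw [Prod.fst_sub] at h1
      have h2 : B.subtype (w - p w) = (eA ((w : E), 0)).1 := by
        change (w : E) - ((p w : B) : E) = _
        rw [hp, h1]
        simp
      rw [h2]
      exact (hfA _).2)
    (by
      intro w
      rw [Submodule.mem_comap]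
      refine ⟨fun h => ?_, fun h => ?_⟩
      · have h1 := hp' w
        rw [h, hfb w w.2] at h1
        have h2 : (((0 : B) : E), (0 : ℝ)) = 0 := rfl
        rw [h2, sub_eq_zero] at h1
        exact ((hAr ((w : E), 0)).1 h1.symm).2
      · have h1 := hp' w
        have h' : (w : E) ∈ A := h
        rw [hfa _ h'] at h1
        exact Subtype.ext (congrArg Prod.fst h1).symm)
    (by
      intro w
      refine Subtype.ext ?_
      have h1 : f (f ((w : E), 0)) = f ((w : E), 0) := hidem f hff _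
      rw [hp' w, hp' (p w)] at h1
      exact congrArg Prod.fst h1)
    (by
      intro g a ha
      exact hA g.1 g.2 _ ha)
    ⟨⟨b₀, hb₀B⟩, hb₀A⟩ L
    (fun q hq a ha b => hL1 q hq a b ha)
    hL2
    (by
      intro g q hq
      obtain ⟨q', hq', h⟩ := hL3 g.1 g.2 q hq
      have h1 : q.comp (T g) = q' := QuadraticMap.ext fun b => (h b (T g b) rfl).symm
      rw [h1]
      exact hq')
    c hc
  refine ⟨c, Q, m + 1, hc, by rw [hQd]; exact hLd, fun v hv => ?_⟩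
  obtain ⟨m₁, hm₁, hQv⟩ := hQ v hv
  -- the operator norm
  let π : (E × ℝ) →ₗ[ℝ] B := LinearMap.codRestrict B
    ((LinearMap.fst ℝ E ℝ) ∘ₗ (f : (E × ℝ) →ₗ[ℝ] (E × ℝ))) (fun x => (hf2 x).2)
  have hπ : ∀ x : E × ℝ, f x = (((π x : B) : E), 0) := fun x => Prod.ext rfl (hf2 x).1
  obtain ⟨K, hK, hop⟩ := exists_op (Y := B) π
  have hcut : ∀ g : D.Γ, ‖cut (hatHom D.Γ) f c g‖ ^ 2 ≤ (K ^ 2 / m₁ + 1) * Q.ev g v := by
    intro g
    have hcg := hc.1 g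
    have h1 : ‖f * hatHom D.Γ g * f‖ ≤
        K * Real.sqrt (∑ j, ‖(p ∘ₗ T g) (Module.finBasis ℝ B j)‖ ^ 2) := by
      refine ContinuousLinearMap.opNorm_le_bound _ (by positivity) fun x => ?_
      have h2 : (f * hatHom D.Γ g * f) x = ((((p ∘ₗ T g) (π x) : B) : E), 0) := by
        simp only [mul_apply_eq_comp]
        rw [hπ x, hφ, ← hT, hp']
        rfl
      have h3 : ‖(f * hatHom D.Γ g * f) x‖ = ‖(p ∘ₗ T g) (π x)‖ := by
        rw [h2, Prod.norm_def]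
        simp
      rw [h3]
      exact hop _ x
    have h4 : ‖cut (hatHom D.Γ) f c g‖ = (c g)⁻¹ * ‖f * hatHom D.Γ g * f‖ := by
      unfold cut
      rw [norm_smul, norm_inv, Real.norm_of_nonneg hcg.le]
    have h5 : ‖cut (hatHom D.Γ) f c g‖ ^ 2 ≤
        K ^ 2 * ∑ j, ((c g)⁻¹ * ‖p (T g (Module.finBasis ℝ B j))‖) ^ 2 := by
      rw [h4, mul_pow]
      have h6 : ‖f * hatHom D.Γ g * f‖ ^ 2 ≤
          K ^ 2 * ∑ j, ‖(p ∘ₗ T g) (Module.finBasis ℝ B j)‖ ^ 2 := by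
        have h7 := pow_le_pow_left₀ (norm_nonneg _) h1 2
        rwa [mul_pow, Real.sq_sqrt (Finset.sum_nonneg fun j _ => sq_nonneg _)] at h7
      have h8 : ∑ j, ((c g)⁻¹ * ‖p (T g (Module.finBasis ℝ B j))‖) ^ 2 =
          (c g)⁻¹ ^ 2 * ∑ j, ‖(p ∘ₗ T g) (Module.finBasis ℝ B j)‖ ^ 2 := by
        rw [Finset.mul_sum]
        refine Finset.sum_congr rfl fun j _ => ?_
        rw [mul_pow]
        rfl
      rw [h8]
      calc (c g)⁻¹ ^ 2 * ‖f * hatHom D.Γ g * f‖ ^ 2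
          ≤ (c g)⁻¹ ^ 2 * (K ^ 2 * ∑ j, ‖(p ∘ₗ T g) (Module.finBasis ℝ B j)‖ ^ 2) :=
            mul_le_mul_of_nonneg_left h6 (sq_nonneg _)
        _ = _ := by ring
    have h9 := hQv g
    have h10 : 0 ≤ ∑ j, ((c g)⁻¹ * ‖p (T g (Module.finBasis ℝ B j))‖) ^ 2 :=
      Finset.sum_nonneg fun j _ => sq_nonneg _
    have h11 : 0 ≤ Q.ev g v := le_trans (mul_nonneg hm₁.le h10) h9
    have h12 : ∑ j, ((c g)⁻¹ * ‖p (T g (Module.finBasis ℝ B j))‖) ^ 2 ≤ Q.ev g v / m₁ := by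
      rw [le_div_iff₀ hm₁]
      linarith
    calc ‖cut (hatHom D.Γ) f c g‖ ^ 2
        ≤ K ^ 2 * ∑ j, ((c g)⁻¹ * ‖p (T g (Module.finBasis ℝ B j))‖) ^ 2 := h5
      _ ≤ K ^ 2 * (Q.ev g v / m₁) := mul_le_mul_of_nonneg_left h12 (sq_nonneg _)
      _ = K ^ 2 / m₁ * Q.ev g v := by ring
      _ ≤ (K ^ 2 / m₁ + 1) * Q.ev g v := by linarith
  refine ⟨A₀ ^ 2 * (K ^ 2 / m₁ + 1) + (A₀⁻¹ + A₀ * A₀⁻¹ ^ m) *
    (A₀ ^ 2 * (K ^ 2 / m₁ + 1)) ^ (m + 1), by positivity, fun g => ?_⟩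
  have hC2 : 0 < K ^ 2 / m₁ + 1 := by positivity
  exact num_grow hA₀ hC2 (hN g).1 (hcut g) (hN g).2

end

end Pool.AF
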