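import Pool.Agent.Helper94.AF.Norm
import Pool.Agent.Helper94.AF.Sharp

open Set Finset

set_option linter.unusedSectionVars false

namespace Pool.AF

open Pool.SV

/-! ## AF-18 BLKT: the top block: the action on `X` modulo the lineality space (uses
`exists_norm`, `exists_coercive`, `coercive_bound` for the cone over `X` in `E × ℝ`) -/

section

variable {E : Type*} [NormedAddCommGroup E] [NormedSpace ℝ E] [FiniteDimensional ℝ E]

private theorem growth_aux {A₀ A₂ X Y s : ℝ} {m : ℕ} (hA₀ : 0 < A₀) (hA₂ : 0 < A₂)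
    (hX : A₀⁻¹ ≤ X) (hXs : X ≤ A₂ * s) (hYX : Y ≤ A₀ * X ^ m) :
    (A₀ * A₂ + A₀ * A₂ ^ (m + 1))⁻¹ ≤ s ∧
      X * Y ≤ (A₀ * A₂ + A₀ * A₂ ^ (m + 1)) * s ^ (m + 1) := by
  have hX0 : 0 < X := lt_of_lt_of_le (inv_pos.2 hA₀) hX
  have hs : 0 < s := by
    by_contra h
    have : A₂ * s ≤ 0 := mul_nonpos_of_nonneg_of_nonpos hA₂.le (not_lt.1 h)
    linarith
  have hp : 0 < A₀ * A₂ ^ (m + 1) := mul_pos hA₀ (pow_pos hA₂ _)
  have hq : 0 < A₀ * A₂ := mul_pos hA₀ hA₂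
  constructor
  · rw [inv_le_iff_one_le_mul₀ (by linarith)]
    have h1 : A₀⁻¹ ≤ A₂ * s := hX.trans hXs
    rw [inv_le_iff_one_le_mul₀ hA₀] at h1
    have h2 : 0 < s * (A₀ * A₂ ^ (m + 1)) := mul_pos hs hp
    nlinarith
  · have h1 : X ^ (m + 1) ≤ (A₂ * s) ^ (m + 1) := pow_le_pow_left₀ hX0.le hXs _
    calc X * Y ≤ X * (A₀ * X ^ m) := mul_le_mul_of_nonneg_left hYX hX0.le
      _ = A₀ * X ^ (m + 1) := by ring
      _ ≤ A₀ * (A₂ * s) ^ (m + 1) := mul_le_mul_of_nonneg_left h1 hA₀.le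
      _ = A₀ * A₂ ^ (m + 1) * s ^ (m + 1) := by ring
      _ ≤ (A₀ * A₂ + A₀ * A₂ ^ (m + 1)) * s ^ (m + 1) :=
        mul_le_mul_of_nonneg_right (by linarith) (pow_pos hs _).le

/-- The cone over the domain. -/
private def coneX (X : Set E) : Set (E × ℝ) := {v | 0 < v.2 ∧ (v.2)⁻¹ • v.1 ∈ X}

private theorem coneX_isOpen {X : Set E} (hX : IsOpen X) : IsOpen (coneX X) := by
  have h : coneX X = {v : E × ℝ | 0 < v.2} ∩
      (fun v : E × ℝ => (v.2)⁻¹ • v.1) ⁻¹' X := rfl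
  rw [h]
  refine ContinuousOn.isOpen_inter_preimage ?_ ?_ hX
  · refine ContinuousOn.smul ?_ continuousOn_fst
    refine ContinuousOn.inv₀ continuousOn_snd ?_
    intro v hv
    exact (ne_of_gt hv)
  · exact isOpen_lt continuous_const continuous_snd

private theorem coneX_smul {X : Set E} {v : E × ℝ} (hv : v ∈ coneX X) {t : ℝ} (ht : 0 < t) :
    t • v ∈ coneX X := by
  obtain ⟨h1, h2⟩ := hv
  refine ⟨?_, ?_⟩
  · simpa using mul_pos ht h1
  · have : ((t • v).2)⁻¹ • (t • v).1 = (v.2)⁻¹ • v.1 := by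
      simp only [Prod.smul_snd, Prod.smul_fst, smul_eq_mul, smul_smul]
      congr 1
      field_simp
    rw [this]
    exact h2

private theorem mem_coneX_iff {X : Set E} {v : E × ℝ} :
    v ∈ coneX X ↔ ∃ (r : ℝ) (x : E), 0 < r ∧ x ∈ X ∧ v = (r • x, r) := by
  constructor
  · rintro ⟨h1, h2⟩
    refine ⟨v.2, (v.2)⁻¹ • v.1, h1, h2, ?_⟩
    ext
    · simp [smul_smul, mul_inv_cancel₀ h1.ne']
    · rfl
  · rintro ⟨r, x, hr, hx, rfl⟩
    refine ⟨hr, ?_⟩
    simp only [smul_smul, inv_mul_cancel₀ hr.ne', one_smul]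
    exact hx

private theorem coneX_convex {X : Set E} (hX : Convex ℝ X) : Convex ℝ (coneX X) := by
  intro v hv w hw a b ha hb hab
  rw [mem_coneX_iff] at hv hw ⊢
  obtain ⟨r, x, hr, hx, rfl⟩ := hv
  obtain ⟨s, y, hs, hy, rfl⟩ := hw
  have h1 : 0 < a * r + b * s := by
    rcases ha.eq_or_lt with h | h
    · rw [← h]
      have : b = 1 := by linarith
      rw [this]
      linarith
    · have := mul_pos h hr
      have := mul_nonneg hb hs.le
      linarith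
  refine ⟨a * r + b * s, (a * r / (a * r + b * s)) • x + (b * s / (a * r + b * s)) • y, h1, ?_,
    ?_⟩
  · refine hX hx hy (div_nonneg (mul_nonneg ha hr.le) h1.le)
      (div_nonneg (mul_nonneg hb hs.le) h1.le) ?_
    rw [← add_div, div_self h1.ne']
  · ext
    · simp only [Prod.fst_add, Prod.smul_fst, smul_add, smul_smul]
      congr 2 <;> field_simp
    · simp

private theorem ee_apply {e : Alg E} (he : e * e = e) (v : E × ℝ) : e (e v) = e v := by
  have := congrArg (fun T : Alg E => T v) he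
  simpa using this

theorem blk_top (D : Geo E) (V : Submodule ℝ E) (hV : ∀ v, v ∈ V ↔ v ∈ Lin D.X) (e : Alg E)
    (he : e * e = e) (hr : ∀ v : E × ℝ, e v = v ↔ v.2 = 0 ∧ v.1 ∈ V) :
    ∃ (c : D.Γ → ℝ) (ξ : (E × ℝ) →ₗ[ℝ] ℝ) (b : ℕ), PosMul c ∧ (∀ v ∈ V, ξ (v, 0) = 0) ∧
      (∀ x ∈ D.X, 0 < ξ (x, 1)) ∧ (∀ u ∈ Rec D.X, u ∉ V → 0 < ξ (u, 0)) ∧
      ∀ x ∈ D.X, Grow (fun g : D.Γ => (1 - e) * hatHom D.Γ g * (1 - e))
        (fun g => c g * ξ (hatHom D.Γ g⁻¹ (x, 1))) b := by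
  classical
  -- the functional
  have hVC : ∀ v, v ∈ V.prod (⊥ : Submodule ℝ ℝ) ↔
      ∀ x ∈ coneX D.X, ∀ t : ℝ, x + t • v ∈ coneX D.X := by
    intro v
    constructor
    · rintro ⟨h1, h2⟩ x hx t
      have h2' : v.2 = 0 := h2
      rw [mem_coneX_iff] at hx ⊢
      obtain ⟨r, y, hr0, hy, rfl⟩ := hx
      refine ⟨r, y + (t / r) • v.1, hr0, (hV v.1).1 h1 y hy _, ?_⟩
      ext
      · simp only [Prod.fst_add, Prod.smul_fst, smul_add, smul_smul]
        congr 2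
        field_simp
      · simp [h2']
    · intro h
      obtain ⟨x, hx⟩ := D.nonempty
      have hmem : ∀ y ∈ D.X, ((y, 1) : E × ℝ) ∈ coneX D.X := fun y hy =>
        ⟨by norm_num, by simpa using hy⟩
      have h2 : v.2 = 0 := by
        by_contra h0
        have h3 := (h (x, 1) (hmem x hx) (-(v.2)⁻¹)).1
        simp only [Prod.snd_add, Prod.smul_snd, smul_eq_mul, neg_mul] at h3
        rw [inv_mul_cancel₀ h0] at h3
        norm_num at h3
      refine ⟨(hV v.1).2 ?_, h2⟩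
      intro y hy t
      have h3 := (h (y, 1) (hmem y hy) t).2
      simpa [h2] using h3
  have hr' : ∀ v, e v ∈ V.prod (⊥ : Submodule ℝ ℝ) := by
    intro v
    have h1 := (hr (e v)).1 (ee_apply he v)
    exact ⟨h1.2, h1.1⟩
  have he' : ∀ v ∈ V.prod (⊥ : Submodule ℝ ℝ), e v = v := by
    rintro v ⟨h1, h2⟩
    exact (hr v).2 ⟨h2, h1⟩
  have hmem : ∀ y ∈ D.X, ((y, 1) : E × ℝ) ∈ coneX D.X := fun y hy =>
    ⟨by norm_num, by simpa using hy⟩
  have hopen := coneX_isOpen D.isOpen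
  obtain ⟨ξ, c₀, hc₀, hξV, hξ⟩ := exists_coercive (coneX D.X) hopen (coneX_convex D.convex)
    (by
      obtain ⟨x, hx⟩ := D.nonempty
      exact ⟨(x, 1), hmem x hx⟩)
    (fun x hx t ht => coneX_smul hx ht) (V.prod ⊥) hVC e hr' he'
  -- invariance
  have hinv : ∀ g : D.Γ, ∀ v ∈ coneX D.X, hatHom D.Γ g v ∈ coneX D.X := by
    intro g v hv
    rw [mem_coneX_iff] at hv ⊢
    obtain ⟨r, y, hr0, hy, rfl⟩ := hv
    refine ⟨r, g.1 y, hr0, D.inv g.1 g.2 y hy, ?_⟩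
    change hat g.1 (r • y, r) = _
    rw [hat_apply, aff_eq g.1 y]
    simp
  have hlin : ∀ g : D.Γ, ∀ v ∈ V, g.1.linear v ∈ V := by
    intro g v hv
    rw [hV] at hv ⊢
    intro x hx t
    have h1 : (g⁻¹ : D.Γ).1 x ∈ D.X := D.inv _ (g⁻¹ : D.Γ).2 x hx
    have h2 := D.inv g.1 g.2 _ (hv _ h1 t)
    have h3 : g.1 ((g⁻¹ : D.Γ).1 x) = x := by
      have : (g.1 * (g⁻¹ : D.Γ).1) x = x := by
        have h4 : g.1 * (g⁻¹ : D.Γ).1 = 1 := by simp
        rw [h4]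
        rfl
      exact this
    have h5 : g.1 ((g⁻¹ : D.Γ).1 x + t • v) = x + t • g.1.linear v := by
      rw [aff_eq, map_add, map_smul]
      rw [aff_eq g.1] at h3
      rw [add_right_comm, h3]
    rwa [h5] at h2
  -- the idempotent
  have hf : (1 - e) * (1 - e) = 1 - e := by
    rw [mul_sub, sub_mul, sub_mul, he]
    simp
  have hφe : ∀ g : D.Γ, (1 - e) * (hatHom D.Γ g * e) = 0 := by
    intro g
    apply ContinuousLinearMap.ext
    intro v
    have h1 : e (hatHom D.Γ g (e v)) = hatHom D.Γ g (e v) := by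
      rw [hr]
      have h2 := (hr (e v)).1 (ee_apply he v)
      change (hat g.1 (e v)).2 = 0 ∧ (hat g.1 (e v)).1 ∈ V
      rw [hat_apply]
      refine ⟨h2.1, ?_⟩
      simp only [h2.1, zero_smul, add_zero]
      exact hlin g _ h2.2
    change hatHom D.Γ g (e v) - e (hatHom D.Γ g (e v)) = 0
    rw [h1, sub_self]
  have hmul : ∀ g h : D.Γ, (1 - e) * hatHom D.Γ (g * h) * (1 - e) =
      ((1 - e) * hatHom D.Γ g * (1 - e)) * ((1 - e) * hatHom D.Γ h * (1 - e)) := by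
    intro g h
    have h1 : ((1 - e) * hatHom D.Γ g * (1 - e)) * ((1 - e) * hatHom D.Γ h * (1 - e)) =
        (1 - e) * hatHom D.Γ g * ((1 - e) * (1 - e)) * (hatHom D.Γ h * (1 - e)) := by
      simp only [mul_assoc]
    have h2 : (1 - e) * hatHom D.Γ g * e = 0 := by
      rw [mul_assoc]
      exact hφe g
    rw [h1, hf, mul_sub ((1 - e) * hatHom D.Γ g), h2, mul_one, sub_zero, map_mul]
    simp only [mul_assoc]
  have hf0 : (1 - e : Alg E) ≠ 0 := by
    intro h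
    have h1 := congrArg (fun T : Alg E => T (0, 1)) h
    have h2 : ((0, 1) : E × ℝ) - e (0, 1) = 0 := h1
    have h3 := (hr (0, 1)).1 (sub_eq_zero.1 h2).symm
    have h4 : (1 : ℝ) = 0 := h3.1
    norm_num at h4
  obtain ⟨c, hc, A₀, m, hA₀, hcut⟩ := exists_norm (hatHom D.Γ) (1 - e) hf hf0 hmul
  -- the height
  have hsnd : ∀ v, (e v).2 = 0 := fun v => ((hr (e v)).1 (ee_apply he v)).1
  have hht : ∀ g : D.Γ, 1 ≤ ‖(1 - e) * hatHom D.Γ g * (1 - e)‖ := by
    intro g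
    have h1 : (((1 - e) * hatHom D.Γ g * (1 - e)) ((0, 1) : E × ℝ)).2 = 1 := by
      have h2 : ∀ v : E × ℝ, ((1 - e : Alg E) v).2 = v.2 := by
        intro v
        change (v - e v).2 = v.2
        rw [Prod.snd_sub, hsnd, sub_zero]
      have h3 : ∀ v : E × ℝ, (hatHom D.Γ g v).2 = v.2 := fun v => rfl
      change ((1 - e : Alg E) (hatHom D.Γ g ((1 - e : Alg E) (0, 1)))).2 = 1
      rw [h2, h3, h2]
    have h2 := ((1 - e) * hatHom D.Γ g * (1 - e)).le_opNorm ((0, 1) : E × ℝ)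
    have h3 : ‖((0, 1) : E × ℝ)‖ = 1 := by
      simp [Prod.norm_def]
    rw [h3, mul_one] at h2
    have h4 := norm_snd_le (((1 - e) * hatHom D.Γ g * (1 - e)) ((0, 1) : E × ℝ))
    rw [h1, norm_one] at h4
    exact h4.trans h2
  refine ⟨c, ξ, m + 1, hc, ?_, ?_, ?_, ?_⟩
  · intro v hv
    exact hξV (v, 0) ⟨hv, rfl⟩
  · intro x hx
    refine lt_of_lt_of_le (mul_pos hc₀ (norm_pos_iff.2 ?_)) (hξ (x, 1) (hmem x hx))
    intro h
    have h3 := (hr (x, 1)).1 (sub_eq_zero.1 h).symm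
    have h4 : (1 : ℝ) = 0 := h3.1
    norm_num at h4
  · intro u hu huV
    by_contra hcon
    push Not at hcon
    obtain ⟨x, hx⟩ := D.nonempty
    set n : ℝ := ‖((u, 0) : E × ℝ) - e (u, 0)‖ with hn
    have hn0 : 0 < n := by
      rw [hn, norm_pos_iff]
      intro h
      exact huV ((hr (u, 0)).1 (sub_eq_zero.1 h).symm).2
    set k : ℝ := ‖((x, 1) : E × ℝ) - e (x, 1)‖ with hk
    have key : ∀ t : ℝ, 0 ≤ t → c₀ * (t * n) ≤ ξ (x, 1) + c₀ * k := by
      intro t ht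
      have h1 := hξ _ (hmem _ (hu x hx t ht))
      have h2 : ((x + t • u, 1) : E × ℝ) = (x, 1) + t • (u, 0) := by
        ext <;> simp
      rw [h2, map_add, map_add, map_smul, map_smul] at h1
      have h3 : t • (((u, 0) : E × ℝ) - e (u, 0)) =
          ((x, 1) + t • (u, 0) - (e (x, 1) + t • e (u, 0))) - ((x, 1) - e (x, 1)) := by
        rw [smul_sub]
        abel
      have h4 : t * n ≤ ‖(x, 1) + t • (u, 0) - (e (x, 1) + t • e (u, 0))‖ + k := by
        have h5 : ‖t • (((u, 0) : E × ℝ) - e (u, 0))‖ = t * n := by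
          rw [norm_smul, Real.norm_of_nonneg ht]
        rw [← h5, h3]
        exact norm_sub_le _ _
      have h6 : t * ξ (u, 0) ≤ 0 := mul_nonpos_of_nonneg_of_nonpos ht hcon
      have h7 := mul_le_mul_of_nonneg_left h4 hc₀.le
      rw [smul_eq_mul] at h1
      linarith
    have hk0 : 0 ≤ ξ (x, 1) + c₀ * k := by
      have := key 0 le_rfl
      simpa using this
    have h1 := key ((ξ (x, 1) + c₀ * k + 1) / (c₀ * n)) (by positivity)
    have h2 : c₀ * ((ξ (x, 1) + c₀ * k + 1) / (c₀ * n) * n) = ξ (x, 1) + c₀ * k + 1 := by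
      field_simp
    linarith
  · intro x hx
    obtain ⟨A₁, hA₁, hT⟩ := coercive_bound (coneX D.X) hopen e ξ c₀ hc₀ hξ (x, 1) (hmem x hx)
    have hA₂ : 0 < A₁ * ‖(1 - e : Alg E)‖ := mul_pos hA₁ (norm_pos_iff.2 hf0)
    refine ⟨_, add_pos (mul_pos hA₀ hA₂) (mul_pos hA₀ (pow_pos hA₂ (m + 1))), ?_⟩
    intro g
    have hcg : 0 < c g := hc.1 g
    have hcg' : c g⁻¹ = (c g)⁻¹ := by
      have h1 := hc.2 g g⁻¹
      have h2 := hc.2 1 1
      rw [mul_one] at h2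
      have h3 : c 1 = 1 := by
        have := hc.1 1
        nlinarith
      rw [mul_inv_cancel, h3] at h1
      exact eq_inv_of_mul_eq_one_right h1.symm
    have hnc : ∀ h : D.Γ, ‖cut (hatHom D.Γ) (1 - e) c h‖ =
        (c h)⁻¹ * ‖(1 - e) * hatHom D.Γ h * (1 - e)‖ := by
      intro h
      rw [cut, norm_smul, norm_inv, Real.norm_of_nonneg (hc.1 h).le]
    set X := ‖cut (hatHom D.Γ) (1 - e) c g⁻¹‖ with hXdef
    set Y := ‖cut (hatHom D.Γ) (1 - e) c g‖ with hYdef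
    have hX : A₀⁻¹ ≤ X := (hcut g⁻¹).1
    have hYX : Y ≤ A₀ * X ^ m := by
      have := (hcut g⁻¹).2
      rwa [inv_inv] at this
    have hXs : X ≤ A₁ * ‖(1 - e : Alg E)‖ * (c g * ξ (hatHom D.Γ g⁻¹ (x, 1))) := by
      rw [hXdef, hnc, hcg', inv_inv]
      have h1 := hT (hatHom D.Γ g⁻¹) (hinv g⁻¹)
      have h2 := norm_mul_le ((1 - e) * hatHom D.Γ g⁻¹) (1 - e)
      have h3 := mul_le_mul_of_nonneg_right h1 (norm_nonneg (1 - e : Alg E))
      calc c g * ‖(1 - e) * hatHom D.Γ g⁻¹ * (1 - e)‖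
          ≤ c g * (A₁ * ξ (hatHom D.Γ g⁻¹ (x, 1)) * ‖(1 - e : Alg E)‖) :=
            mul_le_mul_of_nonneg_left (h2.trans h3) hcg.le
        _ = _ := by ring
    obtain ⟨g1, g2⟩ := growth_aux hA₀ hA₂ hX hXs hYX
    have hXY : ‖(1 - e) * hatHom D.Γ g * (1 - e)‖ * ‖(1 - e) * hatHom D.Γ g⁻¹ * (1 - e)‖ =
        X * Y := by
      rw [hXdef, hYdef, hnc, hnc, hcg', inv_inv]
      field_simp
    refine ⟨g1, ?_, ?_⟩
    · refine le_trans ?_ g2
      rw [← hXY]
      exact le_mul_of_one_le_right (norm_nonneg _) (hht g⁻¹)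
    · refine le_trans ?_ g2
      rw [← hXY]
      exact le_mul_of_one_le_left (norm_nonneg _) (hht g)

end

end Pool.AF
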