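import Pool.Agent.Helper94.AF.Defs

open Set Finset

set_option linter.unusedSectionVars false

namespace Pool.AF

open Pool.SV

/-! ## AF-8 EQUI: equivariant maps into convex sets (partition of unity) -/

private theorem fin_of_compact {E : Type*} [NormedAddCommGroup E] [NormedSpace ℝ E]
    (D : Geo E) (K : Set E) (hK : K ⊆ D.X) (hc : IsCompact K) :
    {g : D.Γ | ∃ x ∈ K, (g⁻¹).1 x ∈ K}.Finite := by
  have h := D.pd K hK hc
  refine (h.preimage (f := fun g : D.Γ => (g⁻¹).1)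
    (fun a _ b _ hab => inv_injective (Subtype.ext hab))).subset ?_
  rintro g ⟨x, hx, hgx⟩
  exact ⟨(g⁻¹).2, x, hx, hgx⟩

private theorem exists_bump {E : Type*} [NormedAddCommGroup E] [NormedSpace ℝ E]
    [FiniteDimensional ℝ E] (X K : Set E) (hX : IsOpen X) (hKX : K ⊆ X) (hK : IsCompact K) :
    ∃ χ : E → ℝ, tsupport χ ⊆ X ∧ IsCompact (tsupport χ) ∧ ContDiff ℝ 2 χ ∧ (∀ x, 0 ≤ χ x) ∧
      ∀ x ∈ K, 0 < χ x := by
  classical
  have h1 : ∀ x : E, x ∈ K → ∃ f : E → ℝ, tsupport f ⊆ X ∧ HasCompactSupport f ∧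
      ContDiff ℝ ((2 : ℕ∞) : WithTop ℕ∞) f ∧ range f ⊆ Icc 0 1 ∧ f x = 1 := fun x hx =>
    exists_contDiff_tsupport_subset (n := 2) (hX.mem_nhds (hKX hx))
  choose! f hf1 hf2 hf3 hf4 hf5 using h1
  obtain ⟨t, ht, hcov⟩ := hK.elim_nhds_subcover (fun x => {y | 0 < f x y}) (by
    intro x hx
    have hopen : IsOpen {y | 0 < f x y} := isOpen_lt continuous_const (hf3 x hx).continuous
    apply hopen.mem_nhds
    show 0 < f x x
    rw [hf5 x hx]; exact one_pos)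
  have hpos : ∀ x ∈ K, ∀ y, 0 ≤ f x y := fun x hx y => (hf4 x hx ⟨y, rfl⟩).1
  have hsupp : tsupport (fun y => ∑ x ∈ t, f x y) ⊆ ⋃ x ∈ t, tsupport (f x) := by
    apply closure_minimal
    · intro y hy
      have hy' : ∑ x ∈ t, f x y ≠ 0 := hy
      obtain ⟨x, hx, hxy⟩ := Finset.exists_ne_zero_of_sum_ne_zero hy'
      exact mem_biUnion hx (subset_tsupport _ hxy)
    · exact Set.Finite.isClosed_biUnion (Finset.finite_toSet t) fun x _ => isClosed_tsupport _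
  refine ⟨fun y => ∑ x ∈ t, f x y, ?_, ?_, ?_, ?_, ?_⟩
  · refine hsupp.trans ?_
    exact iUnion₂_subset fun x hx => hf1 x (ht x hx)
  · refine IsCompact.of_isClosed_subset (s := ⋃ x ∈ t, tsupport (f x)) ?_ (isClosed_tsupport _)
      hsupp
    exact t.isCompact_biUnion fun x hx => hf2 x (ht x hx)
  · exact ContDiff.sum fun x hx => hf3 x (ht x hx)
  · exact fun y => Finset.sum_nonneg fun x hx => hpos x (ht x hx) y
  · intro y hy
    have := hcov hy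
    rw [mem_iUnion₂] at this
    obtain ⟨x, hx, hxy⟩ := this
    exact Finset.sum_pos' (fun x hx => hpos x (ht x hx) y) ⟨x, hx, hxy⟩

private theorem contDiff_aff {E : Type*} [NormedAddCommGroup E] [NormedSpace ℝ E]
    [FiniteDimensional ℝ E] (g : E ≃ᵃ[ℝ] E) : ContDiff ℝ 2 (fun x => g x) := by
  have h1 : (fun x => g x) = fun x => (g.linear : E →ₗ[ℝ] E).toContinuousLinearMap x + g 0 := by
    funext x
    have := aff_eq g x
    simpa using this
  rw [h1]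
  exact (ContinuousLinearMap.contDiff _).add contDiff_const

theorem exists_equi {E : Type*} [NormedAddCommGroup E] [NormedSpace ℝ E] [FiniteDimensional ℝ E]
    (D : Geo E) (hcc : ∃ K ⊆ D.X, IsCompact K ∧ ∀ x ∈ D.X, ∃ g ∈ D.Γ, g x ∈ K)
    {F : Type*} [NormedAddCommGroup F] [NormedSpace ℝ F] [FiniteDimensional ℝ F]
    (ρ : D.Γ →* (F →ₗ[ℝ] F)) (C : Set F) (hC : Convex ℝ C) (hne : C.Nonempty)
    (hinv : ∀ g, ∀ v ∈ C, ρ g v ∈ C) :
    ∃ v : E → F, ContDiffOn ℝ 2 v D.X ∧ (∀ x ∈ D.X, v x ∈ C) ∧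
      ∀ g : D.Γ, ∀ x ∈ D.X, v (g.1 x) = ρ g (v x) := by
  classical
  obtain ⟨K, hKX, hK, hcov⟩ := hcc
  obtain ⟨χ, hχ1, hχ2, hχ3, hχ4, hχ5⟩ := exists_bump D.X K D.isOpen hKX hK
  obtain ⟨v0, hv0⟩ := hne
  -- local finiteness
  have hloc : ∀ x0 ∈ D.X, ∃ B : Set E, B ∈ nhds x0 ∧ ∃ T : Finset D.Γ, ∀ x ∈ B, ∀ g : D.Γ,
      χ ((g⁻¹).1 x) ≠ 0 → g ∈ T := by
    intro x0 hx0
    obtain ⟨B, hB, hx0B, hBX⟩ := exists_compact_subset D.isOpen hx0
    have hfin := fin_of_compact D (B ∪ tsupport χ) (union_subset hBX hχ1) (hB.union hχ2)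
    refine ⟨B, mem_interior_iff_mem_nhds.1 hx0B, hfin.toFinset, ?_⟩
    intro x hx g hg
    rw [Set.Finite.mem_toFinset]
    exact ⟨x, Or.inl hx, Or.inr (subset_tsupport _ hg)⟩
  set Z : E → ℝ := fun x => ∑ᶠ g : D.Γ, χ ((g⁻¹).1 x) with hZ
  set V : E → F := fun x => ∑ᶠ g : D.Γ, χ ((g⁻¹).1 x) • ρ g v0 with hV
  have hZs : ∀ x : E, ∀ T : Finset D.Γ, (∀ g : D.Γ, χ ((g⁻¹).1 x) ≠ 0 → g ∈ T) →
      Z x = ∑ g ∈ T, χ ((g⁻¹).1 x) := by
    intro x T hT
    exact finsum_eq_sum_of_support_subset _ (fun g hg => hT g hg)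
  have hVs : ∀ x : E, ∀ T : Finset D.Γ, (∀ g : D.Γ, χ ((g⁻¹).1 x) ≠ 0 → g ∈ T) →
      V x = ∑ g ∈ T, χ ((g⁻¹).1 x) • ρ g v0 := by
    intro x T hT
    refine finsum_eq_sum_of_support_subset _ (fun g hg => hT g ?_)
    intro h0
    apply hg
    show χ ((g⁻¹).1 x) • ρ g v0 = 0
    rw [h0, zero_smul]
  have hZpos : ∀ x ∈ D.X, 0 < Z x := by
    intro x hx
    obtain ⟨B, hB, T, hT⟩ := hloc x hx
    rw [hZs x T (hT x (mem_of_mem_nhds hB))]
    obtain ⟨g, hg, hgx⟩ := hcov x hx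
    have hp := hχ5 _ hgx
    set g' : D.Γ := ⟨g, hg⟩⁻¹ with hg'
    have h2 : χ ((g'⁻¹).1 x) = χ (g x) := by rw [hg', inv_inv]
    refine Finset.sum_pos' (fun g _ => hχ4 _) ⟨g', hT x (mem_of_mem_nhds hB) g' ?_, ?_⟩
    · rw [h2]; exact hp.ne'
    · rw [h2]; exact hp
  refine ⟨fun x => (Z x)⁻¹ • V x, ?_, ?_, ?_⟩
  · intro x0 hx0
    apply ContDiffAt.contDiffWithinAt
    obtain ⟨B, hB, T, hT⟩ := hloc x0 hx0
    have he : (fun x => (Z x)⁻¹ • V x) =ᶠ[nhds x0]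
        fun x => (∑ g ∈ T, χ ((g⁻¹).1 x))⁻¹ • ∑ g ∈ T, χ ((g⁻¹).1 x) • ρ g v0 := by
      filter_upwards [hB] with x hx
      rw [hZs x T (hT x hx), hVs x T (hT x hx)]
    have hcd : ∀ g : D.Γ, ContDiff ℝ 2 (fun x => χ ((g⁻¹).1 x)) := fun g =>
      hχ3.comp (contDiff_aff _)
    refine ContDiffAt.congr_of_eventuallyEq ?_ he
    refine ContDiffAt.smul ?_ ?_
    · refine ContDiffAt.inv ?_ ?_
      · exact ContDiffAt.sum fun g _ => (hcd g).contDiffAt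
      · rw [← hZs x0 T (hT x0 (mem_of_mem_nhds hB))]
        exact (hZpos x0 hx0).ne'
    · exact ContDiffAt.sum fun g _ => ((hcd g).contDiffAt).smul contDiffAt_const
  · intro x hx
    obtain ⟨B, hB, T, hT⟩ := hloc x hx
    have hTx := hT x (mem_of_mem_nhds hB)
    have hz := hZpos x hx
    show (Z x)⁻¹ • V x ∈ C
    rw [hVs x T hTx, Finset.smul_sum]
    simp only [smul_smul]
    refine hC.sum_mem (fun g _ => mul_nonneg (inv_nonneg.2 hz.le) (hχ4 _)) ?_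
      (fun g _ => hinv g v0 hv0)
    rw [← Finset.mul_sum, ← hZs x T hTx, inv_mul_cancel₀ hz.ne']
  · intro h x hx
    obtain ⟨B, hB, T, hT⟩ := hloc x hx
    have hTx := hT x (mem_of_mem_nhds hB)
    have hact : ∀ g : D.Γ, (g⁻¹).1 (h.1 x) = ((Equiv.mulLeft h⁻¹ g)⁻¹).1 x := by
      intro g
      rw [Equiv.coe_mulLeft, mul_inv_rev, inv_inv]
      rfl
    have hZh : Z (h.1 x) = Z x := by
      simp only [hZ, hact]
      exact finsum_comp_equiv (Equiv.mulLeft h⁻¹) (f := fun g : D.Γ => χ ((g⁻¹).1 x))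
    have hVh : V (h.1 x) = ρ h (V x) := by
      have hfs : (Function.support fun g : D.Γ => χ ((g⁻¹).1 x) • ρ g v0).Finite := by
        refine (Finset.finite_toSet T).subset fun g hg => hTx g ?_
        intro h0
        apply hg
        show χ ((g⁻¹).1 x) • ρ g v0 = 0
        rw [h0, zero_smul]
      have e1 : V (h.1 x) = ∑ᶠ g : D.Γ, ρ h (χ (((Equiv.mulLeft h⁻¹ g)⁻¹).1 x) •
          ρ (Equiv.mulLeft h⁻¹ g) v0) := by
        simp only [hV]
        refine finsum_congr fun g => ?_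
        rw [hact, map_smul]
        congr 1
        have e2 : g = h * (Equiv.mulLeft h⁻¹ g) := by
          rw [Equiv.coe_mulLeft, mul_inv_cancel_left]
        conv_lhs => rw [e2]
        rw [map_mul]
        rfl
      rw [e1, finsum_comp_equiv (Equiv.mulLeft h⁻¹)
        (f := fun g : D.Γ => ρ h (χ ((g⁻¹).1 x) • ρ g v0))]
      simp only [hV]
      rw [← map_finsum (ρ h) hfs]
    show (Z (h.1 x))⁻¹ • V (h.1 x) = ρ h ((Z x)⁻¹ • V x)
    rw [hZh, hVh, map_smul]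

end Pool.AF
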