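import Pool.Agent.Helper94.AF.KernT

open Set Finset

set_option linter.unusedSectionVars false

namespace Pool.AF

open Pool.SV

/-! ## AF-7 FAM: from families of kernels to good partitions (uses AF-5, AF-6): take
`P x = (1/L) ∑_{l < L} PP N (a l x)` and `P' x = (1/L) ∑_{l < L} dP N (a l x) (a' l x · )` -/

/-- Averages: if every term is bounded in `ℓ¹` by `B l`, so is the average. -/
theorem avg_bound {G : Type*} (S : Finset G) (L : ℕ) (f : ℕ → G → ℝ) (B : ℕ → ℝ)
    (h : ∀ l < L, ∑ γ ∈ S, |f l γ| ≤ B l) :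
    ∑ γ ∈ S, |((L : ℝ)⁻¹) * ∑ l ∈ Finset.range L, f l γ| ≤
      (L : ℝ)⁻¹ * ∑ l ∈ Finset.range L, B l := by
  have hL : (0 : ℝ) ≤ (L : ℝ)⁻¹ := by positivity
  calc ∑ γ ∈ S, |((L : ℝ)⁻¹) * ∑ l ∈ Finset.range L, f l γ|
      ≤ ∑ γ ∈ S, ((L : ℝ)⁻¹) * ∑ l ∈ Finset.range L, |f l γ| := by
        refine Finset.sum_le_sum fun γ _ => ?_
        rw [abs_mul, abs_of_nonneg hL]
        exact mul_le_mul_of_nonneg_left (Finset.abs_sum_le_sum_abs _ _) hL
    _ = (L : ℝ)⁻¹ * ∑ l ∈ Finset.range L, ∑ γ ∈ S, |f l γ| := by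
        rw [← Finset.mul_sum, Finset.sum_comm]
    _ ≤ (L : ℝ)⁻¹ * ∑ l ∈ Finset.range L, B l := by
        refine mul_le_mul_of_nonneg_left (Finset.sum_le_sum fun l hl => ?_) hL
        exact h l (Finset.mem_range.1 hl)

theorem avg_const (L : ℕ) (hL : 0 < L) (B : ℝ) :
    (L : ℝ)⁻¹ * ∑ _l ∈ Finset.range L, B = B := by
  have h : (L : ℝ) ≠ 0 := by exact_mod_cast hL.ne'
  rw [Finset.sum_const, Finset.card_range, nsmul_eq_mul]
  field_simp

theorem sum_abs_PP {ι G : Type*} [Fintype ι] [Nonempty G] (N : ℕ) (a : ι → G → ℝ)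
    (ha : ∀ i g, 0 < a i g) (hs : Summable (kern N a)) (S : Finset G) :
    ∑ g ∈ S, |PP N a g| ≤ 1 := by
  have h1 : ∑ g ∈ S, |PP N a g| = ∑ g ∈ S, PP N a g :=
    Finset.sum_congr rfl fun g _ => abs_of_nonneg (PP_nonneg N a ha g)
  rw [h1]
  exact sum_le_hasSum S (fun g _ => PP_nonneg N a ha g) (hasSum_PP N a ha hs)

/-- The bound in the direction of the scaling. -/
theorem dir_bound {ι G : Type*} [Fintype ι] [Nonempty G] (N : ℕ) (CT : ℝ) (hCT : 0 ≤ CT)
    (hT : ∀ (a b : ι → G → ℝ) (s : ℝ), 0 ≤ s → (∀ i g, 0 < a i g) →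
      (∀ i g, 0 < a i g + b i g) → (∀ i g, |b i g| ≤ s * a i g) → Summable (kern N a) →
      Summable (kern N (fun i g => a i g + b i g)) → ∀ S : Finset G,
      ∑ g ∈ S, |PP N (fun i g => a i g + b i g) g - PP N a g - dP N a b g| ≤ CT * s ^ 2)
    (C δ : ℝ) (hC : 0 ≤ C) (hδ : 0 < δ) (L : ℕ) (hL : 1 ≤ δ ^ 2 * (L : ℝ))
    (a : ℕ → ι → G → ℝ) (ha : ∀ l i g, 0 < a l i g) (hs : ∀ l, Summable (kern N (a l)))
    (y : ℕ → ι → G → ℝ) (μ : ℝ) (hμ : |μ| ≤ C)
    (hy : ∀ l < L, ∀ i g, a (l + 1) i g = a l i g + δ * y l i g ∧ |y l i g| ≤ a l i g)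
    (S : Finset G) :
    ∑ γ ∈ S, |((L : ℝ)⁻¹) * ∑ l ∈ Finset.range L, μ * dP N (a l) (y l) γ| ≤
      C * (2 + CT) * δ := by
  have hL0 : (0 : ℝ) < (L : ℝ) := by
    by_contra hcon
    have : (L : ℝ) = 0 := le_antisymm (not_lt.1 hcon) (Nat.cast_nonneg L)
    rw [this] at hL
    norm_num at hL
  -- remainder
  set R : ℕ → G → ℝ := fun l γ => PP N (a (l + 1)) γ - PP N (a l) γ - δ * dP N (a l) (y l) γ
    with hR
  have hRb : ∀ l < L, ∑ γ ∈ S, |R l γ| ≤ CT * δ ^ 2 := by
    intro l hl
    have e1 : (fun i g => a l i g + δ * y l i g) = a (l + 1) := by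
      funext i g
      exact ((hy l hl i g).1).symm
    have h1 := hT (a l) (fun i g => δ * y l i g) δ hδ.le (ha l)
      (fun i g => by
        rw [← (hy l hl i g).1]
        exact ha (l + 1) i g)
      (fun i g => by
        rw [abs_mul, abs_of_pos hδ]
        exact mul_le_mul_of_nonneg_left (hy l hl i g).2 hδ.le)
      (hs l) (by
        rw [e1]
        exact hs (l + 1)) S
    rw [e1] at h1
    simp only [dP_smul] at h1
    exact h1
  have htel : ∀ γ, ∑ l ∈ Finset.range L, dP N (a l) (y l) γ =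
      δ⁻¹ * (PP N (a L) γ - PP N (a 0) γ - ∑ l ∈ Finset.range L, R l γ) := by
    intro γ
    have h2 : ∑ l ∈ Finset.range L, R l γ = (PP N (a L) γ - PP N (a 0) γ) -
        δ * ∑ l ∈ Finset.range L, dP N (a l) (y l) γ := by
      simp only [hR]
      rw [Finset.sum_sub_distrib, Finset.sum_range_sub (fun l => PP N (a l) γ),
        Finset.mul_sum]
    rw [h2]
    field_simp
    ring
  have hbound : ∑ γ ∈ S, |∑ l ∈ Finset.range L, dP N (a l) (y l) γ| ≤
      δ⁻¹ * (2 + (L : ℝ) * (CT * δ ^ 2)) := by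
    have hδi : 0 ≤ δ⁻¹ := by positivity
    calc ∑ γ ∈ S, |∑ l ∈ Finset.range L, dP N (a l) (y l) γ|
        ≤ ∑ γ ∈ S, δ⁻¹ * (|PP N (a L) γ| + |PP N (a 0) γ| +
            ∑ l ∈ Finset.range L, |R l γ|) := by
          refine Finset.sum_le_sum fun γ _ => ?_
          rw [htel γ, abs_mul, abs_of_nonneg hδi]
          refine mul_le_mul_of_nonneg_left ?_ hδi
          have h3 : |∑ l ∈ Finset.range L, R l γ| ≤ ∑ l ∈ Finset.range L, |R l γ| :=
            Finset.abs_sum_le_sum_abs _ _
          have h4 := abs_sub (PP N (a L) γ - PP N (a 0) γ) (∑ l ∈ Finset.range L, R l γ)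
          have h5 := abs_sub (PP N (a L) γ) (PP N (a 0) γ)
          linarith
      _ = δ⁻¹ * (∑ γ ∈ S, |PP N (a L) γ| + ∑ γ ∈ S, |PP N (a 0) γ| +
            ∑ l ∈ Finset.range L, ∑ γ ∈ S, |R l γ|) := by
          rw [← Finset.mul_sum, Finset.sum_add_distrib, Finset.sum_add_distrib,
            Finset.sum_comm (s := S) (t := Finset.range L)]
      _ ≤ δ⁻¹ * (1 + 1 + ∑ l ∈ Finset.range L, CT * δ ^ 2) := by
          refine mul_le_mul_of_nonneg_left ?_ hδi
          refine add_le_add (add_le_add ?_ ?_) ?_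
          · exact sum_abs_PP N (a L) (ha L) (hs L) S
          · exact sum_abs_PP N (a 0) (ha 0) (hs 0) S
          · exact Finset.sum_le_sum fun l hl => hRb l (Finset.mem_range.1 hl)
      _ = δ⁻¹ * (2 + (L : ℝ) * (CT * δ ^ 2)) := by
          rw [Finset.sum_const, Finset.card_range, nsmul_eq_mul]
          norm_num
  have hLi : 0 ≤ (L : ℝ)⁻¹ := by positivity
  calc ∑ γ ∈ S, |((L : ℝ)⁻¹) * ∑ l ∈ Finset.range L, μ * dP N (a l) (y l) γ|
      = (L : ℝ)⁻¹ * |μ| * ∑ γ ∈ S, |∑ l ∈ Finset.range L, dP N (a l) (y l) γ| := by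
        rw [Finset.mul_sum]
        refine Finset.sum_congr rfl fun γ _ => ?_
        rw [← Finset.mul_sum, abs_mul, abs_mul, abs_of_nonneg hLi, mul_assoc]
    _ ≤ (L : ℝ)⁻¹ * C * (δ⁻¹ * (2 + (L : ℝ) * (CT * δ ^ 2))) := by
        refine mul_le_mul (mul_le_mul_of_nonneg_left hμ hLi) hbound ?_ ?_
        · exact Finset.sum_nonneg fun _ _ => abs_nonneg _
        · positivity
    _ = C * (2 * ((L : ℝ)⁻¹ * δ⁻¹) + CT * δ) := by
        field_simp
    _ ≤ C * (2 * δ + CT * δ) := by
        refine mul_le_mul_of_nonneg_left ?_ hC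
        have h6 : (L : ℝ)⁻¹ * δ⁻¹ ≤ δ := by
          rw [← mul_inv, inv_le_comm₀ (by positivity) hδ]
          rw [inv_le_iff_one_le_mul₀ hδ]
          nlinarith
        linarith
    _ = C * (2 + CT) * δ := by ring

theorem goodPart_of_family {E : Type*} [NormedAddCommGroup E] [NormedSpace ℝ E] (D : Geo E)
    (K : Set E) (hKX : K ⊆ D.X) (ι : Type) [Fintype ι] (N : ℕ) (C : ℝ) (hC : 0 ≤ C)
    (h : ∀ δ : ℝ, 0 < δ → δ ≤ 1 → FamHyp D K ι N C δ) :
    ∃ C₀ : ℝ, ∀ ε : ℝ, 0 < ε → GoodPart D K C₀ ε := by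
  classical
  obtain ⟨CT, hCT, hTay⟩ := PP_taylor ι N
  have hTay' := hTay D.Γ
  set M : ℝ := 2 * N * Fintype.card ι with hM
  have hM0 : 0 ≤ M := by positivity
  refine ⟨M * C, fun ε hε => ?_⟩
  set Q : ℝ := M * C + C * (2 + CT) with hQ
  have hQ0 : 0 ≤ Q := by positivity
  set δ : ℝ := min 1 (ε / (Q + 1)) with hδdef
  have hδ : 0 < δ := lt_min one_pos (by positivity)
  have hδ1 : δ ≤ 1 := min_le_left _ _
  have hδε : Q * δ ≤ ε := by
    have h1 : δ ≤ ε / (Q + 1) := min_le_right _ _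
    have h2 : δ * (Q + 1) ≤ ε := by rwa [le_div_iff₀ (by positivity)] at h1
    nlinarith
  obtain ⟨L, a, a', C', hL, hpos, heq, hbd, htay, hdir⟩ := h δ hδ hδ1
  have hL0r : (0 : ℝ) < (L : ℝ) := by
    by_contra hcon
    have : (L : ℝ) = 0 := le_antisymm (not_lt.1 hcon) (Nat.cast_nonneg L)
    rw [this] at hL
    norm_num at hL
  have hL0 : 0 < L := by exact_mod_cast hL0r
  have hLi : 0 ≤ (L : ℝ)⁻¹ := by positivity
  -- the derivative
  have hadd : ∀ x ∈ K, ∀ γ : D.Γ, ∀ l < L, ∀ u v : E,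
      dP N (a l x) (fun i g => a' l x i g (u + v)) γ =
        dP N (a l x) (fun i g => a' l x i g u) γ + dP N (a l x) (fun i g => a' l x i g v) γ := by
    intro x hx γ l hl u v
    have := dP_add N (a l x) (fun i g => a' l x i g u) (fun i g => a' l x i g v) (C * ‖u‖)
      (C * ‖v‖) (hpos l x (hKX hx)).1 (hpos l x (hKX hx)).2 (hbd l hl x hx u)
      (hbd l hl x hx v) γ
    rw [← this]
    congr 1
    funext i g
    exact map_add _ _ _
  have hsmul : ∀ x ∈ K, ∀ γ : D.Γ, ∀ l < L, ∀ (t : ℝ) (u : E),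
      dP N (a l x) (fun i g => a' l x i g (t • u)) γ =
        t * dP N (a l x) (fun i g => a' l x i g u) γ := by
    intro x hx γ l hl t u
    have := dP_smul N (a l x) (fun i g => a' l x i g u) t γ
    rw [← this]
    congr 1
    funext i g
    simp
  let P : E → D.Γ → ℝ := fun x γ => (L : ℝ)⁻¹ * ∑ l ∈ Finset.range L, PP N (a l x) γ
  let P' : E → D.Γ → (E →ₗ[ℝ] ℝ) := fun x γ =>
    if hx : x ∈ K then
      { toFun := fun u =>
          (L : ℝ)⁻¹ * ∑ l ∈ Finset.range L, dP N (a l x) (fun i g => a' l x i g u) γ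
        map_add' := by
          intro u v
          rw [← mul_add, ← Finset.sum_add_distrib]
          congr 1
          exact Finset.sum_congr rfl fun l hl => hadd x hx γ l (Finset.mem_range.1 hl) u v
        map_smul' := by
          intro t u
          rw [RingHom.id_apply, smul_eq_mul, mul_left_comm]
          congr 1
          rw [Finset.mul_sum]
          exact Finset.sum_congr rfl fun l hl => hsmul x hx γ l (Finset.mem_range.1 hl) t u }
    else 0
  have hP' : ∀ x ∈ K, ∀ γ u, P' x γ u =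
      (L : ℝ)⁻¹ * ∑ l ∈ Finset.range L, dP N (a l x) (fun i g => a' l x i g u) γ := by
    intro x hx γ u
    simp only [P', dif_pos hx]
    rfl
  refine ⟨P, P', CT * (|C'|) ^ 2 + M * |C'|, ?_, ?_, ?_, ?_, ?_⟩
  · intro x hx
    refine ⟨fun γ => ?_, ?_⟩
    · exact mul_nonneg hLi (Finset.sum_nonneg fun l _ => PP_nonneg N _ (hpos l x hx).1 γ)
    · have h1 : HasSum (fun γ => ∑ l ∈ Finset.range L, PP N (a l x) γ)
          (∑ _l ∈ Finset.range L, (1 : ℝ)) :=
        hasSum_sum fun l _ => hasSum_PP N (a l x) (hpos l x hx).1 (hpos l x hx).2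
      have h2 := h1.mul_left ((L : ℝ)⁻¹)
      rwa [avg_const L hL0 1] at h2
  · intro g x hx γ
    simp only [P]
    congr 1
    refine Finset.sum_congr rfl fun l _ => ?_
    choose c hc0 hc using fun i => heq l g x hx i
    exact PP_equiv N (a l x) (a l (g.1 x)) g c hc0 (fun i g' => hc i g') γ
  · intro x hx S u
    simp only [hP' x hx]
    refine (avg_bound S L _ (fun _ => M * (C * ‖u‖)) fun l hl => ?_).trans ?_
    · exact dP_bound N (a l x) _ (C * ‖u‖) (hpos l x (hKX hx)).1 (hpos l x (hKX hx)).2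
        (hbd l hl x hx u) S
    · rw [avg_const L hL0]
      exact le_of_eq (by ring)
  · intro x hx
    obtain ⟨u, hu1, lam, μ, y, w, s, hμ, hl, hs⟩ := hdir x hx
    refine ⟨u, hu1, fun S => ?_⟩
    simp only [hP' x hx]
    have hpx := fun l => (hpos l x (hKX hx)).1
    have hsx := fun l => (hpos l x (hKX hx)).2
    have hsplit : ∀ l < L, ∀ γ, dP N (a l x) (fun i g => a' l x i g u) γ =
        dP N (a l x) (w l) γ + μ * dP N (a l x) (y l) γ := by
      intro l hlL γ
      obtain ⟨hs0, hall⟩ := hl l hlL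
      have e1 : (fun i g => a' l x i g u) =
          fun i g => (fun i g => lam i * a l x i g) i g +
            (fun i g => w l i g + (fun i g => μ * y l i g) i g) i g := by
        funext i g
        rw [(hall i g).1]
        simp only
        ring
      have hΛ : ∀ i g, |lam i * a l x i g| ≤ (∑ j, |lam j|) * a l x i g := by
        intro i g
        rw [abs_mul, abs_of_pos (hpx l i g)]
        refine mul_le_mul_of_nonneg_right ?_ (hpx l i g).le
        exact Finset.single_le_sum (f := fun j => |lam j|) (fun j _ => abs_nonneg _)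
          (Finset.mem_univ i)
      have hw : ∀ i g, |w l i g| ≤ s l * a l x i g := fun i g => (hall i g).2.2.2
      have hyy : ∀ i g, |μ * y l i g| ≤ |μ| * a l x i g := by
        intro i g
        rw [abs_mul]
        exact mul_le_mul_of_nonneg_left (hall i g).2.2.1 (abs_nonneg _)
      have hwy : ∀ i g, |w l i g + μ * y l i g| ≤ (s l + |μ|) * a l x i g := by
        intro i g
        refine (abs_add_le _ _).trans ?_
        rw [add_mul]
        exact add_le_add (hw i g) (hyy i g)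
      rw [e1, dP_add N (a l x) _ _ (∑ j, |lam j|) (s l + |μ|) (hpx l) (hsx l) hΛ hwy γ,
        dP_scale N (a l x) lam (hpx l) (hsx l) γ, zero_add,
        dP_add N (a l x) _ _ (s l) (|μ|) (hpx l) (hsx l) hw hyy γ, dP_smul]
    have hA : ∑ γ ∈ S, |((L : ℝ)⁻¹) * ∑ l ∈ Finset.range L, dP N (a l x) (w l) γ| ≤
        M * C * δ := by
      refine (avg_bound S L _ (fun l => M * s l) fun l hlL => ?_).trans ?_
      · exact dP_bound N (a l x) _ (s l) (hpx l) (hsx l)
          (fun i g => ((hl l hlL).2 i g).2.2.2) S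
      · rw [← Finset.mul_sum]
        calc (L : ℝ)⁻¹ * (M * ∑ l ∈ Finset.range L, s l)
            ≤ (L : ℝ)⁻¹ * (M * (C * δ * (L : ℝ))) :=
              mul_le_mul_of_nonneg_left (mul_le_mul_of_nonneg_left hs hM0) hLi
          _ = M * C * δ := by field_simp
    have hB := dir_bound N CT hCT hTay' C δ hC hδ L hL (fun l => a l x) hpx hsx y μ hμ
      (fun l hlL i g => ⟨((hl l hlL).2 i g).2.1, ((hl l hlL).2 i g).2.2.1⟩) S
    calc ∑ γ ∈ S, |((L : ℝ)⁻¹) * ∑ l ∈ Finset.range L,
          dP N (a l x) (fun i g => a' l x i g u) γ|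
        ≤ ∑ γ ∈ S, (|((L : ℝ)⁻¹) * ∑ l ∈ Finset.range L, dP N (a l x) (w l) γ| +
            |((L : ℝ)⁻¹) * ∑ l ∈ Finset.range L, μ * dP N (a l x) (y l) γ|) := by
          refine Finset.sum_le_sum fun γ _ => ?_
          rw [Finset.sum_congr rfl fun l hlL => hsplit l (Finset.mem_range.1 hlL) γ,
            Finset.sum_add_distrib, mul_add]
          exact abs_add_le _ _
      _ ≤ M * C * δ + C * (2 + CT) * δ := by
          rw [Finset.sum_add_distrib]
          exact add_le_add hA hB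
      _ = Q * δ := by rw [hQ]; ring
      _ ≤ ε := hδε
  · intro x hx y hy S
    simp only [hP' x hx]
    have hpx := fun l => (hpos l x (hKX hx)).1
    have hsx := fun l => (hpos l x (hKX hx)).2
    have e1 : ∀ γ, P y γ - P x γ - (L : ℝ)⁻¹ * ∑ l ∈ Finset.range L,
        dP N (a l x) (fun i g => a' l x i g (y - x)) γ =
        (L : ℝ)⁻¹ * ∑ l ∈ Finset.range L, (PP N (a l y) γ - PP N (a l x) γ -
          dP N (a l x) (fun i g => a' l x i g (y - x)) γ) := by
      intro γ
      simp only [P]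
      rw [← mul_sub, ← mul_sub, Finset.sum_sub_distrib, Finset.sum_sub_distrib]
    rw [Finset.sum_congr rfl fun γ _ => by rw [e1 γ]]
    refine (avg_bound S L _ (fun _ => CT * (|C'| * ‖y - x‖) ^ 2 +
      M * (|C'| * ‖y - x‖ ^ 2)) fun l hlL => ?_).trans ?_
    · have hn : 0 ≤ ‖y - x‖ := norm_nonneg _
      have hb1 : ∀ i g, |a l y i g - a l x i g| ≤ |C'| * ‖y - x‖ * a l x i g := by
        intro i g
        refine (htay l hlL x hx y hy i g).1.trans ?_
        refine mul_le_mul_of_nonneg_right ?_ (hpx l i g).le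
        exact mul_le_mul_of_nonneg_right (le_abs_self _) hn
      have hb2 : ∀ i g, |a l y i g - a l x i g - a' l x i g (y - x)| ≤
          |C'| * ‖y - x‖ ^ 2 * a l x i g := by
        intro i g
        refine (htay l hlL x hx y hy i g).2.trans ?_
        refine mul_le_mul_of_nonneg_right ?_ (hpx l i g).le
        exact mul_le_mul_of_nonneg_right (le_abs_self _) (by positivity)
      have e2 : (fun i g => a l x i g + (fun i g => a l y i g - a l x i g) i g) = a l y := by
        funext i g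
        simp
      have hT := hTay' (a l x) (fun i g => a l y i g - a l x i g) (|C'| * ‖y - x‖)
        (by positivity) (hpx l)
        (fun i g => by
          have := (hpos l y (hKX hy)).1 i g
          simpa using this) hb1 (hsx l)
        (by
          have := (hpos l y (hKX hy)).2
          simpa using this) S
      have e3 : ∀ γ, dP N (a l x) (fun i g => a l y i g - a l x i g) γ =
          dP N (a l x) (fun i g => a' l x i g (y - x)) γ +
          dP N (a l x) (fun i g => a l y i g - a l x i g - a' l x i g (y - x)) γ := by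
        intro γ
        rw [← dP_add N (a l x) _ _ (C * ‖y - x‖) (|C'| * ‖y - x‖ ^ 2) (hpx l) (hsx l)
          (hbd l hlL x hx (y - x)) hb2 γ]
        congr 1
        funext i g
        simp
      have hD := dP_bound N (a l x)
        (fun i g => a l y i g - a l x i g - a' l x i g (y - x)) (|C'| * ‖y - x‖ ^ 2)
        (hpx l) (hsx l) hb2 S
      have e4 : ∀ γ, PP N (a l y) γ - PP N (a l x) γ -
          dP N (a l x) (fun i g => a' l x i g (y - x)) γ =
          (PP N (fun i g => a l x i g + (a l y i g - a l x i g)) γ - PP N (a l x) γ -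
            dP N (a l x) (fun i g => a l y i g - a l x i g) γ) +
          dP N (a l x) (fun i g => a l y i g - a l x i g - a' l x i g (y - x)) γ := by
        intro γ
        have e5 : (fun i g => a l x i g + (a l y i g - a l x i g)) = a l y := e2
        rw [e5, e3 γ]
        ring
      calc ∑ γ ∈ S, |PP N (a l y) γ - PP N (a l x) γ -
            dP N (a l x) (fun i g => a' l x i g (y - x)) γ|
          ≤ ∑ γ ∈ S, (|PP N (fun i g => a l x i g + (a l y i g - a l x i g)) γ -
              PP N (a l x) γ - dP N (a l x) (fun i g => a l y i g - a l x i g) γ| +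
            |dP N (a l x) (fun i g => a l y i g - a l x i g - a' l x i g (y - x)) γ|) := by
            refine Finset.sum_le_sum fun γ _ => ?_
            rw [e4 γ]
            exact abs_add_le _ _
        _ ≤ CT * (|C'| * ‖y - x‖) ^ 2 + M * (|C'| * ‖y - x‖ ^ 2) := by
            rw [Finset.sum_add_distrib]
            exact add_le_add hT hD
    · rw [avg_const L hL0]
      exact le_of_eq (by ring)

end Pool.AF
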