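import Pool.Agent.Helper94.AF.Defs

open Set Finset

set_option linter.unusedSectionVars false

namespace Pool.AF

open Pool.SV

/-! ## AF-9b DIR: the dimension count -/

section

variable {E : Type*} [NormedAddCommGroup E] [NormedSpace ℝ E] [FiniteDimensional ℝ E]

private theorem rec_add {X : Set E} {u v : E} (hu : u ∈ Rec X) (hv : v ∈ Rec X) :
    u + v ∈ Rec X := by
  intro x hx t ht
  have h := hv _ (hu x hx t ht) t ht
  rwa [add_assoc, ← smul_add] at h

private theorem lin_rec {X : Set E} {u : E} (hu : u ∈ Lin X) : u ∈ Rec X :=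
  fun x hx t _ => hu x hx t

private theorem lin_of_rec {X : Set E} {u : E} (hu : u ∈ Rec X) (hu' : -u ∈ Rec X) :
    u ∈ Lin X := by
  intro x hx t
  rcases le_total 0 t with ht | ht
  · exact hu x hx t ht
  · have h := hu' x hx (-t) (by linarith)
    rwa [neg_smul_neg] at h

private theorem not_mem_of_recInt {X : Set E} (V : Submodule ℝ E) (hV : ∀ v, v ∈ V ↔ v ∈ Lin X)
    (hVR : (V : Set E) ≠ Rec X) {e : E} (he : e ∈ RecInt X) : e ∉ V := by
  intro heV
  apply hVR
  obtain ⟨δ, hδ, h⟩ := he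
  have hneg : -e ∈ Rec X := lin_rec ((hV _).1 (V.neg_mem heV))
  have h1 : ∀ w ∈ Submodule.span ℝ (Rec X), ‖w‖ ≤ δ → w ∈ Rec X := by
    intro w hw hwδ
    have := rec_add hneg (h w hw hwδ)
    rwa [neg_add_cancel_left] at this
  have h2 : ∀ w ∈ Submodule.span ℝ (Rec X), ‖w‖ ≤ δ → w ∈ V := by
    intro w hw hwδ
    rw [hV]
    exact lin_of_rec (h1 w hw hwδ) (h1 (-w) (Submodule.neg_mem _ hw) (by rwa [norm_neg]))
  have h3 : ∀ w ∈ Submodule.span ℝ (Rec X), w ∈ V := by
    intro w hw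
    by_cases hw0 : w = 0
    · rw [hw0]; exact V.zero_mem
    have hn : 0 < ‖w‖ := norm_pos_iff.2 hw0
    have h4 : (δ / ‖w‖) • w ∈ V := by
      refine h2 _ (Submodule.smul_mem _ _ hw) ?_
      rw [norm_smul, Real.norm_of_nonneg (by positivity), div_mul_cancel₀ _ hn.ne']
    have h5 := V.smul_mem (δ / ‖w‖)⁻¹ h4
    rwa [smul_smul, inv_mul_cancel₀ (by positivity), one_smul] at h5
  refine Set.Subset.antisymm (fun v hv => lin_rec ((hV v).1 hv)) (fun w hw => ?_)
  exact h3 w (Submodule.subset_span hw)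

/-- The direction: dimension count inside the span of the recession cone. -/
theorem exists_dir (D : Geo E) (r : ℕ) (B : Fin r → Blk D.Γ) (V : Submodule ℝ E)
    (hV : ∀ v, v ∈ V ↔ v ∈ Lin D.X) (hVR : (V : Set E) ≠ Rec D.X) (z : ∀ i, Fin (B i).d → ℝ)
    (hz : ∀ i, z i ∈ (B i).C) (z' : ∀ i, E →ₗ[ℝ] (Fin (B i).d → ℝ)) (e : E)
    (he : e ∈ RecInt D.X) (e' : E →ₗ[ℝ] E) (he' : ∀ u, e' u ∈ Submodule.span ℝ (Rec D.X))
    (hdim : ∑ i, ((B i).d - 1) ≤ Module.finrank ℝ V) :
    e ∉ V ∧ ∃ u ∈ Submodule.span ℝ (Rec D.X), ‖u‖ = 1 ∧ ∃ (lam : Fin r → ℝ) (μ : ℝ),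
      (∀ i, z' i u = lam i • z i) ∧ e' u - μ • e ∈ V := by
  have heV := not_mem_of_recInt V hV hVR he
  refine ⟨heV, ?_⟩
  set S : Submodule ℝ E := Submodule.span ℝ (Rec D.X) with hS
  have heS : e ∈ S := by
    obtain ⟨δ, hδ, h⟩ := he
    have h0 := h 0 (Submodule.zero_mem _) (by rw [norm_zero]; exact hδ.le)
    rw [add_zero] at h0
    exact Submodule.subset_span h0
  have hVS : V ≤ S := fun v hv => Submodule.subset_span (lin_rec ((hV v).1 hv))
  let V' : Submodule ℝ E := V ⊔ Submodule.span ℝ {e}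
  have hV'S : V' ≤ S := sup_le hVS (by
    rw [Submodule.span_le, Set.singleton_subset_iff]; exact heS)
  have hlt : V < V' := by
    refine lt_of_le_of_ne le_sup_left fun h => heV ?_
    rw [h]
    exact (le_sup_right : Submodule.span ℝ {e} ≤ V') (Submodule.mem_span_singleton_self e)
  have hfr : Module.finrank ℝ V < Module.finrank ℝ V' := Submodule.finrank_lt_finrank_of_lt hlt
  let W : Submodule ℝ S := V'.comap S.subtype
  have hW : Module.finrank ℝ W = Module.finrank ℝ V' :=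
    (Submodule.comapSubtypeEquivOfLe hV'S).finrank_eq
  let Ψ : S →ₗ[ℝ] ((∀ i, (Fin (B i).d → ℝ) ⧸ (Submodule.span ℝ {z i})) × (S ⧸ W)) :=
    LinearMap.prod (LinearMap.pi fun i => (Submodule.mkQ _).comp ((z' i).comp S.subtype))
      ((Submodule.mkQ W).comp (LinearMap.codRestrict S (e'.comp S.subtype) fun u => he' u))
  have hz0 : ∀ i, z i ≠ 0 := by
    intro i h
    have := (B i).pos _ (hz i)
    rw [h, map_zero] at this
    exact lt_irrefl _ this
  have hq : ∀ i, Module.finrank ℝ ((Fin (B i).d → ℝ) ⧸ (Submodule.span ℝ {z i})) = (B i).d - 1 := by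
    intro i
    have h1 := Submodule.finrank_quotient_add_finrank (Submodule.span ℝ {z i})
    rw [finrank_span_singleton (hz0 i), Module.finrank_fin_fun] at h1
    omega
  have hfin : Module.finrank ℝ ((∀ i, (Fin (B i).d → ℝ) ⧸ (Submodule.span ℝ {z i})) × (S ⧸ W)) <
      Module.finrank ℝ S := by
    rw [Module.finrank_prod, Module.finrank_pi_fintype]
    simp only [hq]
    have h1 := Submodule.finrank_quotient_add_finrank W
    omega
  obtain ⟨u, hu, hu0⟩ := (Submodule.ne_bot_iff _).1 (LinearMap.ker_ne_bot_of_finrank_lt hfin)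
  have hu1 : Ψ u = 0 := hu
  have h2 : ∀ i, z' i u ∈ Submodule.span ℝ {z i} := by
    intro i
    have := congrFun (congrArg Prod.fst hu1) i
    exact (Submodule.Quotient.mk_eq_zero _).1 this
  have h3 : e' u ∈ V' := by
    have := congrArg Prod.snd hu1
    exact (Submodule.Quotient.mk_eq_zero W).1 this
  have hun : (u : E) ≠ 0 := fun h => hu0 (Subtype.ext h)
  have hn : 0 < ‖(u : E)‖ := norm_pos_iff.2 hun
  have h4 : ∀ i, ∃ l : ℝ, l • z i = z' i u := fun i => Submodule.mem_span_singleton.1 (h2 i)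
  choose l hl using h4
  obtain ⟨v, hv, w, hw, hvw⟩ := Submodule.mem_sup.1 h3
  obtain ⟨m, rfl⟩ := Submodule.mem_span_singleton.1 hw
  refine ⟨‖(u : E)‖⁻¹ • (u : E), S.smul_mem _ u.2, ?_, fun i => ‖(u : E)‖⁻¹ * l i,
    ‖(u : E)‖⁻¹ * m, fun i => ?_, ?_⟩
  · rw [norm_smul, norm_inv, norm_norm, inv_mul_cancel₀ hn.ne']
  · rw [map_smul, ← hl i, smul_smul]
  · rw [map_smul, ← hvw, smul_add, smul_smul, add_sub_cancel_right]
    exact V.smul_mem _ hv

end

end Pool.AF
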