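import Pool.Agent.Helper94.AF.Strip
import Pool.Agent.SV.Flag

open Set Finset

set_option linter.unusedSectionVars false

namespace Pool.AF

open Pool.SV

/-! ## AF-13 TAU: induction along the flag (uses `strip`, `Flag.exists_idem`, `disc_of_geo`) -/

section

variable {E : Type*} [NormedAddCommGroup E] [NormedSpace ℝ E] [FiniteDimensional ℝ E]

/-- Idempotents adapted to a flag. -/
structure Adapted (r : ℕ) (F : ℕ → Submodule ℝ E) (e : ℕ → Alg E) : Prop where
  idem : ∀ i ≤ r, e i * e i = e i
  range : ∀ i ≤ r, ∀ v : E × ℝ, e i v = v ↔ v.2 = 0 ∧ v.1 ∈ F i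
  up : ∀ i < r, e i * e (i + 1) = e i
  down : ∀ i < r, e (i + 1) * e i = e i

theorem exists_adapted (r : ℕ) (F : ℕ → Submodule ℝ E) (hle : ∀ i < r, F i ≤ F (i + 1)) :
    ∃ e : ℕ → Alg E, Adapted r F e := by
  have key : ∀ n ≤ r, ∃ e : ℕ → Alg E, Adapted n F e := by
    intro n
    induction n with
    | zero =>
      intro _
      obtain ⟨e', h1, _, _, h4⟩ := Flag.exists_idem (0 : Alg E) (mul_zero _) ((F 0).prod ⊥)
        (fun v => Submodule.zero_mem _)
      refine ⟨fun _ => e', fun i _ => h1, ?_, ?_, ?_⟩
      · intro i hi v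
        have hi0 : i = 0 := by omega
        subst hi0
        rw [h4, Submodule.mem_prod, Submodule.mem_bot, and_comm]
      · intro i hi; omega
      · intro i hi; omega
    | succ n ih =>
      intro hn
      obtain ⟨e, he⟩ := ih (by omega)
      obtain ⟨e', h1, h2, h3, h4⟩ := Flag.exists_idem (e n) (he.idem n le_rfl)
        ((F (n + 1)).prod ⊥) (by
          intro v
          have h5 : e n (e n v) = e n v :=
            congrArg (fun T : Alg E => T v) (he.idem n le_rfl)
          have h6 := (he.range n le_rfl _).mp h5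
          exact ⟨hle n (by omega) h6.2, h6.1⟩)
      have hne : ∀ i ≤ n, Function.update e (n + 1) e' i = e i := fun i hi =>
        Function.update_of_ne (by omega) _ _
      have heq : Function.update e (n + 1) e' (n + 1) = e' := Function.update_self _ _ _
      refine ⟨Function.update e (n + 1) e', ?_, ?_, ?_, ?_⟩
      · intro i hi
        rcases Nat.lt_or_ge n i with h | h
        · have : i = n + 1 := by omega
          rw [this, heq, h1]
        · rw [hne i h, he.idem i h]
      · intro i hi v
        rcases Nat.lt_or_ge n i with h | h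
        · have : i = n + 1 := by omega
          rw [this, heq, h4, Submodule.mem_prod, Submodule.mem_bot, and_comm]
        · rw [hne i h, he.range i h]
      · intro i hi
        rcases Nat.lt_or_ge i n with h | h
        · rw [hne i (by omega), hne (i + 1) (by omega), he.up i h]
        · have : i = n := by omega
          rw [this, hne n le_rfl, heq, h2]
      · intro i hi
        rcases Nat.lt_or_ge i n with h | h
        · rw [hne i (by omega), hne (i + 1) (by omega), he.down i h]
        · have : i = n := by omega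
          rw [this, hne n le_rfl, heq, h3]
  exact key r le_rfl

private theorem Adapted.up' {r : ℕ} {F : ℕ → Submodule ℝ E} {e : ℕ → Alg E}
    (he : Adapted r F e) (i : ℕ) : ∀ k, i + k ≤ r → e i * e (i + k) = e i := by
  intro k
  induction k with
  | zero => intro h; exact he.idem i h
  | succ k ih =>
    intro h
    have h1 := ih (by omega)
    have h2 := he.up (i + k) (by omega)
    calc e i * e (i + (k + 1)) = e i * e (i + k) * e (i + k + 1) := by rw [h1]; rfl
      _ = e i * (e (i + k) * e (i + k + 1)) := by rw [mul_assoc]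
      _ = e i := by rw [h2, h1]

private theorem Adapted.down' {r : ℕ} {F : ℕ → Submodule ℝ E} {e : ℕ → Alg E}
    (he : Adapted r F e) (i : ℕ) : ∀ k, i + k ≤ r → e (i + k) * e i = e i := by
  intro k
  induction k with
  | zero => intro h; exact he.idem i h
  | succ k ih =>
    intro h
    have h1 := ih (by omega)
    have h2 := he.down (i + k) (by omega)
    calc e (i + (k + 1)) * e i = e (i + k + 1) * (e (i + k) * e i) := by rw [h1]; rfl
      _ = (e (i + k + 1) * e (i + k)) * e i := by rw [mul_assoc]
      _ = e i := by rw [h2, h1]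

/-- The algebra of one step of the induction. -/
private theorem step_alg {R : Type*} [Ring R] (e e' S φ : R) (he : e * e = e) (he' : e' * e' = e')
    (h1 : e * e' = e) (h2 : e' * e = e) (hS1 : (e' - e) * S = 0) (hS2 : S * (e' - e) = 0)
    (hinv : (1 - e') * φ * e' = 0) :
    (e' - e) * (S + (1 - e) * φ * (1 - e)) * (e' - e) = (e' - e) * φ * (e' - e) ∧
    (1 - (e' - e)) * (S + (1 - e) * φ * (1 - e)) * (e' - e) = 0 ∧
    (1 - (e' - e)) * (S + (1 - e) * φ * (1 - e)) * (1 - (e' - e)) =
      S + (1 - e') * φ * (1 - e') := by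
  have a1 : (e' - e) * (1 - e) = e' - e := by
    rw [mul_sub, mul_one, sub_mul, h2, he, sub_self, sub_zero]
  have a2 : (1 - e) * (e' - e) = e' - e := by
    rw [sub_mul, one_mul, mul_sub, h1, he, sub_self, sub_zero]
  have a3 : (1 - (e' - e)) * (1 - e) = 1 - e' := by
    rw [sub_mul, one_mul, a1]; abel
  have a4 : (1 - e) * (1 - (e' - e)) = 1 - e' := by
    rw [mul_sub, mul_one, a2]; abel
  have a5 : e' * (e' - e) = e' - e := by rw [mul_sub, he', h2]
  have a6 : (1 - e') * φ * (e' - e) = 0 := by
    calc (1 - e') * φ * (e' - e) = (1 - e') * φ * (e' * (e' - e)) := by rw [a5]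
      _ = (1 - e') * φ * e' * (e' - e) := by rw [← mul_assoc]
      _ = 0 := by rw [hinv, zero_mul]
  refine ⟨?_, ?_, ?_⟩
  · calc (e' - e) * (S + (1 - e) * φ * (1 - e)) * (e' - e)
        = (e' - e) * S * (e' - e) + ((e' - e) * (1 - e)) * φ * ((1 - e) * (e' - e)) := by
          rw [mul_add, add_mul]; simp only [mul_assoc]
      _ = _ := by rw [hS1, zero_mul, zero_add, a1, a2]
  · calc (1 - (e' - e)) * (S + (1 - e) * φ * (1 - e)) * (e' - e)
        = (1 - (e' - e)) * (S * (e' - e)) +
          ((1 - (e' - e)) * (1 - e)) * φ * ((1 - e) * (e' - e)) := by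
          rw [mul_add, add_mul]; simp only [mul_assoc]
      _ = _ := by rw [hS2, mul_zero, zero_add, a3, a2, a6]
  · calc (1 - (e' - e)) * (S + (1 - e) * φ * (1 - e)) * (1 - (e' - e))
        = (1 - (e' - e)) * S * (1 - (e' - e)) +
          ((1 - (e' - e)) * (1 - e)) * φ * ((1 - e) * (1 - (e' - e))) := by
          rw [mul_add, add_mul]; simp only [mul_assoc]
      _ = _ := by
          rw [sub_mul 1 (e' - e) S, hS1, one_mul, sub_zero, mul_sub S, hS2, mul_one, sub_zero,
            a3, a4]

theorem flag_tau (D : Geo E) (r : ℕ) (F : ℕ → Submodule ℝ E) (h0 : F 0 = ⊥) (e : ℕ → Alg E)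
    (he : Adapted r F e) (hinv : ∀ i ≤ r, ∀ g ∈ D.Γ, ∀ v ∈ F i, g.linear v ∈ F i)
    (c : ℕ → D.Γ → ℝ) (hc : ∀ i < r, PosMul (c i)) :
    HasAbNormal D.Γ ∨ ∃ τ : D.Γ →* Alg E,
      (∀ g, τ g = ∑ i ∈ Finset.range r, cut (hatHom D.Γ) (e (i + 1) - e i) (c i) g +
        (1 - e r) * hatHom D.Γ g * (1 - e r)) ∧ Disc τ := by
  have htf : ∀ (g : D.Γ) (m : ℕ), 0 < m → g ^ m = 1 → g = 1 := by
    intro g m hm h
    apply Subtype.ext
    exact eq_one_of_pow D g.1 g.2 m hm (congrArg Subtype.val h)
  have : FiniteDimensional ℝ (Alg E) := ContinuousLinearMap.finiteDimensional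
  have key : ∀ n ≤ r, HasAbNormal D.Γ ∨ ∃ τ : D.Γ →* Alg E,
      (∀ g, τ g = ∑ i ∈ Finset.range n, cut (hatHom D.Γ) (e (i + 1) - e i) (c i) g +
        (1 - e n) * hatHom D.Γ g * (1 - e n)) ∧ Disc τ := by
    intro n
    induction n with
    | zero =>
      intro _
      have he0 : e 0 = 0 := by
        apply ContinuousLinearMap.ext
        intro v
        have h5 : e 0 (e 0 v) = e 0 v :=
          congrArg (fun T : Alg E => T v) (he.idem 0 (Nat.zero_le _))
        have h6 := (he.range 0 (Nat.zero_le _) _).mp h5
        rw [h0, Submodule.mem_bot] at h6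
        exact Prod.ext h6.2 h6.1
      refine Or.inr ⟨hatHom D.Γ, ?_, ?_⟩
      · intro g
        rw [he0, Finset.sum_range_zero, sub_zero, one_mul, mul_one, zero_add]
      · intro C
        have := disc_of_geo D C
        simp only [sub_zero, one_mul, mul_one] at this
        exact this
    | succ n ih =>
      intro hn
      rcases ih (by omega) with h | ⟨τ, hτ, hd⟩
      · exact Or.inl h
      have hnn : e n * e n = e n := he.idem n (by omega)
      have hn1 : e (n + 1) * e (n + 1) = e (n + 1) := he.idem (n + 1) hn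
      have hup : e n * e (n + 1) = e n := he.up n (by omega)
      have hdown : e (n + 1) * e n = e n := he.down n (by omega)
      set f : Alg E := e (n + 1) - e n with hf
      have hfe : f * e n = 0 := by rw [hf, sub_mul, hdown, hnn, sub_self]
      have hef : e n * f = 0 := by rw [hf, mul_sub, hup, hnn, sub_self]
      have hff : f * f = f := by
        have h3 : f * (e (n + 1) - e n) = f := by
          rw [mul_sub, hfe, sub_zero, hf, sub_mul, hn1, hup]
        exact h3
      have hS1 : ∀ g, f * ∑ i ∈ Finset.range n, cut (hatHom D.Γ) (e (i + 1) - e i) (c i) g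
          = 0 := by
        intro g
        rw [Finset.mul_sum]
        refine Finset.sum_eq_zero fun j hj => ?_
        rw [Finset.mem_range] at hj
        obtain ⟨k, rfl⟩ : ∃ k, n = j + 1 + k := ⟨n - (j + 1), by omega⟩
        have h3 : e (j + 1 + k) * e (j + 1) = e (j + 1) := he.down' (j + 1) k (by omega)
        have h4 : e (j + 1 + k) * e j = e j := by
          have := he.down' j (1 + k) (by omega)
          rw [← add_assoc] at this
          exact this
        have h5 : f * (e (j + 1) - e j) = 0 := by
          calc f * (e (j + 1) - e j) = f * (e (j + 1 + k) * (e (j + 1) - e j)) := by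
                rw [mul_sub (e (j + 1 + k)), h3, h4]
            _ = f * e (j + 1 + k) * (e (j + 1) - e j) := by rw [mul_assoc]
            _ = 0 := by rw [hfe, zero_mul]
        rw [cut, mul_smul_comm, ← mul_assoc, ← mul_assoc, h5, zero_mul, zero_mul, smul_zero]
      have hS2 : ∀ g, (∑ i ∈ Finset.range n, cut (hatHom D.Γ) (e (i + 1) - e i) (c i) g) * f
          = 0 := by
        intro g
        rw [Finset.sum_mul]
        refine Finset.sum_eq_zero fun j hj => ?_
        rw [Finset.mem_range] at hj
        obtain ⟨k, rfl⟩ : ∃ k, n = j + 1 + k := ⟨n - (j + 1), by omega⟩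
        have h3 : e (j + 1) * e (j + 1 + k) = e (j + 1) := he.up' (j + 1) k (by omega)
        have h4 : e j * e (j + 1 + k) = e j := by
          have := he.up' j (1 + k) (by omega)
          rw [← add_assoc] at this
          exact this
        have h5 : (e (j + 1) - e j) * f = 0 := by
          calc (e (j + 1) - e j) * f = (e (j + 1) - e j) * e (j + 1 + k) * f := by
                rw [sub_mul _ _ (e (j + 1 + k)), h3, h4]
            _ = (e (j + 1) - e j) * (e (j + 1 + k) * f) := by rw [mul_assoc]
            _ = 0 := by rw [hef, mul_zero]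
        rw [cut, smul_mul_assoc, mul_assoc, h5, mul_zero, smul_zero]
      have hinvn : ∀ g : D.Γ, (1 - e (n + 1)) * hatHom D.Γ g * e (n + 1) = 0 := fun g =>
        Flag.hinv_of_range D (F (n + 1)) (e (n + 1)) hn1 (he.range (n + 1) hn)
          (hinv (n + 1) hn) g
      have halg := fun g : D.Γ => step_alg (e n) (e (n + 1))
        (∑ i ∈ Finset.range n, cut (hatHom D.Γ) (e (i + 1) - e i) (c i) g) (hatHom D.Γ g)
        hnn hn1 hup hdown (hS1 g) (hS2 g) (hinvn g)
      rcases strip τ htf hd f hff (fun g => by rw [hτ g]; exact (halg g).2.1) (c n)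
        (hc n (by omega)) with h | ⟨τ', hτ', hd'⟩
      · exact Or.inl h
      · refine Or.inr ⟨τ', ?_, hd'⟩
        intro g
        have h3 : cut τ f (c n) g = cut (hatHom D.Γ) f (c n) g := by
          unfold cut
          rw [hτ g, (halg g).1]
        rw [hτ' g, h3, hτ g, (halg g).2.2, Finset.sum_range_succ]
        abel
  exact key r le_rfl

end

end Pool.AF
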