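import Pool.Agent.Helper94.AF.Defs

open Set Finset

set_option linter.unusedSectionVars false

namespace Pool.AF

/-! ## AF-19 GROW: elementary facts on growth -/

/-- `T` grows at most like `A * s ^ b`. -/
private def GrowWith {G R : Type*} [Group G] [NormedRing R] (T : G → R) (s : G → ℝ) (b : ℕ)
    (A : ℝ) : Prop :=
  0 < A ∧ ∀ g, A⁻¹ ≤ s g ∧ ‖T g‖ ≤ A * s g ^ b ∧ ‖T g⁻¹‖ ≤ A * s g ^ b

private lemma GrowWith.le {G R : Type*} [Group G] [NormedRing R] {T : G → R} {s : G → ℝ} {b : ℕ}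
    {A A' : ℝ} (h : GrowWith T s b A) (hA : A ≤ A') : GrowWith T s b A' := by
  obtain ⟨h0, h1⟩ := h
  refine ⟨h0.trans_le hA, fun g => ?_⟩
  obtain ⟨h2, h3, h4⟩ := h1 g
  have hs : 0 ≤ s g := (inv_pos.2 h0).le.trans h2
  exact ⟨(inv_anti₀ h0 hA).trans h2, h3.trans (by gcongr), h4.trans (by gcongr)⟩

private lemma pow_bound {A s : ℝ} (hA : 0 < A) (hs : A⁻¹ ≤ s) {b b' : ℕ} (hb : b ≤ b') :
    s ^ b ≤ A ^ (b' - b) * s ^ b' := by
  have hs0 : 0 < s := (inv_pos.2 hA).trans_le hs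
  have h1 : 1 ≤ A * s := by
    calc (1 : ℝ) = A * A⁻¹ := (mul_inv_cancel₀ hA.ne').symm
      _ ≤ A * s := by gcongr
  have h2 : 1 ≤ (A * s) ^ (b' - b) := one_le_pow₀ h1
  calc s ^ b = 1 * s ^ b := (one_mul _).symm
    _ ≤ (A * s) ^ (b' - b) * s ^ b := by gcongr
    _ = A ^ (b' - b) * (s ^ (b' - b) * s ^ b) := by rw [mul_pow]; ring
    _ = A ^ (b' - b) * s ^ b' := by rw [← pow_add, Nat.sub_add_cancel hb]

theorem Grow.mono {G R : Type*} [Group G] [NormedRing R] {T : G → R} {s : G → ℝ} {b b' : ℕ}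
    (h : Grow T s b) (hb : b ≤ b') : Grow T s b' := by
  obtain ⟨A, h0, h1⟩ := h
  have h5 : 0 < A * A ^ (b' - b) := by positivity
  have hle : A ≤ A + A * A ^ (b' - b) := by linarith
  refine ⟨A + A * A ^ (b' - b), by positivity, fun g => ?_⟩
  obtain ⟨h2, h3, h4⟩ := h1 g
  have hs : 0 < s g := (inv_pos.2 h0).trans_le h2
  have key : A * s g ^ b ≤ (A + A * A ^ (b' - b)) * s g ^ b' := by
    calc A * s g ^ b ≤ A * (A ^ (b' - b) * s g ^ b') := by
          gcongr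
          exact pow_bound h0 h2 hb
      _ = (A * A ^ (b' - b)) * s g ^ b' := by ring
      _ ≤ (A + A * A ^ (b' - b)) * s g ^ b' := by
          gcongr
          linarith
  exact ⟨(inv_anti₀ h0 hle).trans h2, h3.trans key, h4.trans key⟩

/-- Growth of the whole representation from the growth of the blocks. -/
theorem grow_sum {G R : Type*} [Group G] [NormedRing R] (r : ℕ) (T : ℕ → G → R) (T₀ : G → R)
    (s : Fin r → G → ℝ) (s₀ : G → ℝ) (b : ℕ)
    (hT : ∀ i : Fin r, Grow (T i) (s i) b) (hT₀ : Grow T₀ s₀ b) :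
    Grow (fun g => ∑ i ∈ Finset.range r, T i g + T₀ g) (fun g => s₀ g * ∏ i, s i g) b := by
  obtain ⟨A₀, hA₀⟩ := hT₀
  choose A hA using hT
  have hA0 : ∀ i, 0 < A i := fun i => (hA i).1
  set B : ℝ := A₀ + ∑ i, A i with hB
  have hsum : 0 ≤ ∑ i, A i := Finset.sum_nonneg fun i _ => (hA0 i).le
  have hBpos : 0 < B := by
    have := hA₀.1
    linarith
  have g₀ : GrowWith T₀ s₀ b B := GrowWith.le ⟨hA₀.1, hA₀.2⟩ (by linarith)
  have gi : ∀ i : Fin r, GrowWith (T i) (s i) b B := fun i =>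
    GrowWith.le ⟨(hA i).1, (hA i).2⟩ (by
      have h1 : A i ≤ ∑ i, A i := Finset.single_le_sum (fun j _ => (hA0 j).le) (Finset.mem_univ i)
      have := hA₀.1
      linarith)
  have hBi : 0 < B⁻¹ := inv_pos.2 hBpos
  have s₀pos : ∀ g, 0 < s₀ g := fun g => hBi.trans_le (g₀.2 g).1
  have sipos : ∀ i g, 0 < s i g := fun i g => hBi.trans_le ((gi i).2 g).1
  have hprod : ∀ g, B⁻¹ ^ r ≤ ∏ i, s i g := by
    intro g
    calc B⁻¹ ^ r = ∏ _i : Fin r, B⁻¹ := by rw [Finset.prod_const, Finset.card_univ,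
          Fintype.card_fin]
      _ ≤ ∏ i, s i g := Finset.prod_le_prod (fun _ _ => hBi.le) fun i _ => ((gi i).2 g).1
  have hBr : B ^ r * B⁻¹ ^ r = 1 := by
    rw [← mul_pow, mul_inv_cancel₀ hBpos.ne', one_pow]
  -- each factor is at most `B ^ r` times the product
  have b₀ : ∀ g, s₀ g ≤ B ^ r * (s₀ g * ∏ i, s i g) := by
    intro g
    have h1 := s₀pos g
    calc s₀ g = (B ^ r * B⁻¹ ^ r) * s₀ g := by rw [hBr, one_mul]
      _ = B ^ r * (s₀ g * B⁻¹ ^ r) := by ring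
      _ ≤ B ^ r * (s₀ g * ∏ i, s i g) := by
          gcongr
          exact hprod g
  have bi : ∀ i g, s i g ≤ B ^ r * (s₀ g * ∏ j, s j g) := by
    intro i g
    have h1 := s₀pos g
    have h2 := sipos i g
    have h3 : B⁻¹ ^ (r - 1) ≤ ∏ j ∈ Finset.univ.erase i, s j g := by
      calc B⁻¹ ^ (r - 1) = ∏ _j ∈ Finset.univ.erase i, B⁻¹ := by
            rw [Finset.prod_const, Finset.card_erase_of_mem (Finset.mem_univ i),
              Finset.card_univ, Fintype.card_fin]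
        _ ≤ ∏ j ∈ Finset.univ.erase i, s j g :=
            Finset.prod_le_prod (fun _ _ => hBi.le) fun j _ => ((gi j).2 g).1
    have h4 : ∏ j, s j g = s i g * ∏ j ∈ Finset.univ.erase i, s j g :=
      (Finset.mul_prod_erase _ _ (Finset.mem_univ i)).symm
    have hr : r = (r - 1) + 1 := by
      have := i.pos
      omega
    have h5 : B⁻¹ ^ r = B⁻¹ * B⁻¹ ^ (r - 1) := by
      conv_lhs => rw [hr]
      rw [pow_succ]
      ring
    calc s i g = (B ^ r * B⁻¹ ^ r) * s i g := by rw [hBr, one_mul]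
      _ = B ^ r * (B⁻¹ * (s i g * B⁻¹ ^ (r - 1))) := by rw [h5]; ring
      _ ≤ B ^ r * (s₀ g * (s i g * ∏ j ∈ Finset.univ.erase i, s j g)) := by
          gcongr
          exact (g₀.2 g).1
      _ = B ^ r * (s₀ g * ∏ j, s j g) := by rw [h4]
  set M : ℝ := ((r : ℝ) + 1) * (B * (B ^ r) ^ b) with hM
  have hMpos : 0 < M := by positivity
  have hC : 0 < B ^ (r + 1) := by positivity
  have hle2 : B ^ (r + 1) ≤ M + B ^ (r + 1) := by linarith
  refine ⟨M + B ^ (r + 1), by positivity, fun g => ?_⟩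
  have hS : 0 < s₀ g * ∏ i, s i g :=
    mul_pos (s₀pos g) (Finset.prod_pos fun i _ => sipos i g)
  have term : ∀ x : ℝ, 0 ≤ x → x ≤ B ^ r * (s₀ g * ∏ i, s i g) →
      B * x ^ b ≤ (B * (B ^ r) ^ b) * (s₀ g * ∏ i, s i g) ^ b := by
    intro x hx0 hx
    calc B * x ^ b ≤ B * (B ^ r * (s₀ g * ∏ i, s i g)) ^ b := by gcongr
      _ = (B * (B ^ r) ^ b) * (s₀ g * ∏ i, s i g) ^ b := by rw [mul_pow]; ring
  have est : ∀ h : G, (∀ i : Fin r, ‖T i h‖ ≤ B * s i g ^ b) → ‖T₀ h‖ ≤ B * s₀ g ^ b →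
      ‖∑ i ∈ Finset.range r, T i h + T₀ h‖ ≤ (M + B ^ (r + 1)) * (s₀ g * ∏ i, s i g) ^ b := by
    intro h h1 h2
    have e1 : ‖∑ i ∈ Finset.range r, T i h‖ ≤
        ∑ _i ∈ Finset.range r, (B * (B ^ r) ^ b) * (s₀ g * ∏ i, s i g) ^ b := by
      refine norm_sum_le_of_le _ fun i hi => ?_
      rw [Finset.mem_range] at hi
      exact (h1 ⟨i, hi⟩).trans (term _ (sipos _ g).le (bi _ g))
    rw [Finset.sum_const, Finset.card_range, nsmul_eq_mul] at e1
    have e2 : ‖T₀ h‖ ≤ (B * (B ^ r) ^ b) * (s₀ g * ∏ i, s i g) ^ b :=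
      h2.trans (term _ (s₀pos g).le (b₀ g))
    calc ‖∑ i ∈ Finset.range r, T i h + T₀ h‖ ≤ ‖∑ i ∈ Finset.range r, T i h‖ + ‖T₀ h‖ :=
          norm_add_le _ _
      _ ≤ (r : ℝ) * ((B * (B ^ r) ^ b) * (s₀ g * ∏ i, s i g) ^ b) +
          (B * (B ^ r) ^ b) * (s₀ g * ∏ i, s i g) ^ b := add_le_add e1 e2
      _ = M * (s₀ g * ∏ i, s i g) ^ b := by rw [hM]; ring
      _ ≤ (M + B ^ (r + 1)) * (s₀ g * ∏ i, s i g) ^ b := by
          gcongr
          linarith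
  refine ⟨?_, ?_, ?_⟩
  · calc (M + B ^ (r + 1))⁻¹ ≤ (B ^ (r + 1))⁻¹ := inv_anti₀ hC hle2
      _ = B⁻¹ * B⁻¹ ^ r := by rw [pow_succ, mul_inv, inv_pow, mul_comm]
      _ ≤ s₀ g * ∏ i, s i g := by
          have := hprod g
          have h1 := (g₀.2 g).1
          have h2 := s₀pos g
          gcongr
  · exact est g (fun i => ((gi i).2 g).2.1) (g₀.2 g).2.1
  · exact est g⁻¹ (fun i => ((gi i).2 g).2.2) (g₀.2 g).2.2

end Pool.AF
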