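import Pool.Agent.Helper94.AF.Defs

open Set Finset

set_option linter.unusedSectionVars false

namespace Pool.AF

open Pool.SV

/-! ## AF-20 RECI: the recession cone -/

section

variable {E : Type*} [NormedAddCommGroup E] [NormedSpace ℝ E] [FiniteDimensional ℝ E]

namespace RecIAux

theorem rec_zero (X : Set E) : (0 : E) ∈ Rec X := fun x hx t _ => by
  rwa [smul_zero, add_zero]

theorem rec_add {X : Set E} {u v : E} (hu : u ∈ Rec X) (hv : v ∈ Rec X) : u + v ∈ Rec X := by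
  intro x hx t ht
  rw [smul_add, ← add_assoc]
  exact hv _ (hu x hx t ht) t ht

theorem rec_smul {X : Set E} {u : E} (hu : u ∈ Rec X) {c : ℝ} (hc : 0 ≤ c) : c • u ∈ Rec X := by
  intro x hx t ht
  rw [smul_smul]
  exact hu x hx _ (mul_nonneg ht hc)

theorem rec_sum {X : Set E} {ι : Type*} (s : Finset ι) (f : ι → E) (h : ∀ i ∈ s, f i ∈ Rec X) :
    ∑ i ∈ s, f i ∈ Rec X := by
  classical
  induction s using Finset.induction_on with
  | empty => simpa using rec_zero X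
  | insert i s hi ih =>
    rw [Finset.sum_insert hi]
    exact rec_add (h i (Finset.mem_insert_self _ _)) (ih fun j hj => h j (Finset.mem_insert_of_mem hj))

theorem rec_inv (D : Geo E) {g : E ≃ᵃ[ℝ] E} (hg : g ∈ D.Γ) {u : E} (hu : u ∈ Rec D.X) :
    g.linear u ∈ Rec D.X := by
  intro x hx t ht
  have h1 := D.inv g⁻¹ (inv_mem hg) x hx
  have h2 := D.inv g hg _ (hu _ h1 t ht)
  have h3 : g (g⁻¹ x + t • u) = x + t • g.linear u := by
    have h4 := g.map_vadd (g⁻¹ x) (t • u)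
    rw [vadd_eq_add, vadd_eq_add, map_smul] at h4
    have h5 : g (g⁻¹ x) = x := g.apply_symm_apply x
    rw [h5] at h4
    rw [add_comm, h4, add_comm]
  rwa [h3] at h2

theorem recInt_sub (X : Set E) : RecInt X ⊆ Rec X := by
  rintro u ⟨δ, hδ, h⟩
  have := h 0 (Submodule.zero_mem _) (by rw [norm_zero]; exact hδ.le)
  rwa [add_zero] at this

theorem recInt_nonempty (X : Set E) : (RecInt X).Nonempty := by
  classical
  obtain ⟨b, hb, hspan, hli⟩ := exists_linearIndependent ℝ (Rec X)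
  have : Finite b := hli.finite
  have : Fintype b := Fintype.ofFinite b
  let W := Submodule.span ℝ (Set.range ((↑) : b → E))
  have hW : W = Submodule.span ℝ (Rec X) := by
    show Submodule.span ℝ (Set.range ((↑) : b → E)) = _
    rw [Subtype.range_coe, hspan]
  let B : Module.Basis b ℝ W := Module.Basis.span hli
  let T : W →L[ℝ] (b → ℝ) := LinearMap.toContinuousLinearMap (B.equivFun : W →ₗ[ℝ] (b → ℝ))
  refine ⟨∑ i : b, (i : E), (‖T‖ + 1)⁻¹, by positivity, fun w hw hwn => ?_⟩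
  rw [← hW] at hw
  have h1 : ∀ i, |T ⟨w, hw⟩ i| ≤ 1 := by
    intro i
    have h2 : ‖T ⟨w, hw⟩‖ ≤ ‖T‖ * ‖(⟨w, hw⟩ : W)‖ := T.le_opNorm _
    have h3 : ‖(⟨w, hw⟩ : W)‖ = ‖w‖ := rfl
    rw [h3] at h2
    have h4 : ‖T‖ * ‖w‖ ≤ 1 := by
      have h5 : (0 : ℝ) ≤ ‖T‖ := T.opNorm_nonneg
      calc ‖T‖ * ‖w‖ ≤ (‖T‖ + 1) * (‖T‖ + 1)⁻¹ :=
            mul_le_mul (by linarith) hwn (norm_nonneg _) (by positivity)
        _ = 1 := mul_inv_cancel₀ (by positivity)
    have h6 := norm_le_pi_norm (T ⟨w, hw⟩) i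
    rw [Real.norm_eq_abs] at h6
    linarith
  have h2 : w = ∑ i : b, (T ⟨w, hw⟩ i) • (i : E) := by
    have h3 := congrArg (fun z : W => (z : E)) (B.sum_equivFun ⟨w, hw⟩)
    simp only [Submodule.coe_sum, Submodule.coe_smul] at h3
    refine h3.symm.trans (Finset.sum_congr rfl fun i _ => ?_)
    have h4 : ((B i : W) : E) = (i : E) :=
      congrArg (fun z : W => (z : E)) (Module.Basis.span_apply hli i)
    rw [h4]
    rfl
  rw [h2, ← Finset.sum_add_distrib]
  refine rec_sum _ _ fun i _ => ?_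
  have h3 : (i : E) + (T ⟨w, hw⟩ i) • (i : E) = (1 + T ⟨w, hw⟩ i) • (i : E) := by
    rw [add_smul, one_smul]
  rw [h3]
  refine rec_smul (hb i.2) ?_
  have := abs_le.1 (h1 i)
  linarith [this.1]

theorem rec_of_closure {X : Set E} (hX : IsOpen X) (hc : Convex ℝ X) {u : E}
    (h : ∀ x ∈ X, ∀ t : ℝ, 0 ≤ t → x + t • u ∈ closure X) : u ∈ Rec X := by
  intro x hx t ht
  have h1 := h x hx (2 * t) (by positivity)
  have h2 := hc.combo_interior_closure_mem_interior (by rwa [hX.interior_eq]) h1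
    (a := 1 / 2) (b := 1 / 2) (by norm_num) (by norm_num) (by norm_num)
  rw [hX.interior_eq] at h2
  have h3 : x + t • u = (1 / 2 : ℝ) • x + (1 / 2 : ℝ) • (x + (2 * t) • u) := by
    module
  rwa [h3]

/-- boundedness of the slice -/
theorem bdd_slice (D : Geo E) (e : Alg E) (h : ∀ u ∈ Rec D.X, e (u, 0) = 0 → u = 0) :
    ∃ M : ℝ, ∀ y ∈ D.X, e (y, 1) = 0 → ‖y‖ ≤ M := by
  have : ProperSpace E := FiniteDimensional.proper_real E
  by_contra hcon
  push Not at hcon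
  have h1 : ∀ n : ℕ, ∃ y ∈ D.X, e (y, 1) = 0 ∧ (n : ℝ) + 1 < ‖y‖ := fun n => hcon (n + 1)
  choose y hyX hye hyn using h1
  have hpos : ∀ n, 0 < ‖y n‖ := fun n => lt_trans (by positivity) (hyn n)
  have hs : ∀ n, (‖y n‖)⁻¹ • y n ∈ Metric.sphere (0 : E) 1 := by
    intro n
    rw [mem_sphere_zero_iff_norm, norm_smul, norm_inv, norm_norm, inv_mul_cancel₀ (hpos n).ne']
  obtain ⟨u, hu, φ, hφ, hlim⟩ := (isCompact_sphere (0 : E) 1).tendsto_subseq hs
  have hinv : Filter.Tendsto (fun n => (‖y (φ n)‖)⁻¹) Filter.atTop (nhds 0) := by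
    apply Filter.Tendsto.inv_tendsto_atTop
    apply Filter.tendsto_atTop_mono (f := fun n : ℕ => (n : ℝ))
    · intro n
      have h1 : (n : ℝ) ≤ φ n := by exact_mod_cast hφ.id_le n
      have h2 := hyn (φ n)
      linarith
    · exact tendsto_natCast_atTop_atTop
  have hu1 : ‖u‖ = 1 := by simpa using hu
  have he0 : e (u, 0) = 0 := by
    have h1 : Filter.Tendsto (fun n => e ((‖y (φ n)‖)⁻¹ • y (φ n), (‖y (φ n)‖)⁻¹)) Filter.atTop
        (nhds (e (u, 0))) :=
      (e.continuous.tendsto _).comp (hlim.prodMk_nhds hinv)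
    have h2 : (fun n => e ((‖y (φ n)‖)⁻¹ • y (φ n), (‖y (φ n)‖)⁻¹)) = fun _ => 0 := by
      funext n
      have h3 : (((‖y (φ n)‖)⁻¹ • y (φ n), (‖y (φ n)‖)⁻¹) : E × ℝ) =
          (‖y (φ n)‖)⁻¹ • (y (φ n), (1 : ℝ)) := by
        rw [Prod.smul_mk, smul_eq_mul, mul_one]
      rw [h3, map_smul, hye, smul_zero]
    rw [h2] at h1
    exact (tendsto_nhds_unique h1 tendsto_const_nhds)
  have hrec : u ∈ Rec D.X := by
    refine rec_of_closure D.isOpen D.convex fun x hx t ht => ?_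
    have hz : Filter.Tendsto (fun n => x + t • ((‖y (φ n)‖)⁻¹ • y (φ n)) -
        (t * (‖y (φ n)‖)⁻¹) • x) Filter.atTop (nhds (x + t • u - (t * 0) • x)) := by
      refine Filter.Tendsto.sub ?_ ?_
      · exact tendsto_const_nhds.add (hlim.const_smul t)
      · exact (hinv.const_mul t).smul tendsto_const_nhds
    rw [mul_zero, zero_smul, sub_zero] at hz
    refine mem_closure_of_tendsto hz ?_
    have hev : ∀ᶠ n in Filter.atTop, t * (‖y (φ n)‖)⁻¹ < 1 := by
      have := hinv.const_mul t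
      rw [mul_zero] at this
      exact this.eventually (gt_mem_nhds one_pos)
    filter_upwards [hev] with n hn
    have h3 : x + t • ((‖y (φ n)‖)⁻¹ • y (φ n)) - (t * (‖y (φ n)‖)⁻¹) • x =
        (1 - t * (‖y (φ n)‖)⁻¹) • x + (t * (‖y (φ n)‖)⁻¹) • y (φ n) := by
      module
    rw [h3]
    exact D.convex hx (hyX _) (by linarith) (mul_nonneg ht (by positivity)) (by ring)
  have := h u hrec he0
  rw [this, norm_zero] at hu1
  exact zero_ne_one hu1

/-- an operator bounded on `X × {1}` is bounded -/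
theorem opNorm_bound {X : Set E} {x₀ : E} {δ : ℝ} (hδ : 0 < δ) (hb : Metric.ball x₀ δ ⊆ X)
    {T : Alg E} {M : ℝ} (hT : ∀ x ∈ X, ‖T (x, 1)‖ ≤ M) :
    ‖T‖ ≤ 4 * M / δ + (M + 4 * M / δ * ‖x₀‖) := by
  have hx0 : x₀ ∈ X := hb (Metric.mem_ball_self hδ)
  have hM : 0 ≤ M := (norm_nonneg _).trans (hT _ hx0)
  have h1 : ∀ w : E, ‖T (w, 0)‖ ≤ 4 * M / δ * ‖w‖ := by
    intro w
    rcases eq_or_ne w 0 with rfl | hw
    · have : T ((0 : E), (0 : ℝ)) = 0 := map_zero T
      rw [this]; simp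
    have hw' : 0 < ‖w‖ := norm_pos_iff.2 hw
    set c : ℝ := δ / (2 * ‖w‖) with hc
    have hc0 : 0 < c := by positivity
    have h2 : x₀ + c • w ∈ X := by
      apply hb
      rw [Metric.mem_ball, dist_eq_norm, add_sub_cancel_left, norm_smul, Real.norm_eq_abs,
        abs_of_pos hc0, hc]
      field_simp
      linarith
    have h3 : c • T (w, 0) = T (x₀ + c • w, 1) - T (x₀, 1) := by
      rw [← map_sub, ← map_smul]
      congr 1
      ext <;> simp
    have h4 : c * ‖T (w, 0)‖ ≤ 2 * M := by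
      have h5 : ‖c • T (w, 0)‖ ≤ M + M := by
        rw [h3]
        exact (norm_sub_le _ _).trans (add_le_add (hT _ h2) (hT _ hx0))
      rw [norm_smul, Real.norm_eq_abs, abs_of_pos hc0] at h5
      linarith
    have h6 : ‖T (w, 0)‖ ≤ 2 * M / c := by
      rw [le_div_iff₀ hc0]
      linarith
    refine h6.trans (le_of_eq ?_)
    rw [hc]
    field_simp
    ring
  have h2 : ‖T (0, 1)‖ ≤ M + 4 * M / δ * ‖x₀‖ := by
    have h3 : T ((0 : E), (1 : ℝ)) = T (x₀, 1) - T (x₀, 0) := by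
      rw [← map_sub]
      congr 1
      ext <;> simp
    rw [h3]
    exact (norm_sub_le _ _).trans (add_le_add (hT _ hx0) (h1 _))
  refine T.opNorm_le_bound (by positivity) fun v => ?_
  have h3 : T v = T (v.1, 0) + v.2 • T (0, 1) := by
    rw [← map_smul, ← map_add]
    congr 1
    ext <;> simp
  rw [h3]
  refine (norm_add_le _ _).trans ?_
  rw [norm_smul, add_mul]
  have h4 : ‖v.1‖ ≤ ‖v‖ := norm_fst_le v
  have h5 : ‖v.2‖ ≤ ‖v‖ := norm_snd_le v
  have h6 : 4 * M / δ * ‖v.1‖ ≤ 4 * M / δ * ‖v‖ := mul_le_mul_of_nonneg_left h4 (by positivity)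
  have h7 : ‖v.2‖ * ‖T (0, 1)‖ ≤ ‖v‖ * (M + 4 * M / δ * ‖x₀‖) :=
    mul_le_mul h5 h2 (norm_nonneg _) (norm_nonneg _)
  have h8 := h1 v.1
  linarith

end RecIAux

open RecIAux

/-- If the recession cone is the lineality space the top block is bounded. -/
theorem top_bounded (D : Geo E) (V : Submodule ℝ E) (hV : ∀ v, v ∈ V ↔ v ∈ Lin D.X) (e : Alg E)
    (he : e * e = e) (hr : ∀ v : E × ℝ, e v = v ↔ v.2 = 0 ∧ v.1 ∈ V)
    (hVR : (V : Set E) = Rec D.X) :
    ∃ R : ℝ, ∀ g : D.Γ, ‖(1 - e) * hatHom D.Γ g * (1 - e)‖ ≤ R := by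
  have hee : ∀ v, e (e v) = e v := fun v => by
    have := congrArg (fun T : Alg E => T v) he
    simpa using this
  obtain ⟨M, hM⟩ := bdd_slice D e (fun u hu hu0 => by
    have h1 : u ∈ V := by
      rw [← SetLike.mem_coe, hVR]
      exact hu
    have h2 := (hr (u, 0)).2 ⟨rfl, h1⟩
    rw [hu0] at h2
    exact (congrArg Prod.fst h2).symm)
  obtain ⟨x₀, hx₀⟩ := D.nonempty
  obtain ⟨δ, hδ, hb⟩ := Metric.isOpen_iff.1 D.isOpen x₀ hx₀
  refine ⟨_, fun g => opNorm_bound hδ hb (M := max M 1) fun x hx => ?_⟩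
  -- the invariant subspace
  have h1 : ∀ v, (1 - e) (hatHom D.Γ g (e v)) = 0 := by
    intro v
    obtain ⟨h2, h3⟩ := (hr (e v)).1 (hee v)
    have h4 : hatHom D.Γ g (e v) = (g.1.linear (e v).1, 0) := by
      show hat g.1 (e v) = _
      rw [hat_apply, h2, zero_smul, add_zero]
    have h5 : g.1.linear (e v).1 ∈ V := by
      rw [← SetLike.mem_coe, hVR] at h3 ⊢
      exact rec_inv D g.2 h3
    have h6 := (hr (g.1.linear (e v).1, 0)).2 ⟨rfl, h5⟩
    rw [h4, sub_apply, one_apply_eq_self, h6, sub_self]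
  have h2 : ((1 - e) * hatHom D.Γ g * (1 - e)) (x, 1) = (1 - e) (hatHom D.Γ g (x, 1)) := by
    rw [mul_apply_eq_comp, mul_apply_eq_comp]
    have h3 : (1 - e) (x, 1) = (x, 1) - e (x, 1) := rfl
    rw [h3, map_sub, map_sub, h1, sub_zero]
  have h3 : hatHom D.Γ g (x, 1) = (g.1 x, 1) := by
    show hat g.1 (x, 1) = _
    rw [hat_apply, one_smul, ← aff_eq]
  have hgx := D.inv g.1 g.2 x hx
  obtain ⟨h4, h5⟩ := (hr (e (g.1 x, 1))).1 (hee _)
  have h6 : (1 - e) (g.1 x, (1 : ℝ)) = (g.1 x - (e (g.1 x, 1)).1, 1) := by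
    have h7 : (1 - e) (g.1 x, (1 : ℝ)) = (g.1 x, 1) - e (g.1 x, 1) := rfl
    rw [h7]
    ext
    · rfl
    · show (1 : ℝ) - (e (g.1 x, 1)).2 = 1
      rw [h4, sub_zero]
  have h7 : g.1 x - (e (g.1 x, 1)).1 ∈ D.X := by
    have := (hV _).1 h5 _ hgx (-1)
    rwa [neg_one_smul, ← sub_eq_add_neg] at this
  have h8 : e (g.1 x - (e (g.1 x, 1)).1, 1) = 0 := by
    rw [← h6]
    have h9 : (1 - e) (g.1 x, (1 : ℝ)) = (g.1 x, 1) - e (g.1 x, 1) := rfl
    rw [h9, map_sub, hee, sub_self]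
  rw [h2, h3, h6, Prod.norm_def]
  have h9 := hM _ h7 h8
  simp only [norm_one]
  exact max_le_max h9 le_rfl

/-- The recession cone has interior points in its span, and they form an invariant convex set. -/
theorem recInt_props (D : Geo E) : Convex ℝ (RecInt D.X) ∧ (RecInt D.X).Nonempty ∧
    (∀ g : D.Γ, ∀ u ∈ RecInt D.X, g.1.linear u ∈ RecInt D.X) ∧ RecInt D.X ⊆ Rec D.X ∧
    Lin D.X ⊆ Rec D.X := by
  refine ⟨?_, recInt_nonempty D.X, ?_, recInt_sub D.X, fun v hv x hx t _ => hv x hx t⟩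
  · rintro u ⟨δ, hδ, hu⟩ v ⟨δ', hδ', hv⟩ a b ha hb hab
    refine ⟨min δ δ', lt_min hδ hδ', fun w hw hwn => ?_⟩
    have h1 : a • u + b • v + w = a • (u + w) + b • (v + w) := by
      have h2 : w = (a + b) • w := by rw [hab, one_smul]
      conv_lhs => rw [h2]
      module
    rw [h1]
    exact rec_add (rec_smul (hu w hw (hwn.trans (min_le_left _ _))) ha)
      (rec_smul (hv w hw (hwn.trans (min_le_right _ _))) hb)
  · rintro g u ⟨δ, hδ, hu⟩
    let A : E →L[ℝ] E := LinearMap.toContinuousLinearMap (g.1.linear.symm : E →ₗ[ℝ] E)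
    have hA : ∀ w, A w = g.1.linear.symm w := fun w => rfl
    have hspan : ∀ w ∈ Submodule.span ℝ (Rec D.X), A w ∈ Submodule.span ℝ (Rec D.X) := by
      intro w hw
      have h1 : Submodule.span ℝ (Rec D.X) ≤
          (Submodule.span ℝ (Rec D.X)).comap (A : E →ₗ[ℝ] E) := by
        rw [Submodule.span_le]
        intro r hr
        exact Submodule.subset_span (rec_inv D (inv_mem g.2) hr)
      exact h1 hw
    refine ⟨δ / (‖A‖ + 1), by positivity, fun w hw hwn => ?_⟩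
    have h1 : ‖A w‖ ≤ δ := by
      have h2 := A.le_opNorm w
      have h3 : (0 : ℝ) ≤ ‖A‖ := norm_nonneg _
      calc ‖A w‖ ≤ ‖A‖ * ‖w‖ := h2
        _ ≤ (‖A‖ + 1) * (δ / (‖A‖ + 1)) :=
          mul_le_mul (by linarith) hwn (norm_nonneg _) (by positivity)
        _ = δ := by field_simp
    have h2 := rec_inv D g.2 (hu (A w) (hspan w hw) h1)
    have h3 : g.1.linear (u + A w) = g.1.linear u + w := by
      rw [map_add, hA, LinearEquiv.apply_symm_apply]
    rwa [h3] at h2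

end

end Pool.AF
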