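import Pool.Agent.Helper94.AF.Count

open Set Finset

set_option linter.unusedSectionVars false

namespace Pool.AF

/-! ## AF-14b SUMM: summability (uses `exists_count`) -/

theorem summable_of_grow {Γ R : Type*} [Group Γ] [NormedRing R] [NormedAlgebra ℝ R]
    [FiniteDimensional ℝ R] (τ : Γ →* R) (hd : Disc τ) (b : ℕ) :
    ∃ N₀ : ℕ, ∀ N ≥ N₀, ∀ s : Γ → ℝ, Grow τ s b → Summable (fun g => (s g)⁻¹ ^ N) := by
  classical
  obtain ⟨A, M, hA⟩ := exists_count τ hd
  refine ⟨b * M + 2, ?_⟩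
  intro N hN s hs
  obtain ⟨A', hA', hg⟩ := hs
  have hspos : ∀ g, 0 < s g := fun g => lt_of_lt_of_le (inv_pos.mpr hA') (hg g).1
  set A'' : ℝ := max A' 1 with hA''
  have hA1 : 1 ≤ A'' := le_max_right _ _
  have hA2 : A' ≤ A'' := le_max_left _ _
  set D : ℝ := |A| * A'' ^ M * (1 + A') ^ N with hD
  have hD0 : 0 ≤ D := by positivity
  have hsum0 : Summable (fun k : ℕ => (1 : ℝ) / ((k : ℝ) + 1) ^ 2) := by
    have h1 : Summable (fun k : ℕ => (1 : ℝ) / (k : ℝ) ^ 2) :=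
      Real.summable_one_div_nat_pow.mpr (by norm_num)
    have h2 := (summable_nat_add_iff 1).mpr h1
    refine h2.congr fun k => ?_
    push_cast
    rfl
  have hsum : Summable (fun k : ℕ => D * ((1 : ℝ) / ((k : ℝ) + 1) ^ 2)) := hsum0.mul_left D
  refine summable_of_sum_le (c := ∑' k : ℕ, D * ((1 : ℝ) / ((k : ℝ) + 1) ^ 2)) ?_ ?_
  · intro g
    have := hspos g
    positivity
  · intro u
    have hfib : ∀ k : ℕ, (((u.filter fun g => ⌊s g⌋₊ = k).card : ℕ) : ℝ) ≤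
        |A| * A'' ^ M * ((k : ℝ) + 1) ^ (b * M) := by
      intro k
      have hk1 : (1 : ℝ) ≤ (k : ℝ) + 1 := by
        have : (0 : ℝ) ≤ k := Nat.cast_nonneg k
        linarith
      have hC1 : 1 ≤ A'' * ((k : ℝ) + 1) ^ b :=
        one_le_mul_of_one_le_of_one_le hA1 (one_le_pow₀ hk1)
      have h1 := hA (A'' * ((k : ℝ) + 1) ^ b) hC1
      have h2 : ((u.filter fun g => ⌊s g⌋₊ = k : Finset Γ) : Set Γ) ⊆
          {g : Γ | ‖τ g‖ ≤ A'' * ((k : ℝ) + 1) ^ b ∧ ‖τ g⁻¹‖ ≤ A'' * ((k : ℝ) + 1) ^ b} := by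
        intro g hgu
        rw [Finset.mem_coe, Finset.mem_filter] at hgu
        have h3 : s g ≤ (k : ℝ) + 1 := by
          have := Nat.lt_floor_add_one (s g)
          rw [hgu.2] at this
          exact this.le
        have h4 : s g ^ b ≤ ((k : ℝ) + 1) ^ b := pow_le_pow_left₀ (hspos g).le h3 b
        have h5 : A' * s g ^ b ≤ A'' * ((k : ℝ) + 1) ^ b := by
          have := (hspos g).le
          gcongr
        exact ⟨(hg g).2.1.trans h5, (hg g).2.2.trans h5⟩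
      have h6 := Set.ncard_le_ncard h2 (hd _)
      rw [Set.ncard_coe_finset] at h6
      have h7 : (((u.filter fun g => ⌊s g⌋₊ = k).card : ℕ) : ℝ) ≤
          A * (A'' * ((k : ℝ) + 1) ^ b) ^ M := by
        refine le_trans ?_ h1
        exact_mod_cast h6
      refine h7.trans ?_
      have h8 : A * (A'' * ((k : ℝ) + 1) ^ b) ^ M ≤ |A| * (A'' * ((k : ℝ) + 1) ^ b) ^ M := by
        gcongr
        exact le_abs_self A
      refine h8.trans (le_of_eq ?_)
      rw [mul_pow, ← pow_mul, mul_assoc]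
    have hterm : ∀ g, (s g)⁻¹ ^ N ≤ ((1 + A') / ((⌊s g⌋₊ : ℝ) + 1)) ^ N := by
      intro g
      have hs0 := hspos g
      have hpos : (0 : ℝ) < (⌊s g⌋₊ : ℝ) + 1 := by positivity
      refine pow_le_pow_left₀ (inv_nonneg.mpr hs0.le) ?_ N
      rw [le_div_iff₀ hpos, inv_mul_le_iff₀ hs0]
      have h1 : (⌊s g⌋₊ : ℝ) ≤ s g := Nat.floor_le hs0.le
      have h2 : 1 ≤ s g * A' := by
        have := (hg g).1
        rw [inv_le_iff_one_le_mul₀ hA'] at this
        exact this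
      nlinarith
    calc ∑ g ∈ u, (s g)⁻¹ ^ N ≤ ∑ g ∈ u, ((1 + A') / ((⌊s g⌋₊ : ℝ) + 1)) ^ N :=
          Finset.sum_le_sum fun g _ => hterm g
      _ = ∑ k ∈ u.image (fun g => ⌊s g⌋₊), ∑ g ∈ u with ⌊s g⌋₊ = k,
            ((1 + A') / ((⌊s g⌋₊ : ℝ) + 1)) ^ N :=
          (Finset.sum_fiberwise_of_maps_to (fun g hg => Finset.mem_image_of_mem _ hg) _).symm
      _ ≤ ∑ k ∈ u.image (fun g => ⌊s g⌋₊), D * ((1 : ℝ) / ((k : ℝ) + 1) ^ 2) := by
          refine Finset.sum_le_sum fun k _ => ?_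
          have hk1 : (1 : ℝ) ≤ (k : ℝ) + 1 := by
            have : (0 : ℝ) ≤ k := Nat.cast_nonneg k
            linarith
          have hk0 : (0 : ℝ) < (k : ℝ) + 1 := by linarith
          have h1 : ∑ g ∈ u with ⌊s g⌋₊ = k, ((1 + A') / ((⌊s g⌋₊ : ℝ) + 1)) ^ N =
              ((u.filter fun g => ⌊s g⌋₊ = k).card : ℝ) * ((1 + A') / ((k : ℝ) + 1)) ^ N := by
            rw [← nsmul_eq_mul, ← Finset.sum_const]
            refine Finset.sum_congr rfl fun g hgu => ?_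
            rw [Finset.mem_filter] at hgu
            rw [hgu.2]
          rw [h1]
          have h2 : ((k : ℝ) + 1) ^ (b * M) * ((1 : ℝ) / ((k : ℝ) + 1)) ^ N ≤
              1 / ((k : ℝ) + 1) ^ 2 := by
            rw [div_pow, one_pow, mul_one_div, div_le_div_iff₀ (by positivity) (by positivity),
              one_mul, ← pow_add]
            exact pow_le_pow_right₀ hk1 hN
          calc ((u.filter fun g => ⌊s g⌋₊ = k).card : ℝ) * ((1 + A') / ((k : ℝ) + 1)) ^ N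
              ≤ (|A| * A'' ^ M * ((k : ℝ) + 1) ^ (b * M)) * ((1 + A') / ((k : ℝ) + 1)) ^ N := by
                gcongr
                exact hfib k
            _ = D * (((k : ℝ) + 1) ^ (b * M) * ((1 : ℝ) / ((k : ℝ) + 1)) ^ N) := by
                rw [hD, div_pow, div_pow, one_pow]; ring
            _ ≤ D * (1 / ((k : ℝ) + 1) ^ 2) := by gcongr
      _ ≤ ∑' k : ℕ, D * ((1 : ℝ) / ((k : ℝ) + 1) ^ 2) :=
          hsum.sum_le_tsum _ (fun k _ => by positivity)

end Pool.AF
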