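import Pool.Agent.Helper94.AF.Crit
import Pool.Agent.Helper94.AF.Fam
import Pool.Agent.Helper94.AF.Equi
import Pool.Agent.Helper94.AF.FamA
import Pool.Agent.Helper94.AF.FamB
import Pool.Agent.Helper94.AF.FlagTau
import Pool.Agent.Helper94.AF.Summ
import Pool.Agent.Helper94.AF.RecI
import Pool.Agent.Helper94.AF.BlkP
import Pool.Agent.Helper94.AF.BlkC
import Pool.Agent.Helper94.AF.BlkT
import Pool.Agent.Helper94.AF.Grow

open Set Finset

set_option linter.unusedSectionVars false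

namespace Pool.AF

open Pool.SV

section

variable {E : Type*} [NormedAddCommGroup E] [NormedSpace ℝ E] [FiniteDimensional ℝ E]

/-- The linear part as a representation. -/
noncomputable def linHom (D : Geo E) : D.Γ →* (E →ₗ[ℝ] E) where
  toFun g := (g.1.linear : E →ₗ[ℝ] E)
  map_one' := rfl
  map_mul' _ _ := rfl

/-- The blocks of the flag. -/
theorem exists_blocks (D : Geo E) (r : ℕ) (F : ℕ → Submodule ℝ E) (e : ℕ → Alg E)
    (he : Adapted r F e) (hinv : ∀ i ≤ r, ∀ g ∈ D.Γ, ∀ v ∈ F i, g.linear v ∈ F i)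
    (hF : ∀ i < r, F i < F (i + 1))
    (hT : ∀ i < r, QuadType D.Γ (F i) (F (i + 1)) 1 ∨ ConeType D.Γ (F i) (F (i + 1))) :
    ∃ (c : ℕ → D.Γ → ℝ) (Q : Fin r → Blk D.Γ) (b : ℕ), (∀ i < r, PosMul (c i)) ∧
      (∀ i : Fin r, (Q i).d - 1 + Module.finrank ℝ (F i) ≤ Module.finrank ℝ (F (i + 1))) ∧
      (∀ i : Fin r, (QuadType D.Γ (F i) (F (i + 1)) 0 ∨ ConeType D.Γ (F i) (F (i + 1))) →
        (Q i).d - 1 + Module.finrank ℝ (F i) < Module.finrank ℝ (F (i + 1))) ∧
      ∀ i : Fin r, ∀ v ∈ (Q i).C, Grow (cut (hatHom D.Γ) (e (i + 1) - e i) (c i))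
        (fun g => (Q i).ev g v) b := by
  classical
  have key : ∀ i : Fin r, ∃ (c : D.Γ → ℝ) (Q : Blk D.Γ) (b : ℕ), PosMul c ∧
      (Q.d - 1 + Module.finrank ℝ (F i) ≤ Module.finrank ℝ (F (i + 1))) ∧
      ((QuadType D.Γ (F i) (F (i + 1)) 0 ∨ ConeType D.Γ (F i) (F (i + 1))) →
        Q.d - 1 + Module.finrank ℝ (F i) < Module.finrank ℝ (F (i + 1))) ∧
      ∀ v ∈ Q.C, Grow (cut (hatHom D.Γ) (e (i + 1) - e i) c) (fun g => Q.ev g v) b := by
    rintro ⟨i, hi⟩
    have hlt := hF i hi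
    have hlt' : Module.finrank ℝ (F i) < Module.finrank ℝ (F (i + 1)) :=
      Submodule.finrank_lt_finrank_of_lt hlt
    have hi' : i + 1 ≤ r := hi
    by_cases hs : QuadType D.Γ (F i) (F (i + 1)) 0 ∨ ConeType D.Γ (F i) (F (i + 1))
    · have h0 : ∃ (c : D.Γ → ℝ) (Q : Blk D.Γ) (b : ℕ), PosMul c ∧
          (Q.d + Module.finrank ℝ (F i) ≤ Module.finrank ℝ (F (i + 1))) ∧
          ∀ v ∈ Q.C, Grow (cut (hatHom D.Γ) (e (i + 1) - e i) c) (fun g => Q.ev g v) b := by
        rcases hs with hs | hs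
        · exact blk_quad D (F i) (F (i + 1)) hlt (hinv i hi.le) (hinv _ hi') 0 hs (e i)
            (e (i + 1)) (he.idem i hi.le) (he.idem _ hi') (he.range i hi.le) (he.range _ hi')
            (he.up i hi) (he.down i hi)
        · exact blk_cone D (F i) (F (i + 1)) hlt (hinv i hi.le) (hinv _ hi') hs (e i)
            (e (i + 1)) (he.idem i hi.le) (he.idem _ hi') (he.range i hi.le) (he.range _ hi')
            (he.up i hi) (he.down i hi)
      obtain ⟨c, Q, b, h1, h2, h3⟩ := h0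
      refine ⟨c, Q, b, h1, ?_, fun _ => ?_, h3⟩
      · change Q.d - 1 + Module.finrank ℝ (F i) ≤ Module.finrank ℝ (F (i + 1))
        omega
      · change Q.d - 1 + Module.finrank ℝ (F i) < Module.finrank ℝ (F (i + 1))
        omega
    · rcases hT i hi with hq | hq
      · obtain ⟨c, Q, b, h1, h2, h3⟩ := blk_quad D (F i) (F (i + 1)) hlt (hinv i hi.le)
          (hinv _ hi') 1 hq (e i) (e (i + 1)) (he.idem i hi.le) (he.idem _ hi')
          (he.range i hi.le) (he.range _ hi') (he.up i hi) (he.down i hi)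
        refine ⟨c, Q, b, h1, ?_, fun h => absurd h hs, h3⟩
        change Q.d - 1 + Module.finrank ℝ (F i) ≤ Module.finrank ℝ (F (i + 1))
        omega
      · exact absurd (Or.inr hq) hs
  choose c Q b h1 h2 h3 h4 using key
  refine ⟨fun i => if h : i < r then c ⟨i, h⟩ else 1, Q, ∑ i, b i, ?_, h2, h3, ?_⟩
  · intro i hi
    simp only [hi, ↓reduceDIte]
    exact h1 _
  · intro i v hv
    have h5 := h4 i v hv
    simp only [i.2, ↓reduceDIte]
    exact h5.mono (Finset.single_le_sum (f := b) (fun _ _ => Nat.zero_le _) (Finset.mem_univ i))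

/-- The dimension count. -/
theorem sum_dim (r : ℕ) (F : ℕ → Submodule ℝ E) (d : Fin r → ℕ)
    (h : ∀ i : Fin r, d i - 1 + Module.finrank ℝ (F i) ≤ Module.finrank ℝ (F (i + 1))) :
    ∑ i, (d i - 1) ≤ Module.finrank ℝ (F r) ∧
    ((∃ i : Fin r, d i - 1 + Module.finrank ℝ (F i) < Module.finrank ℝ (F (i + 1))) →
      ∑ i, (d i - 1) < Module.finrank ℝ (F r)) := by
  have key : ∀ k ≤ r, ∑ i ∈ Finset.range k, (if h : i < r then d ⟨i, h⟩ - 1 else 0) ≤
      Module.finrank ℝ (F k) ∧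
      ((∃ i : Fin r, (i : ℕ) < k ∧
        d i - 1 + Module.finrank ℝ (F i) < Module.finrank ℝ (F (i + 1))) →
        ∑ i ∈ Finset.range k, (if h : i < r then d ⟨i, h⟩ - 1 else 0) <
          Module.finrank ℝ (F k)) := by
    intro k
    induction k with
    | zero =>
      intro _
      refine ⟨by simp, ?_⟩
      rintro ⟨i, hi, _⟩
      exact absurd hi (Nat.not_lt_zero _)
    | succ k ih =>
      intro hk
      have hk' : k < r := hk
      obtain ⟨h1, h2⟩ := ih hk'.le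
      have h3 := h ⟨k, hk'⟩
      have h3' : d ⟨k, hk'⟩ - 1 + Module.finrank ℝ (F k) ≤ Module.finrank ℝ (F (k + 1)) := h3
      rw [Finset.sum_range_succ, dif_pos hk']
      refine ⟨by omega, ?_⟩
      rintro ⟨i, hi, hi2⟩
      by_cases hik : (i : ℕ) = k
      · have h4 : i = ⟨k, hk'⟩ := Fin.ext hik
        subst h4
        have hi3 : d ⟨k, hk'⟩ - 1 + Module.finrank ℝ (F k) < Module.finrank ℝ (F (k + 1)) := hi2
        omega
      · have h5 := h2 ⟨i, by omega, hi2⟩
        omega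
  have hsum : ∑ i, (d i - 1) =
      ∑ i ∈ Finset.range r, (if h : i < r then d ⟨i, h⟩ - 1 else 0) := by
    rw [Finset.sum_range]
    refine Finset.sum_congr rfl fun i _ => ?_
    simp [i.2]
  obtain ⟨h1, h2⟩ := key r le_rfl
  rw [hsum]
  refine ⟨h1, ?_⟩
  rintro ⟨i, hi⟩
  exact h2 ⟨i, i.2, hi⟩

theorem vanish_of_coneFlag (D : Geo E) (hpos : 0 < Module.finrank ℝ E)
    (hcc : ∃ K ⊆ D.X, IsCompact K ∧ ∀ x ∈ D.X, ∃ g ∈ D.Γ, g x ∈ K)
    (hflag : ConeFlag D.Γ D.X) : Vanish D := by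
  classical
  obtain ⟨r, F, h0, hr, hF, hcomp⟩ := hflag
  have hinv : ∀ i ≤ r, ∀ g ∈ D.Γ, ∀ v ∈ F i, g.linear v ∈ F i := by
    intro i hi g hg v hv
    cases i with
    | zero =>
      rw [h0, Submodule.mem_bot] at hv ⊢
      rw [hv, map_zero]
    | succ i => exact (hF i hi).2.1 g hg v hv
  obtain ⟨e, he⟩ := exists_adapted r F (fun i hi => (hF i hi).1.le)
  obtain ⟨c, Q, b, hc, hd1, hd2, hgrow⟩ := exists_blocks D r F e he hinv (fun i hi => (hF i hi).1)
    (fun i hi => (hF i hi).2.2)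
  rcases flag_tau D r F h0 e he hinv c hc with hab | ⟨τ, hτ, hdisc⟩
  · exact vanish_of_hasAbNormal D hpos hab hcc
  obtain ⟨hs1, hs2⟩ := sum_dim r F (fun i => (Q i).d) hd1
  have hV : ∀ v, v ∈ F r ↔ v ∈ Lin D.X := hr
  -- the equivariant maps into the cones
  have hv : ∀ i : Fin r, ∃ v : E → (Fin (Q i).d → ℝ), ContDiffOn ℝ 2 v D.X ∧
      (∀ x ∈ D.X, v x ∈ (Q i).C) ∧ ∀ g : D.Γ, ∀ x ∈ D.X, v (g.1 x) = (Q i).ρ g (v x) :=
    fun i => exists_equi D hcc (Q i).ρ (Q i).C (Q i).convex (Q i).nonempty (Q i).inv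
  choose v hv1 hv2 hv3 using hv
  by_cases hVR : (F r : Set E) = Rec D.X
  · -- the domain is bounded modulo the lineality space
    obtain ⟨R, hR⟩ := top_bounded D (F r) hV (e r) (he.idem r le_rfl) (he.range r le_rfl) hVR
    have hT₀ : Grow (fun g : D.Γ => (1 - e r) * hatHom D.Γ g * (1 - e r)) (fun _ => (1 : ℝ)) b := by
      refine ⟨|R| + 1, by positivity, fun g => ⟨?_, ?_, ?_⟩⟩
      · apply inv_le_one_of_one_le₀
        linarith [abs_nonneg R]
      · rw [one_pow, mul_one]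
        exact (hR g).trans ((le_abs_self R).trans (by linarith))
      · rw [one_pow, mul_one]
        exact (hR g⁻¹).trans ((le_abs_self R).trans (by linarith))
    obtain ⟨N, hN⟩ := summable_of_grow τ hdisc b
    have hsum : ∀ x ∈ D.X, Summable (fun g : D.Γ => ∏ i, ((Q i).ev g (v i x))⁻¹ ^ N) := by
      intro x hx
      have h1 := grow_sum r (fun i => cut (hatHom D.Γ) (e (i + 1) - e i) (c i))
        (fun g : D.Γ => (1 - e r) * hatHom D.Γ g * (1 - e r))
        (fun i g => (Q i).ev g (v i x)) (fun _ => (1 : ℝ)) b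
        (fun i => hgrow i (v i x) (hv2 i x hx)) hT₀
      have h2 : Grow τ (fun g => 1 * ∏ i, (Q i).ev g (v i x)) b := by
        have h3 : (τ : D.Γ → Alg E) = fun g => ∑ i ∈ Finset.range r,
            cut (hatHom D.Γ) (e (i + 1) - e i) (c i) g +
            (1 - e r) * hatHom D.Γ g * (1 - e r) := funext hτ
        rw [h3]
        exact h1
      have h4 := hN N le_rfl _ h2
      refine h4.congr fun g => ?_
      rw [one_mul, ← Finset.prod_inv_distrib, Finset.prod_pow]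
    have hdim : ∑ i, ((Q i).d - 1) < Module.finrank ℝ E := by
      by_cases hX : D.X = Set.univ
      · obtain ⟨i, hi, hi2⟩ := hcomp hX
        exact (hs2 ⟨⟨i, hi⟩, hd2 ⟨i, hi⟩ hi2⟩).trans_le (Submodule.finrank_le _)
      · refine hs1.trans_lt (Submodule.finrank_lt ?_)
        intro htop
        apply hX
        obtain ⟨x, hx⟩ := D.nonempty
        rw [Set.eq_univ_iff_forall]
        intro y
        have h5 : y - x ∈ F r := by rw [htop]; exact Submodule.mem_top
        have h6 := (hr _).mp h5 x hx 1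
        rwa [one_smul, add_sub_cancel] at h6
    refine vanish_of_goodPart D hpos fun K hKX hK hKc => ?_
    obtain ⟨C, hC, hfam⟩ := fam_B D K hK hKX hKc r Q v hv1 hv2 hv3 N hsum hdim
    exact goodPart_of_family D K hKX (Fin r) N C hC hfam
  · -- the recession cone is larger than the lineality space
    obtain ⟨hRc, hRn, hRi, _, _⟩ := recInt_props D
    obtain ⟨ee, he1, he2, he3⟩ := exists_equi D hcc (linHom D) (RecInt D.X) hRc hRn
      (fun g u hu => hRi g u hu)
    obtain ⟨cT, ξ, bT, hcT, hξV, hξ, hξR, hgT⟩ := blk_top D (F r) hV (e r) (he.idem r le_rfl)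
      (he.range r le_rfl)
    obtain ⟨N, hN⟩ := summable_of_grow τ hdisc (b + bT)
    have hsum : ∀ x ∈ D.X, ∀ y ∈ D.X, Summable (fun g : D.Γ =>
        (cT g * ξ (hatHom D.Γ g⁻¹ (y, 1)))⁻¹ ^ N * ∏ i, ((Q i).ev g (v i x))⁻¹ ^ N) := by
      intro x hx y hy
      have h1 := grow_sum r (fun i => cut (hatHom D.Γ) (e (i + 1) - e i) (c i))
        (fun g : D.Γ => (1 - e r) * hatHom D.Γ g * (1 - e r))
        (fun i g => (Q i).ev g (v i x)) (fun g => cT g * ξ (hatHom D.Γ g⁻¹ (y, 1))) (b + bT)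
        (fun i => (hgrow i (v i x) (hv2 i x hx)).mono (Nat.le_add_right _ _))
        ((hgT y hy).mono (Nat.le_add_left _ _))
      have h2 : Grow τ (fun g => cT g * ξ (hatHom D.Γ g⁻¹ (y, 1)) *
          ∏ i, (Q i).ev g (v i x)) (b + bT) := by
        have h3 : (τ : D.Γ → Alg E) = fun g => ∑ i ∈ Finset.range r,
            cut (hatHom D.Γ) (e (i + 1) - e i) (c i) g +
            (1 - e r) * hatHom D.Γ g * (1 - e r) := funext hτ
        rw [h3]
        exact h1
      have h4 := hN N le_rfl _ h2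
      refine h4.congr fun g => ?_
      rw [mul_inv, mul_pow, ← Finset.prod_inv_distrib, Finset.prod_pow]
    refine vanish_of_goodPart D hpos fun K hKX hK hKc => ?_
    obtain ⟨C, hC, hfam⟩ := fam_A D K hK hKX hKc r Q v hv1 hv2 hv3 ee he1 he2 he3 (F r) hV hVR
      cT hcT ξ hξV hξ hξR N hsum hs1
    exact goodPart_of_family D K hKX (Option (Fin r)) N C hC hfam

/-- The statement with a subgroup of finite index. -/
theorem vanish_of_virtual_coneFlag (D : Geo E) (hpos : 0 < Module.finrank ℝ E)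
    (hcc : ∃ K ⊆ D.X, IsCompact K ∧ ∀ x ∈ D.X, ∃ g ∈ D.Γ, g x ∈ K)
    (Γ₁ : Subgroup (E ≃ᵃ[ℝ] E)) (hΓ₁ : Γ₁ ≤ D.Γ) (hfin : Γ₁.relIndex D.Γ ≠ 0)
    (hflag : ConeFlag Γ₁ D.X) : Vanish D := by
  have heq : (geoSub D (Γ₁.subgroupOf D.Γ)).Γ = Γ₁ := by
    change (Γ₁.subgroupOf D.Γ).map D.Γ.subtype = Γ₁
    rw [Subgroup.map_subgroupOf_eq_of_le hΓ₁]
  have hfi : (Γ₁.subgroupOf D.Γ).FiniteIndex := ⟨hfin⟩
  have hV : Vanish (geoSub D (Γ₁.subgroupOf D.Γ)) := by
    refine vanish_of_coneFlag _ hpos (cocompact_geoSub D _ hcc) ?_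
    rw [heq]
    exact hflag
  refine vanish_transfer D (geoSub D (Γ₁.subgroupOf D.Γ)) (Subgroup.map_subtype_le _) ?_
    subset_rfl hV
  rw [relIndex_geoSub]
  exact hfin

end

end Pool.AF
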