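import Pool.Agent.Helper94.AF.Stmt
import Pool.Agent.Helper94.AF.Main
import Pool.Agent.Helper84.SV.Final

set_option autoImplicit false

open Set

namespace Pool.AF

open Pool.SV

/-- The domain with its group. -/
def geoOf {n : ℕ} {Γ : Subgroup (Aff (n + 1))} {X : Set (EuclideanSpace ℝ (Fin (n + 1)))}
    (hX : Divides Γ X) : Geo (EuclideanSpace ℝ (Fin (n + 1))) where
  Γ := Γ
  X := X
  isOpen := hX.isOpen
  convex := hX.convex
  nonempty := hX.nonempty
  inv := hX.inv
  free := hX.free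
  pd := fun K hK hc => hX.pd K hK hc

/-- From the vanishing of the bounded classes to the seminorm of cycles. -/
theorem zeroSeminorm_of_vanish (n : ℕ) {Γ : Subgroup (Aff (n + 1))}
    {X : Set (EuclideanSpace ℝ (Fin (n + 1)))} (hX : Divides Γ X) (hV : Vanish (geoOf hX))
    (M : Type*) [TopologicalSpace M] (π : X → M) (hπ : IsOrbitSpace Γ X M π) :
    ZeroSeminorm M n := by
  have hrank : Module.finrank ℝ (EuclideanSpace ℝ (Fin (n + 1))) = n + 1 := by
    simp
  intro z hz ε hε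
  refine of_vanish (geoOf hX) hV M π hπ.quot ?_ n hrank z hz ε hε
  intro x y
  rw [hπ.fib]
  constructor
  · rintro ⟨g, hg, h⟩
    exact ⟨⟨g, hg⟩, Subtype.ext h⟩
  · rintro ⟨g, h⟩
    exact ⟨g.1, g.2, congrArg Subtype.val h⟩

theorem resAF (n : ℕ) (Γ : Subgroup (Aff (n + 1))) (X : Set (EuclideanSpace ℝ (Fin (n + 1))))
    (hX : Divides Γ X) (hflag : VirtuallyConeFlag Γ X) (M : Type*)
    [TopologicalSpace M] (π : X → M) (hπ : IsOrbitSpace Γ X M π) : ZeroSeminorm M n := by
  obtain ⟨Γ₁, hle, hfin, hF⟩ := hflag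
  have hrank : Module.finrank ℝ (EuclideanSpace ℝ (Fin (n + 1))) = n + 1 := by
    simp
  exact zeroSeminorm_of_vanish n hX (vanish_of_virtual_coneFlag (geoOf hX)
    (by rw [hrank]; omega) hX.cocompact Γ₁ hle hfin hF) M π hπ

end Pool.AF
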