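import Pool.Agent.Helper94.AF.Defs

open Set Finset

set_option linter.unusedSectionVars false

namespace Pool.AF

open Pool.SV

/-! ## AF-1 ALT: the alternating estimate -/

namespace AltAux

/-- The `l¹` norm. -/
noncomputable def n1 {S : Type*} [Fintype S] (m : S → ℝ) : ℝ := ∑ s, |m s|

theorem n1_nonneg {S : Type*} [Fintype S] (m : S → ℝ) : 0 ≤ n1 m :=
  Finset.sum_nonneg fun _ _ => abs_nonneg _

theorem n1_add {S : Type*} [Fintype S] (m m' : S → ℝ) : n1 (m + m') ≤ n1 m + n1 m' := by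
  unfold n1
  rw [← Finset.sum_add_distrib]
  exact Finset.sum_le_sum fun s _ => abs_add_le _ _

/-- Change of all the arguments of an alternating form. -/
theorem tele {S : Type*} [Fintype S] {n : ℕ} (Ψ : (S → ℝ) [⋀^Fin n]→ₗ[ℝ] ℝ) {B : ℝ}
    (hB : 0 ≤ B) (hΨ : ∀ m : Fin n → S → ℝ, |Ψ m| ≤ B * ∏ i, n1 (m i)) (p q : Fin n → S → ℝ)
    {a d : ℝ} (hd : 0 ≤ d) (hp : ∀ i, n1 (p i) ≤ a) (hq : ∀ i, n1 (q i) ≤ a)
    (hpq : ∀ i, n1 (p i - q i) ≤ d) :
    |Ψ p - Ψ q| ≤ n * (B * (d * a ^ (n - 1))) := by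
  classical
  have key : ∀ s : Finset (Fin n),
      |Ψ p - Ψ (fun i => if i ∈ s then q i else p i)| ≤ s.card * (B * (d * a ^ (n - 1))) := by
    intro s
    induction s using Finset.induction_on with
    | empty => simp
    | insert i s hi ih =>
      set y : Fin n → S → ℝ := fun i => if i ∈ s then q i else p i with hy
      have e1 : (fun j => if j ∈ insert i s then q j else p j) = Function.update y i (q i) := by
        funext j
        by_cases hj : j = i
        · subst hj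
          simp
        · rw [Function.update_of_ne hj]
          simp [Finset.mem_insert, hj, hy]
      have e2 : y = Function.update y i (p i) := by
        symm
        rw [Function.update_eq_self_iff]
        simp [hi, hy]
      have e3 : Ψ y - Ψ (Function.update y i (q i)) = Ψ (Function.update y i (p i - q i)) := by
        rw [AlternatingMap.map_update_sub, ← e2]
      have e4 : |Ψ (Function.update y i (p i - q i))| ≤ B * (d * a ^ (n - 1)) := by
        refine (hΨ _).trans (mul_le_mul_of_nonneg_left ?_ hB)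
        rw [← Finset.mul_prod_erase Finset.univ _ (Finset.mem_univ i), Function.update_self]
        refine mul_le_mul (hpq i) ?_ (Finset.prod_nonneg fun j _ => n1_nonneg _) hd
        have h1 : ∏ j ∈ Finset.univ.erase i, n1 (Function.update y i (p i - q i) j) ≤
            ∏ j ∈ Finset.univ.erase i, a := by
          refine Finset.prod_le_prod (fun j _ => n1_nonneg _) fun j hj => ?_
          rw [Function.update_of_ne (Finset.ne_of_mem_erase hj)]
          simp only [hy]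
          split_ifs
          · exact hq j
          · exact hp j
        rw [Finset.prod_const, Finset.card_erase_of_mem (Finset.mem_univ i), Finset.card_univ,
          Fintype.card_fin] at h1
        exact h1
      rw [e1, Finset.card_insert_of_notMem hi]
      have e5 : Ψ p - Ψ (Function.update y i (q i)) =
          (Ψ p - Ψ y) + (Ψ y - Ψ (Function.update y i (q i))) := by ring
      rw [e5, e3]
      refine (abs_add_le _ _).trans ?_
      push_cast
      rw [add_mul, one_mul]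
      exact add_le_add ih e4
  have h := key Finset.univ
  simpa using h

end AltAux

open AltAux

/-- An alternating `(n+1)`-form on `n`-dimensional families: estimate of order `n` with a small
constant and of order `n + 1`. -/
theorem alt_est {E : Type*} [NormedAddCommGroup E] [NormedSpace ℝ E] [FiniteDimensional ℝ E]
    (n : ℕ) (hn : Module.finrank ℝ E = n) (hn0 : 0 < n) {S : Type*} [Fintype S]
    (Φ : (S → ℝ) [⋀^Fin (n + 1)]→ₗ[ℝ] ℝ) (B : ℝ) (hB : 0 ≤ B)
    (hΦ : ∀ m : Fin (n + 1) → S → ℝ, |Φ m| ≤ B * ∏ i, ∑ s, |m i s|)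
    (K : Set E) (R : ℝ) (hR : ∀ x ∈ K, ∀ y ∈ K, ‖y - x‖ ≤ R) (C ε C' : ℝ) (hC : 0 ≤ C)
    (hε : 0 ≤ ε) (hC' : 0 ≤ C') (P : E → S → ℝ) (P' : E → S → (E →ₗ[ℝ] ℝ))
    (h0 : ∀ x ∈ K, ∑ s, |P x s| ≤ 1)
    (h1 : ∀ x ∈ K, ∀ u, ∑ s, |P' x s u| ≤ C * ‖u‖)
    (h2 : ∀ x ∈ K, ∃ u, ‖u‖ = 1 ∧ ∑ s, |P' x s u| ≤ ε)
    (h3 : ∀ x ∈ K, ∀ y ∈ K, ∑ s, |P y s - P x s - P' x s (y - x)| ≤ C' * ‖y - x‖ ^ 2)
    (x : Fin (n + 1) → E) (hx : ∀ i, x i ∈ K) :
    |Φ (fun i => P (x i))| ≤
      B * (n * 2 ^ n * ε * C ^ (n - 1)) * (tv (List.ofFn x)) ^ n +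
      B * (2 ^ n * C' * (C + C' * R) ^ (n - 1)) * (tv (List.ofFn x)) ^ (n + 1) := by
  classical
  set t := tv (List.ofFn x) with ht
  have ht0 : 0 ≤ t := Rank.tv_nonneg _
  have hxK := hx 0
  have hR0 : 0 ≤ R := by
    have := hR _ hxK _ hxK
    rwa [sub_self, norm_zero] at this
  set h : Fin n → E := fun i => x i.succ - x 0 with hh
  have hht : ∀ i, ‖h i‖ ≤ t := by
    intro i
    have e : List.ofFn x = x 0 :: List.ofFn (fun i : Fin n => x i.succ) := List.ofFn_succ
    rw [ht, e]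
    exact Rank.norm_le_tv _ _ _ (List.mem_ofFn.2 ⟨i, rfl⟩)
  have hhR : ∀ i, ‖h i‖ ≤ R := fun i => hR _ hxK _ (hx _)
  -- the form in `n` variables
  set Ψ : (S → ℝ) [⋀^Fin n]→ₗ[ℝ] ℝ := Φ.curryLeft (P (x 0)) with hΨdef
  have hΨ : ∀ m : Fin n → S → ℝ, |Ψ m| ≤ B * ∏ i, n1 (m i) := by
    intro m
    have e : Ψ m = Φ (Matrix.vecCons (P (x 0)) m) := rfl
    rw [e]
    refine (hΦ _).trans (mul_le_mul_of_nonneg_left ?_ hB)
    rw [Fin.prod_univ_succ]
    have e1 : ∏ i : Fin n, ∑ s, |Matrix.vecCons (P (x 0)) m i.succ s| = ∏ i, n1 (m i) := rfl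
    rw [e1]
    have e2 : (∑ s, |Matrix.vecCons (P (x 0)) m 0 s|) ≤ 1 := h0 _ hxK
    exact mul_le_of_le_one_left (Finset.prod_nonneg fun i _ => n1_nonneg _) e2
  set L : E →ₗ[ℝ] (S → ℝ) := LinearMap.pi (fun s => P' (x 0) s) with hL
  have hL1 : ∀ u, n1 (L u) ≤ C * ‖u‖ := fun u => h1 _ hxK u
  set Q : Fin n → S → ℝ := fun i => P (x i.succ) - P (x 0) with hQ
  have eΦ : Φ (fun i => P (x i)) = Ψ Q := by
    have e : (fun i => P (x i)) = Matrix.vecCons (P (x 0)) (fun i : Fin n => P (x i.succ)) := by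
      funext i
      refine Fin.cases ?_ (fun j => ?_) i
      · rfl
      · rfl
    rw [e, Rank.alt_sub]
    rfl
  have hQL : ∀ i, n1 (Q i - L (h i)) ≤ C' * ‖h i‖ ^ 2 := fun i => h3 _ hxK _ (hx _)
  -- first comparison
  have hT := mul_nonneg hC' hR0
  have c1 := tele Ψ hB hΨ Q (fun i => L (h i)) (a := (C + C' * R) * t) (d := C' * t ^ 2)
    (by positivity) (fun i => ?_) (fun i => ?_) (fun i => ?_)
  rotate_left
  · have e : Q i = (Q i - L (h i)) + L (h i) := by abel
    rw [e]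
    refine (n1_add _ _).trans ?_
    have g1 := hQL i
    have g2 := hL1 (h i)
    have g3 : ‖h i‖ ^ 2 ≤ R * ‖h i‖ := by
      rw [sq]
      exact mul_le_mul_of_nonneg_right (hhR i) (norm_nonneg _)
    have g4 : C' * ‖h i‖ ^ 2 ≤ C' * (R * ‖h i‖) := mul_le_mul_of_nonneg_left g3 hC'
    have g5 : (C + C' * R) * ‖h i‖ ≤ (C + C' * R) * t :=
      mul_le_mul_of_nonneg_left (hht i) (by positivity)
    linarith
  · have g2 := hL1 (h i)
    have g5 : C * ‖h i‖ ≤ C * t := mul_le_mul_of_nonneg_left (hht i) hC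
    have g6 : 0 ≤ C' * R * t := by positivity
    linarith
  · refine (hQL i).trans (mul_le_mul_of_nonneg_left ?_ hC')
    exact pow_le_pow_left₀ (norm_nonneg _) (hht i) 2
  -- the direction
  obtain ⟨u, hu1, hu2⟩ := h2 _ hxK
  have hu0 : u ≠ 0 := by
    rintro rfl
    rw [norm_zero] at hu1
    exact zero_ne_one hu1
  obtain ⟨f, hf1, hf2⟩ := exists_dual_vector ℝ u (norm_ne_zero_iff.2 hu0)
  rw [hu1] at hf2
  have hf2' : f u = 1 := by simpa using hf2
  set h' : Fin n → E := fun i => h i - f (h i) • u with hh'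
  have hfh : ∀ i, |f (h i)| ≤ ‖h i‖ := by
    intro i
    have := f.le_opNorm (h i)
    rwa [hf1, one_mul, Real.norm_eq_abs] at this
  have hh'n : ∀ i, ‖h' i‖ ≤ 2 * t := by
    intro i
    refine (norm_sub_le _ _).trans ?_
    rw [norm_smul, hu1, mul_one, Real.norm_eq_abs]
    have := hfh i
    have := hht i
    linarith
  have c2 := tele Ψ hB hΨ (fun i => L (h i)) (fun i => L (h' i)) (a := 2 * C * t) (d := t * ε)
    (by positivity) (fun i => ?_) (fun i => ?_) (fun i => ?_)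
  rotate_left
  · have g2 := hL1 (h i)
    have g5 : C * ‖h i‖ ≤ C * t := mul_le_mul_of_nonneg_left (hht i) hC
    have g6 : 0 ≤ C * t := by positivity
    linarith
  · have g2 := hL1 (h' i)
    have g5 : C * ‖h' i‖ ≤ C * (2 * t) := mul_le_mul_of_nonneg_left (hh'n i) hC
    linarith
  · have e : L (h i) - L (h' i) = f (h i) • L u := by
      rw [← map_sub, ← map_smul]
      congr 1
      simp only [hh']
      abel
    rw [e]
    have e2 : n1 (f (h i) • L u) = |f (h i)| * n1 (L u) := by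
      unfold n1
      rw [Finset.mul_sum]
      refine Finset.sum_congr rfl fun s _ => ?_
      rw [Pi.smul_apply, smul_eq_mul, abs_mul]
    rw [e2]
    exact mul_le_mul ((hfh i).trans (hht i)) hu2 (n1_nonneg _) ht0
  -- the last term vanishes
  have hz : Ψ (fun i => L (h' i)) = 0 := by
    apply AlternatingMap.map_linearDependent
    intro hli
    have hli2 : LinearIndependent ℝ h' := LinearIndependent.of_comp L hli
    have hmem : ∀ i, h' i ∈ LinearMap.ker (f : E →ₗ[ℝ] ℝ) := by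
      intro i
      rw [LinearMap.mem_ker]
      show f (h i - f (h i) • u) = 0
      rw [map_sub, map_smul, hf2', smul_eq_mul, mul_one, sub_self]
    have hli3 : LinearIndependent ℝ
        (fun i => (⟨h' i, hmem i⟩ : LinearMap.ker (f : E →ₗ[ℝ] ℝ))) := by
      apply LinearIndependent.of_comp (LinearMap.ker (f : E →ₗ[ℝ] ℝ)).subtype
      exact hli2
    have g1 := hli3.fintype_card_le_finrank
    rw [Fintype.card_fin] at g1
    have g2 := LinearMap.finrank_range_add_finrank_ker (f : E →ₗ[ℝ] ℝ)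
    have g3 : 0 < Module.finrank ℝ (LinearMap.range (f : E →ₗ[ℝ] ℝ)) := by
      rw [Module.finrank_pos_iff_exists_ne_zero]
      refine ⟨⟨1, ⟨u, hf2'⟩⟩, fun hc => ?_⟩
      have := congrArg Subtype.val hc
      exact one_ne_zero this
    omega
  rw [hz, sub_zero] at c2
  rw [eΦ]
  have e1 : Ψ Q = (Ψ Q - Ψ (fun i => L (h i))) + Ψ (fun i => L (h i)) := by ring
  rw [e1]
  refine (abs_add_le _ _).trans ?_
  have hn2 : (n : ℝ) ≤ 2 ^ n := by exact_mod_cast Nat.lt_two_pow_self.le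
  obtain ⟨k, rfl⟩ : ∃ k, n = k + 1 := ⟨n - 1, by omega⟩
  rw [Nat.add_sub_cancel] at c1 c2 ⊢
  have a1 : ((k + 1 : ℕ) : ℝ) * (B * (C' * t ^ 2 * ((C + C' * R) * t) ^ k)) ≤
      B * (2 ^ (k + 1) * C' * (C + C' * R) ^ k) * t ^ (k + 1 + 1) := by
    calc ((k + 1 : ℕ) : ℝ) * (B * (C' * t ^ 2 * ((C + C' * R) * t) ^ k)) =
        ((k + 1 : ℕ) : ℝ) * (B * (C' * (C + C' * R) ^ k) * t ^ (k + 1 + 1)) := by
          rw [mul_pow]; ring
      _ ≤ 2 ^ (k + 1) * (B * (C' * (C + C' * R) ^ k) * t ^ (k + 1 + 1)) :=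
          mul_le_mul_of_nonneg_right hn2 (by positivity)
      _ = _ := by ring
  have a2 : ((k + 1 : ℕ) : ℝ) * (B * (t * ε * (2 * C * t) ^ k)) ≤
      B * (((k + 1 : ℕ) : ℝ) * 2 ^ (k + 1) * ε * C ^ k) * t ^ (k + 1) := by
    calc ((k + 1 : ℕ) : ℝ) * (B * (t * ε * (2 * C * t) ^ k)) =
        1 * (((k + 1 : ℕ) : ℝ) * 2 ^ k * (B * ε * C ^ k * t ^ (k + 1))) := by
          rw [mul_pow, mul_pow]; ring
      _ ≤ 2 * (((k + 1 : ℕ) : ℝ) * 2 ^ k * (B * ε * C ^ k * t ^ (k + 1))) :=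
          mul_le_mul_of_nonneg_right one_le_two (by positivity)
      _ = _ := by ring
  linarith [c1.trans a1, c2.trans a2]

end Pool.AF
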