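import Pool.Agent.Helper94.AF.Defs

open Set Finset

set_option linter.unusedSectionVars false

namespace Pool.AF

/-! ## AF-14 COUNT: polynomial growth of a discrete linear group -/

/-- Counting: `#{g | ‖τ g‖ ≤ R, ‖τ g⁻¹‖ ≤ R}` grows at most polynomially in `R` (points at mutual
distance at least `δ / R` in a ball of radius `R`). -/
theorem exists_count {Γ R : Type*} [Group Γ] [NormedRing R] [NormedAlgebra ℝ R]
    [FiniteDimensional ℝ R] (τ : Γ →* R) (hd : Disc τ) :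
    ∃ (A : ℝ) (M : ℕ), ∀ C : ℝ, 1 ≤ C →
      (Set.ncard {g : Γ | ‖τ g‖ ≤ C ∧ ‖τ g⁻¹‖ ≤ C} : ℝ) ≤ A * C ^ M := by
  classical
  have hinv : ∀ g, τ g * τ g⁻¹ = 1 := fun g => by rw [← map_mul, mul_inv_cancel, map_one]
  have hinv' : ∀ g, τ g⁻¹ * τ g = 1 := fun g => by rw [← map_mul, inv_mul_cancel, map_one]
  have hker : {g : Γ | τ g = 1}.Finite := by
    refine (hd ‖(1 : R)‖).subset (fun g hg => ?_)
    have hg' : τ g = 1 := hg
    have h1 : τ g⁻¹ = 1 := by
      have := hinv g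
      rwa [hg', one_mul] at this
    exact ⟨by rw [hg'], by rw [h1]⟩
  obtain ⟨δ, hδ0, hδ⟩ : ∃ δ : ℝ, 0 < δ ∧ ∀ g, ‖τ g - 1‖ < δ → τ g = 1 := by
    have hF : {g : Γ | ‖τ g‖ ≤ 2 * ‖(1 : R)‖ + 1 ∧ ‖τ g⁻¹‖ ≤ 2 * ‖(1 : R)‖ + 1}.Finite := hd _
    have hmem : ∀ g, ‖τ g - 1‖ < 1 / 2 →
        g ∈ {g : Γ | ‖τ g‖ ≤ 2 * ‖(1 : R)‖ + 1 ∧ ‖τ g⁻¹‖ ≤ 2 * ‖(1 : R)‖ + 1} := by
      intro g hg
      have h0 : 0 ≤ ‖(1 : R)‖ := norm_nonneg _
      constructor
      · have : τ g = 1 + (τ g - 1) := by abel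
        rw [this]
        have := norm_add_le (1 : R) (τ g - 1)
        linarith
      · have e : τ g⁻¹ = 1 + (1 - τ g) * τ g⁻¹ := by
          rw [sub_mul, one_mul, hinv]
          abel
        have h1 : ‖τ g⁻¹‖ ≤ ‖(1 : R)‖ + ‖(1 - τ g) * τ g⁻¹‖ := by
          conv_lhs => rw [e]
          exact norm_add_le _ _
        have h2 : ‖(1 - τ g) * τ g⁻¹‖ ≤ 1 / 2 * ‖τ g⁻¹‖ := by
          refine (norm_mul_le _ _).trans ?_
          refine mul_le_mul_of_nonneg_right ?_ (norm_nonneg _)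
          rw [norm_sub_rev]
          exact hg.le
        linarith
    set T : Finset Γ := hF.toFinset.filter (fun g => τ g ≠ 1) with hT
    rcases T.eq_empty_or_nonempty with hTe | hTn
    · refine ⟨1 / 2, by norm_num, fun g hg => ?_⟩
      by_contra hne
      have : g ∈ T := by
        rw [hT, Finset.mem_filter, Set.Finite.mem_toFinset]
        exact ⟨hmem g hg, hne⟩
      rw [hTe] at this
      simp at this
    · obtain ⟨g₀, hg₀, hmin⟩ := Finset.exists_min_image T (fun g => ‖τ g - 1‖) hTn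
      have hpos : 0 < ‖τ g₀ - 1‖ := by
        rw [hT, Finset.mem_filter] at hg₀
        exact norm_pos_iff.mpr (sub_ne_zero.mpr hg₀.2)
      refine ⟨min (1 / 2) ‖τ g₀ - 1‖, lt_min (by norm_num) hpos, fun g hg => ?_⟩
      by_contra hne
      have : g ∈ T := by
        rw [hT, Finset.mem_filter, Set.Finite.mem_toFinset]
        exact ⟨hmem g (hg.trans_le (min_le_left _ _)), hne⟩
      have h1 := hmin g this
      have h2 := hg.trans_le (min_le_right _ _)
      linarith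
  set D := Module.finrank ℝ R with hD
  let e : R ≃L[ℝ] (Fin D → ℝ) := ContinuousLinearEquiv.ofFinrankEq (by simp [hD])
  set K₁ : ℝ := ‖(e : R →L[ℝ] (Fin D → ℝ))‖ with hK₁
  set K₂' : ℝ := ‖(e.symm : (Fin D → ℝ) →L[ℝ] R)‖ with hK₂'
  have hK₁0 : 0 ≤ K₁ := norm_nonneg _
  have hK₂0 : 0 ≤ K₂' := norm_nonneg _
  set c : ℝ := (K₂' + 1) / δ with hc
  have hc0 : 0 < c := by positivity
  set k : ℕ := hker.toFinset.card with hk
  refine ⟨k * (2 * K₁ * c + 5) ^ D, 2 * D, fun C hC => ?_⟩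
  have hC0 : 0 < C := by linarith
  have hfin : {g : Γ | ‖τ g‖ ≤ C ∧ ‖τ g⁻¹‖ ≤ C}.Finite := hd C
  rw [Set.ncard_eq_toFinset_card _ hfin]
  set S := hfin.toFinset with hS
  have hSmem : ∀ g, g ∈ S ↔ ‖τ g‖ ≤ C ∧ ‖τ g⁻¹‖ ≤ C := fun g => by
    rw [hS, Set.Finite.mem_toFinset]
    rfl
  let f : Γ → (Fin D → ℤ) := fun g i => ⌊(e (τ g)) i * (c * C)⌋
  have hfib : ∀ g ∈ S, ∀ g' ∈ S, f g = f g' → τ (g⁻¹ * g') = 1 := by
    intro g hg g' hg' hff
    apply hδ
    have h1 : ‖e (τ g') - e (τ g)‖ ≤ 1 / (c * C) := by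
      rw [pi_norm_le_iff_of_nonneg (by positivity)]
      intro i
      rw [Real.norm_eq_abs, Pi.sub_apply, le_div_iff₀ (by positivity)]
      have h2 : ⌊(e (τ g)) i * (c * C)⌋ = ⌊(e (τ g')) i * (c * C)⌋ := congrFun hff i
      have h3 := Int.abs_sub_lt_one_of_floor_eq_floor h2
      have h4 : |e (τ g') i - e (τ g) i| * (c * C) =
          |(e (τ g)) i * (c * C) - (e (τ g')) i * (c * C)| := by
        rw [← sub_mul, abs_mul, abs_of_pos (show 0 < c * C by positivity), abs_sub_comm]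
      rw [h4]
      exact h3.le
    have h2 : ‖τ g' - τ g‖ ≤ K₂' * (1 / (c * C)) := by
      have h3 : τ g' - τ g = e.symm (e (τ g') - e (τ g)) := by
        rw [map_sub, e.symm_apply_apply, e.symm_apply_apply]
      rw [h3]
      exact ((e.symm : (Fin D → ℝ) →L[ℝ] R).le_opNorm _).trans
        (mul_le_mul_of_nonneg_left h1 hK₂0)
    have h3 : τ (g⁻¹ * g') - 1 = τ g⁻¹ * (τ g' - τ g) := by
      rw [map_mul, mul_sub, hinv']
    rw [h3]
    calc ‖τ g⁻¹ * (τ g' - τ g)‖ ≤ ‖τ g⁻¹‖ * ‖τ g' - τ g‖ := norm_mul_le _ _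
      _ ≤ C * (K₂' * (1 / (c * C))) :=
          mul_le_mul ((hSmem g).mp hg).2 h2 (norm_nonneg _) hC0.le
      _ = δ * (K₂' / (K₂' + 1)) := by
          rw [hc]
          field_simp
      _ < δ * 1 := by
          refine mul_lt_mul_of_pos_left ?_ hδ0
          rw [div_lt_one (by linarith)]
          linarith
      _ = δ := mul_one _
  set n : ℕ := ⌈K₁ * c * C ^ 2⌉₊ + 1 with hn
  have himg : S.image f ⊆ Fintype.piFinset (fun _ : Fin D => Finset.Icc (-(n : ℤ)) n) := by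
    intro v hv
    obtain ⟨g, hg, rfl⟩ := Finset.mem_image.mp hv
    rw [Fintype.mem_piFinset]
    intro i
    have h1 : |(e (τ g)) i * (c * C)| ≤ K₁ * c * C ^ 2 := by
      rw [abs_mul, abs_of_pos (show 0 < c * C by positivity)]
      have h2 : |(e (τ g)) i| ≤ K₁ * C := by
        rw [← Real.norm_eq_abs]
        refine (norm_le_pi_norm _ i).trans ?_
        exact ((e : R →L[ℝ] (Fin D → ℝ)).le_opNorm _).trans
          (mul_le_mul_of_nonneg_left ((hSmem g).mp hg).1 hK₁0)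
      calc |(e (τ g)) i| * (c * C) ≤ K₁ * C * (c * C) :=
            mul_le_mul_of_nonneg_right h2 (by positivity)
        _ = K₁ * c * C ^ 2 := by ring
    have h3 : K₁ * c * C ^ 2 ≤ (⌈K₁ * c * C ^ 2⌉₊ : ℝ) := Nat.le_ceil _
    have h4 := abs_le.mp h1
    rw [Finset.mem_Icc]
    constructor
    · rw [Int.le_floor]
      push_cast [hn]
      linarith
    · have h5 : ((f g i : ℤ) : ℝ) ≤ (e (τ g)) i * (c * C) := Int.floor_le _
      have h6 : ((f g i : ℤ) : ℝ) ≤ ((n : ℤ) : ℝ) := by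
        push_cast [hn]
        linarith
      exact_mod_cast h6
  have hcard1 : (S.image f).card ≤ (2 * n + 1) ^ D := by
    refine (Finset.card_le_card himg).trans ?_
    rw [Fintype.card_piFinset]
    simp only [Int.card_Icc, Finset.prod_const, Finset.card_univ, Fintype.card_fin]
    refine Nat.pow_le_pow_left ?_ D
    omega
  have hcard2 : S.card ≤ k * (S.image f).card := by
    refine Finset.card_le_mul_card_image S k ?_
    intro v hv
    obtain ⟨g, hg, rfl⟩ := Finset.mem_image.mp hv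
    rw [hk]
    refine Finset.card_le_card_of_injOn (fun g' => g⁻¹ * g') ?_ ?_
    · intro g' hg'
      have hg'' := Finset.mem_filter.mp hg'
      rw [Finset.mem_coe, Set.Finite.mem_toFinset]
      exact hfib g hg g' hg''.1 hg''.2.symm
    · intro x _ y _ hxy
      exact mul_left_cancel hxy
  have hn1 : (n : ℝ) ≤ K₁ * c * C ^ 2 + 2 := by
    have := Nat.ceil_lt_add_one (show 0 ≤ K₁ * c * C ^ 2 by positivity)
    rw [hn]
    push_cast
    linarith
  have hC2 : 1 ≤ C ^ 2 := by nlinarith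
  calc (S.card : ℝ) ≤ ((k * (S.image f).card : ℕ) : ℝ) := by exact_mod_cast hcard2
    _ = k * ((S.image f).card : ℝ) := by push_cast; ring
    _ ≤ k * ((2 * n + 1 : ℝ) ^ D) := by
        refine mul_le_mul_of_nonneg_left ?_ (Nat.cast_nonneg k)
        exact_mod_cast hcard1
    _ ≤ k * (((2 * K₁ * c + 5) * C ^ 2) ^ D) := by
        refine mul_le_mul_of_nonneg_left ?_ (Nat.cast_nonneg k)
        refine pow_le_pow_left₀ (by positivity) ?_ D
        nlinarith
    _ = k * (2 * K₁ * c + 5) ^ D * C ^ (2 * D) := by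
        rw [mul_pow, ← pow_mul]
        ring

end Pool.AF
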