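import Pool.Agent.Helper94.AF.Defs

open Set Finset

set_option linter.unusedSectionVars false

namespace Pool.AF

open Pool.SV

/-! ## AF-3 PAIR: evaluation of a bounded cocycle through an equivariant map to the probability
measures on the group with infinite supports (truncate, and let the truncation tend to the
whole group) -/

namespace PairLe

/-- The truncation of a measure on the group. -/
noncomputable def trunc {X Γ : Type*} [Group Γ] (κ : X → Γ) (Q : X → Γ → ℝ) (T : Finset Γ)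
    (x : X) : Γ →₀ ℝ :=
  ∑ τ ∈ T, Finsupp.single (κ x * τ) (Q x (κ x * τ)) +
    Finsupp.single (κ x) (1 - ∑ τ ∈ T, Q x (κ x * τ))

theorem mass_eq {Γ : Type*} (p : Γ →₀ ℝ) :
    p.sum (fun _ c => c) = Finsupp.linearCombination ℝ (fun _ : Γ => (1 : ℝ)) p := by
  rw [Finsupp.linearCombination_apply]
  simp

theorem trunc_normalised {X Γ : Type*} [Group Γ] (κ : X → Γ) (Q : X → Γ → ℝ) (T : Finset Γ) :
    Normalised (trunc κ Q T) := by
  intro x
  rw [mass_eq]
  unfold trunc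
  rw [map_add, map_sum]
  simp only [Finsupp.linearCombination_single, smul_eq_mul, mul_one]
  ring

theorem trunc_equiv {X Γ : Type*} [Group Γ] [MulAction Γ X] (κ : X → Γ) (Q : X → Γ → ℝ)
    (T : Finset Γ) (hκ : ∀ (g : Γ) (x : X), κ (g • x) = g * κ x)
    (hQ : ∀ (g : Γ) (x : X) (γ : Γ), Q (g • x) (g * γ) = Q x γ) :
    Equiv' Γ (trunc κ Q T) := by
  intro g x
  unfold trunc
  rw [Finsupp.mapDomain_add, Finsupp.mapDomain_finsetSum, Finsupp.mapDomain_single]
  simp only [Finsupp.mapDomain_single, hκ, smul_eq_mul, mul_assoc, hQ]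

theorem trunc_apply {X Γ : Type*} [Group Γ] [DecidableEq Γ] (κ : X → Γ) (Q : X → Γ → ℝ)
    (T : Finset Γ) (x : X) (s : Γ) :
    trunc κ Q T x s = (if (κ x)⁻¹ * s ∈ T then Q x s else 0) +
      (if s = κ x then 1 - ∑ τ ∈ T, Q x (κ x * τ) else 0) := by
  unfold trunc
  rw [Finsupp.add_apply, Finsupp.finsetSum_apply]
  congr 1
  · have h1 : ∀ τ ∈ T, (Finsupp.single (κ x * τ) (Q x (κ x * τ))) s =
        if τ = (κ x)⁻¹ * s then Q x s else 0 := by
      intro τ _
      rw [Finsupp.single_apply]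
      by_cases h : τ = (κ x)⁻¹ * s
      · subst h
        simp
      · rw [if_neg h, if_neg]
        intro h2
        apply h
        rw [← h2]
        group
    rw [Finset.sum_congr rfl h1, Finset.sum_ite_eq']
  · rw [Finsupp.single_apply]
    by_cases h : s = κ x
    · rw [if_pos h, if_pos h.symm]
    · rw [if_neg h, if_neg (fun h2 => h h2.symm)]

/-- The remaining mass. -/
noncomputable def rem {X Γ : Type*} [Group Γ] (κ : X → Γ) (Q : X → Γ → ℝ) (T : Finset Γ)
    (x : X) : ℝ := 1 - ∑ τ ∈ T, Q x (κ x * τ)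

section

variable {X Γ : Type*} [Group Γ] (κ : X → Γ) (Q : X → Γ → ℝ) (T : Finset Γ)
  (hQ0 : ∀ x γ, 0 ≤ Q x γ) (hQ1 : ∀ x, HasSum (Q x) 1)

include hQ0 hQ1

theorem sum_image_le [DecidableEq Γ] (x : X) (S : Finset Γ) :
    ∑ s ∈ S, (if (κ x)⁻¹ * s ∈ T then 0 else Q x s) ≤ rem κ Q T x := by
  have h1 : ∑ τ ∈ T, Q x (κ x * τ) = ∑ s ∈ T.image (fun τ => κ x * τ), Q x s := by
    rw [Finset.sum_image]
    intro a _ b _ h
    exact mul_left_cancel h
  have h2 : ∑ s ∈ S, (if (κ x)⁻¹ * s ∈ T then 0 else Q x s) =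
      ∑ s ∈ S.filter (fun s => ¬ (κ x)⁻¹ * s ∈ T), Q x s := by
    rw [Finset.sum_filter]
    refine Finset.sum_congr rfl fun s _ => ?_
    by_cases h : (κ x)⁻¹ * s ∈ T
    · rw [if_pos h, if_neg (not_not.2 h)]
    · rw [if_neg h, if_pos h]
  have h3 : Disjoint (S.filter (fun s => ¬ (κ x)⁻¹ * s ∈ T)) (T.image (fun τ => κ x * τ)) := by
    rw [Finset.disjoint_left]
    intro s hs hs'
    obtain ⟨τ, hτ, rfl⟩ := Finset.mem_image.1 hs'
    apply (Finset.mem_filter.1 hs).2
    rwa [inv_mul_cancel_left]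
  have h4 := sum_le_hasSum (S.filter (fun s => ¬ (κ x)⁻¹ * s ∈ T) ∪ T.image (fun τ => κ x * τ))
    (fun i _ => hQ0 x i) (hQ1 x)
  rw [Finset.sum_union h3] at h4
  unfold rem
  rw [h1, h2]
  linarith

theorem rem_nonneg (x : X) : 0 ≤ rem κ Q T x := by
  classical
  have h := sum_image_le κ Q T hQ0 hQ1 x ∅
  simpa using h

theorem diff_le [DecidableEq Γ] (x : X) (S : Finset Γ) :
    ∑ s ∈ S, |trunc κ Q T x s - Q x s| ≤ 2 * rem κ Q T x := by
  have h1 : ∀ s ∈ S, |trunc κ Q T x s - Q x s| ≤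
      (if (κ x)⁻¹ * s ∈ T then 0 else Q x s) + (if s = κ x then rem κ Q T x else 0) := by
    intro s _
    rw [trunc_apply]
    have h2 := rem_nonneg κ Q T hQ0 hQ1 x
    have h3 := hQ0 x s
    unfold rem at h2 ⊢
    split_ifs
    · rw [add_sub_cancel_left, abs_of_nonneg h2, zero_add]
    · simp
    · rw [abs_le]
      constructor <;> linarith
    · rw [abs_le]
      constructor <;> linarith
  refine (Finset.sum_le_sum h1).trans ?_
  rw [Finset.sum_add_distrib]
  have h4 := sum_image_le κ Q T hQ0 hQ1 x S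
  have h5 : ∑ s ∈ S, (if s = κ x then rem κ Q T x else 0) ≤ rem κ Q T x := by
    rw [Finset.sum_ite_eq']
    split_ifs
    · exact le_rfl
    · exact rem_nonneg κ Q T hQ0 hQ1 x
  linarith

theorem trunc_nonneg (x : X) (s : Γ) : 0 ≤ trunc κ Q T x s := by
  classical
  rw [trunc_apply]
  have h2 := rem_nonneg κ Q T hQ0 hQ1 x
  unfold rem at h2
  refine add_nonneg ?_ ?_
  · split_ifs
    · exact hQ0 x s
    · exact le_rfl
  · split_ifs
    · exact h2
    · exact le_rfl

end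

/-- The alternating form of an alternating cochain. -/
theorem exists_form {Γ : Type*} (S : Finset Γ) (n : ℕ) (β : List Γ → ℝ)
    (halt : ∀ (x : Fin n → Γ) (π : Equiv.Perm (Fin n)),
      β (List.ofFn (fun i => x (π i))) = ((Equiv.Perm.sign π : ℤ) : ℝ) * β (List.ofFn x))
    (B : ℝ) (hB : ∀ l, |β l| ≤ B) :
    ∃ Φ : (S → ℝ) [⋀^Fin n]→ₗ[ℝ] ℝ,
      (∀ m : Fin n → S → ℝ, |Φ m| ≤ B * ∏ i, ∑ s, |m i s|) ∧
      ∀ m : Fin n → S → ℝ, Φ m = ∑ q : Fin n → S, (∏ i, m i (q i)) *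
        β (List.ofFn fun i => (q i : Γ)) := by
  classical
  obtain ⟨Φ, hΦ⟩ := exists_altMap S n β halt (Γ →₀ ℝ)
  have key : ∀ m : Fin n → S → ℝ, Φ m = ∑ q : Fin n → S, (∏ i, m i (q i)) *
        β (List.ofFn fun i => (q i : Γ)) := by
    intro m
    set x : Fin n → (Γ →₀ ℝ) := fun i => Finsupp.onFinset S
      (fun γ => if h : γ ∈ S then m i ⟨γ, h⟩ else 0) (by
        intro a ha
        by_contra h
        exact ha (dif_neg h)) with hx
    have hxm : ∀ i, ∀ q : S, x i q = m i q := by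
      intro i q
      rw [hx]
      simp
    have hs : ∀ i, (id (x i)).support ⊆ S := by
      intro i γ hγ
      by_contra h
      apply Finsupp.mem_support_iff.1 hγ
      rw [id, hx, Finsupp.onFinset_apply]
      exact dif_neg h
    have h1 := hΦ id x hs
    have h2 := Alt.dual_push_ofFn S id n β x hs
    rw [h1] at h2
    have h3 : (fun i => fun q : S => (id (x i)) q) = m := by
      funext i q
      exact hxm i q
    rw [h3] at h2
    rw [h2]
    refine Finset.sum_congr rfl fun q _ => ?_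
    congr 1
    refine Finset.prod_congr rfl fun i _ => ?_
    exact hxm i (q i)
  refine ⟨Φ, fun m => ?_, key⟩
  rw [key]
  have hp : ∏ i, ∑ s, |m i s| = ∑ q : Fin n → S, ∏ i, |m i (q i)| := by
    rw [Finset.prod_univ_sum, Fintype.piFinset_univ]
  rw [hp, Finset.mul_sum]
  refine (Finset.abs_sum_le_sum_abs _ _).trans (Finset.sum_le_sum fun q _ => ?_)
  rw [abs_mul, Finset.abs_prod, mul_comm]
  exact mul_le_mul_of_nonneg_right (hB _) (Finset.prod_nonneg fun _ _ => abs_nonneg _)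

/-- Telescoping for a multilinear form. -/
theorem tele {S : Type*} [Fintype S] (n : ℕ) (Φ : (S → ℝ) [⋀^Fin n]→ₗ[ℝ] ℝ) (B : ℝ)
    (hB0 : 0 ≤ B) (hΦ : ∀ m : Fin n → S → ℝ, |Φ m| ≤ B * ∏ i, ∑ s, |m i s|)
    (a b : Fin n → S → ℝ) (ha : ∀ i, ∑ s, |a i s| ≤ 1) (hb : ∀ i, ∑ s, |b i s| ≤ 1) :
    |Φ a - Φ b| ≤ B * ∑ i, ∑ s, |a i s - b i s| := by
  classical
  have key : ∀ A : Finset (Fin n), |Φ (fun i => if i ∈ A then a i else b i) - Φ b| ≤
      B * ∑ i ∈ A, ∑ s, |a i s - b i s| := by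
    intro A
    induction A using Finset.induction with
    | empty => simp
    | insert j A hj ih =>
      set c : Fin n → S → ℝ := fun i => if i ∈ A then a i else b i with hc
      have hc1 : ∀ i, ∑ s, |c i s| ≤ 1 := by
        intro i
        rw [hc]
        by_cases h : i ∈ A
        · simp only [if_pos h]
          exact ha i
        · simp only [if_neg h]
          exact hb i
      have e1 : (fun i => if i ∈ insert j A then a i else b i) = Function.update c j (a j) := by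
        funext i
        by_cases h : i = j
        · subst h
          rw [Function.update_self, if_pos (Finset.mem_insert_self _ _)]
        · rw [Function.update_of_ne h, hc]
          simp only [Finset.mem_insert, h, false_or]
      have e2 : c = Function.update c j (b j) := by
        rw [eq_comm, Function.update_eq_self_iff, hc]
        simp only [if_neg hj]
      have e3 : Φ (Function.update c j (a j)) - Φ c = Φ (Function.update c j (a j - b j)) := by
        rw [AlternatingMap.map_update_sub]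
        congr 1
        exact congrArg Φ e2
      have e4 : |Φ (Function.update c j (a j - b j))| ≤ B * ∑ s, |a j s - b j s| := by
        refine (hΦ _).trans (mul_le_mul_of_nonneg_left ?_ hB0)
        rw [← Finset.mul_prod_erase Finset.univ _ (Finset.mem_univ j), Function.update_self]
        have e5 : ∏ i ∈ Finset.univ.erase j, ∑ s, |Function.update c j (a j - b j) i s| ≤ 1 := by
          refine Finset.prod_le_one (fun i _ => Finset.sum_nonneg fun _ _ => abs_nonneg _) ?_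
          intro i hi
          rw [Function.update_of_ne (Finset.ne_of_mem_erase hi)]
          exact hc1 i
        calc (∑ s, |(a j - b j) s|) *
              ∏ i ∈ Finset.univ.erase j, ∑ s, |Function.update c j (a j - b j) i s|
            ≤ (∑ s, |(a j - b j) s|) * 1 :=
              mul_le_mul_of_nonneg_left e5 (Finset.sum_nonneg fun _ _ => abs_nonneg _)
          _ = ∑ s, |a j s - b j s| := by simp
      rw [e1, Finset.sum_insert hj, mul_add]
      calc |Φ (Function.update c j (a j)) - Φ b|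
          = |(Φ (Function.update c j (a j)) - Φ c) + (Φ c - Φ b)| := by
            congr 1
            ring
        _ ≤ |Φ (Function.update c j (a j)) - Φ c| + |Φ c - Φ b| := abs_add_le _ _
        _ ≤ B * ∑ s, |a j s - b j s| + B * ∑ i ∈ A, ∑ s, |a i s - b i s| := by
            rw [e3]
            exact add_le_add e4 ih
  have h := key Finset.univ
  simpa using h

theorem simplex_bound {X Γ : Type*} [Group Γ] (κ : X → Γ) (Q : X → Γ → ℝ) (T : Finset Γ)
    (hQ0 : ∀ x γ, 0 ≤ Q x γ) (hQ1 : ∀ x, HasSum (Q x) 1) (n : ℕ) (β : List Γ → ℝ)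
    (halt : ∀ (x : Fin n → Γ) (π : Equiv.Perm (Fin n)),
      β (List.ofFn (fun i => x (π i))) = ((Equiv.Perm.sign π : ℤ) : ℝ) * β (List.ofFn x))
    (B : ℝ) (hB0 : 0 ≤ B) (hB : ∀ l, |β l| ≤ B) (x : Fin n → X) (c ε : ℝ)
    (hc : ∀ (S : Finset Γ) (Φ : (S → ℝ) [⋀^Fin n]→ₗ[ℝ] ℝ),
      (∀ m : Fin n → S → ℝ, |Φ m| ≤ B * ∏ i, ∑ s, |m i s|) →
        |Φ (fun i s => Q (x i) s)| ≤ c)
    (hε : ∀ i, rem κ Q T (x i) ≤ ε) :
    |dual (push (trunc κ Q T)) β (List.ofFn x)| ≤ c + B * (n * (2 * ε)) := by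
  classical
  set S : Finset Γ := Finset.univ.biUnion fun i => (trunc κ Q T (x i)).support with hS
  have hsup : ∀ i, (trunc κ Q T (x i)).support ⊆ S := fun i =>
    Finset.subset_biUnion_of_mem (fun i => (trunc κ Q T (x i)).support) (Finset.mem_univ i)
  obtain ⟨Φ, h1, h2⟩ := exists_form S n β halt B hB
  have h3 : dual (push (trunc κ Q T)) β (List.ofFn x) =
      Φ (fun i s => trunc κ Q T (x i) s) := by
    rw [h2, Alt.dual_push_ofFn S _ n β x hsup]
  have ha : ∀ i, ∑ s : S, |trunc κ Q T (x i) s| ≤ 1 := by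
    intro i
    have h4 : ∑ s : S, |trunc κ Q T (x i) s| = ∑ s ∈ S, trunc κ Q T (x i) s := by
      rw [← Finset.sum_coe_sort S]
      refine Finset.sum_congr rfl fun s _ => ?_
      exact abs_of_nonneg (trunc_nonneg κ Q T hQ0 hQ1 (x i) s)
    have h5 := trunc_normalised κ Q T (x i)
    rw [Finsupp.sum_of_support_subset _ (hsup i) _ (by simp)] at h5
    rw [h4, h5]
  have hb : ∀ i, ∑ s : S, |Q (x i) s| ≤ 1 := by
    intro i
    have h4 : ∑ s : S, |Q (x i) s| = ∑ s ∈ S, Q (x i) s := by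
      rw [← Finset.sum_coe_sort S]
      refine Finset.sum_congr rfl fun s _ => ?_
      exact abs_of_nonneg (hQ0 (x i) s)
    rw [h4]
    exact sum_le_hasSum S (fun i' _ => hQ0 (x i) i') (hQ1 (x i))
  have h6 := tele n Φ B hB0 h1 (fun i s => trunc κ Q T (x i) s) (fun i s => Q (x i) s) ha hb
  have h7 := hc S Φ h1
  have h8 : ∑ i, ∑ s : S, |trunc κ Q T (x i) s - Q (x i) s| ≤ n * (2 * ε) := by
    have h9 : ∀ i ∈ (Finset.univ : Finset (Fin n)),
        ∑ s : S, |trunc κ Q T (x i) s - Q (x i) s| ≤ 2 * ε := by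
      intro i _
      have h10 := diff_le κ Q T hQ0 hQ1 (x i) S
      rw [← Finset.sum_coe_sort S] at h10
      have h11 := hε i
      linarith
    have h12 := Finset.sum_le_sum h9
    rw [Finset.sum_const, Finset.card_univ, Fintype.card_fin, nsmul_eq_mul] at h12
    exact h12
  rw [h3]
  have h13 : B * ∑ i, ∑ s : S, |trunc κ Q T (x i) s - Q (x i) s| ≤ B * (n * (2 * ε)) :=
    mul_le_mul_of_nonneg_left h8 hB0
  have h14 := abs_sub_abs_le_abs_sub (Φ (fun i s => trunc κ Q T (x i) s))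
    (Φ (fun i s => Q (x i) s))
  linarith

theorem rem_tendsto {X Γ : Type*} [Group Γ] (κ : X → Γ) (Q : X → Γ → ℝ)
    (hQ1 : ∀ x, HasSum (Q x) 1) (x : X) (ε : ℝ) (hε : 0 < ε) :
    ∀ᶠ T in Filter.atTop, rem κ Q T x ≤ ε := by
  have h1 : HasSum (fun τ => Q x (κ x * τ)) 1 := (Equiv.mulLeft (κ x)).hasSum_iff.2 (hQ1 x)
  have h2 : Filter.Tendsto (fun T : Finset Γ => ∑ τ ∈ T, Q x (κ x * τ)) Filter.atTop
      (nhds 1) := h1
  have h3 : ∀ᶠ T : Finset Γ in Filter.atTop, 1 - ε < ∑ τ ∈ T, Q x (κ x * τ) :=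
    h2.eventually (lt_mem_nhds (by linarith))
  filter_upwards [h3] with T hT
  unfold rem
  linarith

end PairLe

open PairLe

theorem pair_le {E : Type*} [NormedAddCommGroup E] [NormedSpace ℝ E] (D : Geo E) (n : ℕ)
    (β : List D.X → ℝ) (hb : Bdd β) (hβ : Inv D.Γ β) (hc : cob β = 0) :
    ∃ B : ℝ, 0 ≤ B ∧ ∀ (P : E → D.Γ → ℝ),
      (∀ x ∈ D.X, (∀ γ, 0 ≤ P x γ) ∧ HasSum (P x) 1) →
      (∀ g : D.Γ, ∀ x ∈ D.X, ∀ γ, P (g.1 x) (g * γ) = P x γ) →
      ∀ w : L D.X, Cyc D.Γ w → (∀ l ∈ w.support, l.length = n + 1) →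
      ∀ bd : List D.X → ℝ,
      (∀ x : Fin (n + 1) → D.X, List.ofFn x ∈ w.support →
        ∀ (S : Finset D.Γ) (Φ : (S → ℝ) [⋀^Fin (n + 1)]→ₗ[ℝ] ℝ),
          (∀ m : Fin (n + 1) → S → ℝ, |Φ m| ≤ B * ∏ i, ∑ s, |m i s|) →
          |Φ (fun i s => P (x i : E) s)| ≤ bd (List.ofFn x)) →
      |pair β w| ≤ w.sum (fun l a => |a| * bd l) := by
  classical
  obtain ⟨κ, hκ⟩ := exists_kappa D
  obtain ⟨y₀, hy₀⟩ := D.nonempty
  set βΓ : List D.Γ → ℝ := fun l => β (l.map (fun g => g • (⟨y₀, hy₀⟩ : D.X))) with hβΓ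
  have hβΓ' : βΓ = dual (push (fun g : D.Γ => Finsupp.single (g • (⟨y₀, hy₀⟩ : D.X)) (1 : ℝ)))
      β := by
    funext l
    rw [dual_push_single (fun g : D.Γ => g • (⟨y₀, hy₀⟩ : D.X))]
  have heqo : ∀ (g : D.Γ) (a : D.Γ), (fun g : D.Γ => g • (⟨y₀, hy₀⟩ : D.X)) (g • a) =
      g • (fun g : D.Γ => g • (⟨y₀, hy₀⟩ : D.X)) a := by
    intro g a
    simp only [smul_eq_mul, mul_smul]
  have hΓb : Bdd βΓ := by
    obtain ⟨C, hC⟩ := hb
    exact ⟨C, fun l => hC _⟩
  have hΓi : Inv D.Γ βΓ := by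
    rw [hβΓ']
    exact inv_push D.Γ _ (equiv_single D.Γ _ heqo) β hβ
  have hΓc : cob βΓ = 0 := by
    rw [hβΓ', cob_push _ (normalised_single _), hc]
    funext l
    simp [dual, pair]
  obtain ⟨β₂, ⟨B₀, hB₀⟩, hi₂, hc₂, halt, he₂⟩ := exists_alt D.Γ n βΓ hΓb hΓi hΓc
  have hB0 : 0 ≤ B₀ := (abs_nonneg _).trans (hB₀ [])
  refine ⟨B₀, hB0, ?_⟩
  intro P hP hPe w hw hlen bd hbd
  have hκe : Equiv' D.Γ (fun x : D.X => Finsupp.single (κ x) (1 : ℝ)) :=
    equiv_single D.Γ κ (fun g a => by rw [hκ, smul_eq_mul])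
  have hwΓ : Cyc D.Γ (lin (push (fun x : D.X => Finsupp.single (κ x) (1 : ℝ))) w) :=
    cyc_push D.Γ _ (normalised_single κ) hκe w hw
  have e1 : pair β w = pair βΓ (lin (push (fun x : D.X => Finsupp.single (κ x) (1 : ℝ))) w) := by
    have h1 := push_homotopic D.Γ (fun x : D.X => Finsupp.single (id x) (1 : ℝ))
      (fun x : D.X => Finsupp.single (κ x • (⟨y₀, hy₀⟩ : D.X)) (1 : ℝ)) (normalised_single _)
      (normalised_single (fun x : D.X => κ x • (⟨y₀, hy₀⟩ : D.X)))
      (equiv_single D.Γ _ (fun _ _ => rfl))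
      (equiv_single D.Γ (fun x : D.X => κ x • (⟨y₀, hy₀⟩ : D.X))
        (fun g a => by simp only [hκ, mul_smul])) β hβ hc w hw
    have h2 : dual (push (fun x : D.X => Finsupp.single (id x) (1 : ℝ))) β = β := by
      funext l
      rw [dual_push_single id, List.map_id]
    rw [h2] at h1
    rw [h1, ← pair_dual]
    congr 2
    funext l
    rw [dual_push_single (fun x : D.X => κ x • (⟨y₀, hy₀⟩ : D.X)), dual_push_single κ, hβΓ]
    simp only [List.map_map]
    rfl
  -- the measures on the points of the domain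
  set Q : D.X → D.Γ → ℝ := fun x => P (x : E) with hQ
  have hQ0 : ∀ x γ, 0 ≤ Q x γ := fun x γ => (hP x x.2).1 γ
  have hQ1 : ∀ x, HasSum (Q x) 1 := fun x => (hP x x.2).2
  have hQe : ∀ (g : D.Γ) (x : D.X) (γ : D.Γ), Q (g • x) (g * γ) = Q x γ := fun g x γ =>
    hPe g x x.2 γ
  have e2 : ∀ T : Finset D.Γ, pair β w = pair (dual (push (trunc κ Q T)) β₂) w := by
    intro T
    rw [e1, ← he₂ _ hwΓ, ← pair_dual]
    exact push_homotopic D.Γ (fun x : D.X => Finsupp.single (κ x) (1 : ℝ)) (trunc κ Q T)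
      (normalised_single κ) (trunc_normalised κ Q T) hκe (trunc_equiv κ Q T hκ hQe) β₂ hi₂ hc₂
      w hw
  -- the limit
  set M : ℝ := (w.sum fun _ a => |a|) * (B₀ * ((n + 1 : ℕ) * 2)) with hM
  have hM0 : 0 ≤ M := by
    rw [hM]
    refine mul_nonneg ?_ (by positivity)
    exact Finset.sum_nonneg fun _ _ => abs_nonneg _
  have key : ∀ ε : ℝ, 0 < ε → |pair β w| ≤ w.sum (fun l a => |a| * bd l) + M * ε := by
    intro ε hε
    have h1 : ∀ᶠ T : Finset D.Γ in Filter.atTop, ∀ l ∈ w.support, ∀ x ∈ l.toFinset,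
        rem κ Q T x ≤ ε := by
      rw [Filter.eventually_all_finset]
      intro l _
      rw [Filter.eventually_all_finset]
      intro x _
      exact rem_tendsto κ Q hQ1 x ε hε
    obtain ⟨T, hT⟩ := h1.exists
    rw [e2 T, pair_eq_sum, Finsupp.sum, Finsupp.sum]
    refine (Finset.abs_sum_le_sum_abs _ _).trans ?_
    rw [hM, Finsupp.sum, Finset.sum_mul, Finset.sum_mul, ← Finset.sum_add_distrib]
    refine Finset.sum_le_sum fun l hl => ?_
    obtain ⟨x, rfl⟩ : ∃ x : Fin (n + 1) → D.X, l = List.ofFn x := by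
      refine ⟨fun i => l.get (i.cast (hlen l hl).symm), ?_⟩
      apply List.ext_get
      · simp [hlen l hl]
      · intro i h1 h2
        rw [List.get_ofFn]
        rfl
    have h2 := simplex_bound κ Q T hQ0 hQ1 (n + 1) β₂ halt B₀ hB0 hB₀ x (bd (List.ofFn x)) ε
      (fun S Φ hΦ => hbd x hl S Φ hΦ)
      (fun i => hT _ hl (x i) (List.mem_toFinset.2 (List.mem_ofFn.2 ⟨i, rfl⟩)))
    rw [abs_mul]
    calc |w (List.ofFn x)| * |dual (push (trunc κ Q T)) β₂ (List.ofFn x)|
        ≤ |w (List.ofFn x)| * (bd (List.ofFn x) + B₀ * ((n + 1 : ℕ) * (2 * ε))) :=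
          mul_le_mul_of_nonneg_left h2 (abs_nonneg _)
      _ = _ := by ring
  refine le_of_forall_pos_le_add fun δ hδ => ?_
  have h1 := key (δ / (M + 1)) (by positivity)
  have h2 : M * (δ / (M + 1)) ≤ δ := by
    rw [mul_div_assoc', div_le_iff₀ (by positivity)]
    nlinarith
  linarith

end Pool.AF
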