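import Pool.Agent.Helper94.AF.Defs

open Set Finset

set_option linter.unusedSectionVars false

namespace Pool.AF

open Pool.SV

/-! ## AF-2 SEQ: the sequence of subdivided cycles (cf. the proof of `pair_eq_zero_of_small`) -/

theorem exists_subdiv_seq {E : Type*} [NormedAddCommGroup E] [NormedSpace ℝ E] (D : Geo E)
    (n : ℕ) (K : Set E) (hKc : Convex ℝ K) (w : L D.X) (hw : Cyc D.Γ w)
    (hlen : ∀ l ∈ w.support, l.length = n + 1)
    (hwK : ∀ l ∈ w.support, ∀ x ∈ l, (x : E) ∈ K) :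
    ∃ V : ℝ, 0 ≤ V ∧ ∀ k : ℕ, ∃ w' : L D.X, Cyc D.Γ w' ∧
      (∀ β : List D.X → ℝ, Inv D.Γ β → cob β = 0 → pair β w' = pair β w) ∧
      nr w' ≤ nr w * (2 ^ n) ^ k ∧
      ∀ l ∈ w'.support, l.length = n + 1 ∧ (∀ x ∈ l, (x : E) ∈ K) ∧
        tv (l.map (fun x : D.X => (x : E))) ≤ V / 2 ^ k := by
  classical
  obtain ⟨S, h0, h1, hd, heq, hcount, hsupp⟩ := exists_subdivision (mid D) (mid_self D)
    (fun x : D.X => (x : E)) (mid_coe D)
  have heq' : ∀ (g : D.Γ) (l : List D.X),
      S (l.map (fun b => g • b)) = (S l).mapDomain (List.map (fun b => g • b)) := by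
    intro g l
    exact heq (fun b => g • b) (fun x y => smul_mid D g x y) l
  have hV : ∀ l ∈ w.support, tv (l.map (fun x : D.X => (x : E))) ≤
      ∑ l ∈ w.support, tv (l.map (fun x : D.X => (x : E))) := fun l hl =>
    Finset.single_le_sum (f := fun l : List D.X => tv (l.map (fun x : D.X => (x : E))))
      (fun i _ => tv_nonneg _) hl
  refine ⟨∑ l ∈ w.support, tv (l.map (fun x : D.X => (x : E))),
    Finset.sum_nonneg fun i _ => tv_nonneg _, fun k => ?_⟩
  induction k with
  | zero =>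
    exact ⟨w, hw, fun β _ _ => rfl, by simp, fun l hl => ⟨hlen l hl, hwK l hl,
      by simpa using hV l hl⟩⟩
  | succ k ih =>
    obtain ⟨w', hw', hpair, hnr, hs⟩ := ih
    have hcyc : Cyc D.Γ (lin S w') :=
      (pair_lin_of_natural D.Γ S h0 h1 hd heq' (fun _ => (0 : ℝ)) (fun _ _ => rfl)
        (by
          funext l
          change pair (fun _ => (0 : ℝ)) (dl l) = 0
          rw [pair_eq_sum]
          simp [Finsupp.sum]) w' hw').1
    refine ⟨lin S w', hcyc, fun β hβ hc => ?_, ?_, ?_⟩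
    · exact (pair_lin_of_natural D.Γ S h0 h1 hd heq' β hβ hc w' hw').2.trans (hpair β hβ hc)
    · have h3 : nr (lin S w') ≤ nr w' * 2 ^ n := by
        apply nr_lin_le
        intro l hl
        have := hcount l
        rwa [(hs l hl).1, Nat.add_sub_cancel] at this
      calc nr (lin S w') ≤ nr w' * 2 ^ n := h3
        _ ≤ (nr w * (2 ^ n) ^ k) * 2 ^ n := mul_le_mul_of_nonneg_right hnr (by positivity)
        _ = nr w * (2 ^ n) ^ (k + 1) := by rw [pow_succ]; ring
    · intro l' hl'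
      obtain ⟨l, hl, hl2⟩ := mem_support_lin S w' l' hl'
      obtain ⟨a1, a2, a3⟩ := hs l hl
      obtain ⟨b1, b2, b3⟩ := hsupp l l' hl2
      refine ⟨b1.trans a1, ?_, ?_⟩
      · intro y hy
        obtain ⟨a, ha, b, hb, rfl⟩ := b2 y hy
        rw [mid_coe, smul_add]
        exact hKc (a2 a ha) (a2 b hb) (by norm_num) (by norm_num) (by norm_num)
      · calc tv (l'.map (fun x : D.X => (x : E))) ≤ tv (l.map (fun x : D.X => (x : E))) / 2 := b3
          _ ≤ ((∑ l ∈ w.support, tv (l.map (fun x : D.X => (x : E)))) / 2 ^ k) / 2 := by linarith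
          _ = (∑ l ∈ w.support, tv (l.map (fun x : D.X => (x : E)))) / 2 ^ (k + 1) := by
              rw [pow_succ]; ring

end Pool.AF
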