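import Pool.Agent.Helper94.AF.AltEst
import Pool.Agent.Helper94.AF.Seq
import Pool.Agent.Helper94.AF.PairLe

open Set Finset

set_option linter.unusedSectionVars false

namespace Pool.AF

open Pool.SV

/-! ## AF-4 CRIT: the criterion (uses `alt_est`, `exists_subdiv_seq`, `pair_le`) -/

private theorem crit_lim {a b c : ℝ} (h : ∀ k : ℕ, a ≤ b + c / 2 ^ k) : a ≤ b := by
  have h1 : Filter.Tendsto (fun k : ℕ => b + c * (1 / 2 : ℝ) ^ k) Filter.atTop
      (nhds (b + c * 0)) :=
    tendsto_const_nhds.add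
      ((tendsto_pow_atTop_nhds_zero_of_lt_one (by norm_num) (by norm_num)).const_mul c)
  rw [mul_zero, add_zero] at h1
  refine ge_of_tendsto' h1 fun k => (h k).trans (le_of_eq ?_)
  rw [one_div, inv_pow, div_eq_mul_inv]

private theorem crit_eps {a c : ℝ} (hc : 0 ≤ c) (h : ∀ ε : ℝ, 0 < ε → a ≤ c * ε) : a ≤ 0 := by
  by_contra hlt
  rw [not_le] at hlt
  have h1 := h (a / (2 * (c + 1))) (by positivity)
  have h2 : c * (a / (2 * (c + 1))) < a := by
    rw [← mul_div_assoc, div_lt_iff₀ (by positivity)]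
    nlinarith [mul_nonneg hc hlt.le]
  linarith

theorem vanish_of_goodPart {E : Type*} [NormedAddCommGroup E] [NormedSpace ℝ E]
    [FiniteDimensional ℝ E] (D : Geo E) (hpos : 0 < Module.finrank ℝ E)
    (H : ∀ K ⊆ D.X, IsCompact K → Convex ℝ K → ∃ C : ℝ, ∀ ε : ℝ, 0 < ε → GoodPart D K C ε) :
    Vanish D := by
  classical
  intro β hb hβ hc w hw hlen
  set n := Module.finrank ℝ E with hn
  -- the convex hull of the vertices
  let W : Finset E := (w.support.biUnion fun l => l.toFinset).image (fun x : D.X => (x : E))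
  let K : Set E := convexHull ℝ (W : Set E)
  have hWX : (W : Set E) ⊆ D.X := by
    intro e he
    obtain ⟨x, -, rfl⟩ := Finset.mem_image.1 (Finset.mem_coe.1 he)
    exact x.2
  have hKX : K ⊆ D.X := convexHull_min hWX D.convex
  have hKcomp : IsCompact K := Set.Finite.isCompact_convexHull (𝕜 := ℝ) W.finite_toSet
  have hKc : Convex ℝ K := convex_convexHull ℝ _
  have hwK : ∀ l ∈ w.support, ∀ x ∈ l, (x : E) ∈ K := by
    intro l hl x hx
    refine subset_convexHull ℝ _ (Finset.mem_coe.2 (Finset.mem_image.2 ⟨x, ?_, rfl⟩))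
    exact Finset.mem_biUnion.2 ⟨l, hl, List.mem_toFinset.2 hx⟩
  obtain ⟨R0, hR0⟩ := Metric.isBounded_iff.1 hKcomp.isBounded
  obtain ⟨C0, hC0⟩ := H K hKX hKcomp hKc
  obtain ⟨B, hB, hpair⟩ := pair_le D n β hb hβ hc
  obtain ⟨V, hV, hseq⟩ := exists_subdiv_seq D n K hKc w hw hlen hwK
  set R := max R0 0 with hRdef
  set C := max C0 0 with hCdef
  have hRnn : 0 ≤ R := le_max_right _ _
  have hCnn : 0 ≤ C := le_max_right _ _
  have hR : ∀ x ∈ K, ∀ y ∈ K, ‖y - x‖ ≤ R := by
    intro x hx y hy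
    rw [← dist_eq_norm]
    exact (hR0 hy hx).trans (le_max_left _ _)
  have hnr := nr_nonneg w
  -- the estimate for a given partition
  have main : ∀ ε : ℝ, 0 < ε →
      |pair β w| ≤ (nr w * (B * (n * 2 ^ n * C ^ (n - 1))) * V ^ n) * ε := by
    intro ε hε
    obtain ⟨P, P', C1, hP, hPe, hP1, hP2, hP3⟩ := hC0 ε hε
    set C' := max C1 0 with hC'def
    have hC'nn : 0 ≤ C' := le_max_right _ _
    set c2 := B * (2 ^ n * C' * (C + C' * R) ^ (n - 1)) with hc2
    have hc2nn : 0 ≤ c2 := by positivity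
    set c1 := B * (n * 2 ^ n * ε * C ^ (n - 1)) with hc1
    have hc1nn : 0 ≤ c1 := by positivity
    refine crit_lim (c := nr w * c2 * V ^ (n + 1)) fun k => ?_
    obtain ⟨w', hw', hpw, hnr', hs⟩ := hseq k
    let bd : List D.X → ℝ := fun l =>
      c1 * (tv (l.map (fun x : D.X => (x : E)))) ^ n +
        c2 * (tv (l.map (fun x : D.X => (x : E)))) ^ (n + 1)
    have h1 : |pair β w'| ≤ w'.sum (fun l a => |a| * bd l) := by
      refine hpair P hP hPe w' hw' (fun l hl => (hs l hl).1) bd ?_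
      intro x hx S Φ hΦ
      have hxK : ∀ i, (x i : E) ∈ K := fun i =>
        (hs _ hx).2.1 (x i) (List.mem_ofFn.2 ⟨i, rfl⟩)
      have h2 := alt_est n hn.symm hpos (S := S) Φ B hB hΦ K R hR C ε C' hCnn hε.le hC'nn
        (fun e s => P e s) (fun e s => P' e s)
        (by
          intro y hy
          obtain ⟨hy0, hy1⟩ := hP y (hKX hy)
          rw [Finset.sum_coe_sort S (fun s => |P y s|)]
          have : ∑ s ∈ S, |P y s| = ∑ s ∈ S, P y s :=
            Finset.sum_congr rfl fun s _ => abs_of_nonneg (hy0 s)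
          rw [this]
          exact sum_le_hasSum S (fun s _ => hy0 s) hy1)
        (by
          intro y hy u
          rw [Finset.sum_coe_sort S (fun s => |P' y s u|)]
          exact (hP1 y hy S u).trans
            (mul_le_mul_of_nonneg_right (le_max_left _ _) (norm_nonneg _)))
        (by
          intro y hy
          obtain ⟨u, hu, hu2⟩ := hP2 y hy
          refine ⟨u, hu, ?_⟩
          rw [Finset.sum_coe_sort S (fun s => |P' y s u|)]
          exact hu2 S)
        (by
          intro y hy z hz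
          rw [Finset.sum_coe_sort S (fun s => |P z s - P y s - P' y s (z - y)|)]
          exact (hP3 y hy z hz S).trans
            (mul_le_mul_of_nonneg_right (le_max_left _ _) (sq_nonneg _)))
        (fun i => (x i : E)) hxK
      have h3 : (List.ofFn x).map (fun x : D.X => (x : E)) = List.ofFn fun i => (x i : E) := by
        rw [List.map_ofFn]
        rfl
      show _ ≤ c1 * (tv ((List.ofFn x).map (fun x : D.X => (x : E)))) ^ n +
        c2 * (tv ((List.ofFn x).map (fun x : D.X => (x : E)))) ^ (n + 1)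
      rw [h3]
      exact h2
    rw [hpw β hβ hc] at h1
    have hVk : 0 ≤ V / 2 ^ k := by positivity
    have h4 : w'.sum (fun l a => |a| * bd l) ≤
        nr w' * (c1 * (V / 2 ^ k) ^ n + c2 * (V / 2 ^ k) ^ (n + 1)) := by
      unfold nr
      rw [Finsupp.sum, Finsupp.sum, Finset.sum_mul]
      refine Finset.sum_le_sum fun l hl => mul_le_mul_of_nonneg_left ?_ (abs_nonneg _)
      have h5 := (hs l hl).2.2
      have h6 := tv_nonneg (l.map (fun x : D.X => (x : E)))
      exact add_le_add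
        (mul_le_mul_of_nonneg_left (pow_le_pow_left₀ h6 h5 n) hc1nn)
        (mul_le_mul_of_nonneg_left (pow_le_pow_left₀ h6 h5 (n + 1)) hc2nn)
    have h7 : nr w' * (c1 * (V / 2 ^ k) ^ n + c2 * (V / 2 ^ k) ^ (n + 1)) ≤
        nr w * (2 ^ n) ^ k * (c1 * (V / 2 ^ k) ^ n + c2 * (V / 2 ^ k) ^ (n + 1)) :=
      mul_le_mul_of_nonneg_right hnr' (by positivity)
    refine (h1.trans (h4.trans h7)).trans (le_of_eq ?_)
    have e1 : ((2 : ℝ) ^ n) ^ k * (V / 2 ^ k) ^ n = V ^ n := by
      rw [div_pow, ← pow_mul, ← pow_mul, mul_comm k n]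
      field_simp
    have e2 : ((2 : ℝ) ^ n) ^ k * (V / 2 ^ k) ^ (n + 1) = V ^ (n + 1) / 2 ^ k := by
      rw [pow_succ (V / 2 ^ k) n, ← mul_assoc, e1, pow_succ]
      ring
    calc nr w * (2 ^ n) ^ k * (c1 * (V / 2 ^ k) ^ n + c2 * (V / 2 ^ k) ^ (n + 1))
        = nr w * c1 * ((2 ^ n) ^ k * (V / 2 ^ k) ^ n) +
          nr w * c2 * ((2 ^ n) ^ k * (V / 2 ^ k) ^ (n + 1)) := by ring
      _ = nr w * c1 * V ^ n + nr w * c2 * (V ^ (n + 1) / 2 ^ k) := by rw [e1, e2]
      _ = _ := by rw [hc1]; ring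
  have hfin := crit_eps (by positivity) main
  exact abs_eq_zero.1 (le_antisymm hfin (abs_nonneg _))

end Pool.AF
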