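import Pool.Agent.Helper84.SV.FinalK

/-!
# Project AF: flags of the lineality space with quotients of cone type or of quadratic type

Definitions.
-/

open Set Finset

namespace Pool.AF

open Pool.SV

/-! ### The flag (definitions used in the final statement) -/

section Flag

variable {E : Type*} [NormedAddCommGroup E] [NormedSpace ℝ E]

/-- `Γ` acts on `B / A` through a group preserving a linear space `L` of quadratic forms on `B / A`
with `dim L ≤ dim (B / A) + k` that contains a positive definite form. -/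
def QuadType (Γ : Subgroup (E ≃ᵃ[ℝ] E)) (A B : Submodule ℝ E) (k : ℕ) : Prop :=
  ∃ L : Submodule ℝ (QuadraticForm ℝ B),
    Module.finrank ℝ L + Module.finrank ℝ A ≤ Module.finrank ℝ B + k ∧
    (∀ q ∈ L, ∀ a b : B, (a : E) ∈ A → q (b + a) = q b) ∧
    (∃ q ∈ L, ∀ b : B, (b : E) ∉ A → 0 < q b) ∧
    ∀ g ∈ Γ, ∀ q ∈ L, ∃ q' ∈ L, ∀ b b' : B, (b' : E) = g.linear (b : E) → q' b = q b'

/-- `Γ` preserves an open convex cone of `B / A` that contains no line; `C` is its preimage. -/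
def ConeType (Γ : Subgroup (E ≃ᵃ[ℝ] E)) (A B : Submodule ℝ E) : Prop :=
  ∃ C U : Set E, IsOpen U ∧ C = U ∩ (B : Set E) ∧ C.Nonempty ∧ Convex ℝ C ∧
    (∀ x ∈ C, ∀ t : ℝ, 0 < t → t • x ∈ C) ∧
    (∀ v ∈ B, v ∈ A ↔ ∀ x ∈ C, ∀ t : ℝ, x + t • v ∈ C) ∧
    ∀ g ∈ Γ, ∀ x ∈ C, g.linear x ∈ C

/-- `Γ` preserves a flag of the lineality space of `X` whose quotients are of quadratic type or
of cone type; if `X` is the whole space one of them is of cone type or of quadratic type with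
`dim L ≤ dim (B / A)`. -/
def ConeFlag (Γ : Subgroup (E ≃ᵃ[ℝ] E)) (X : Set E) : Prop :=
  ∃ (r : ℕ) (F : ℕ → Submodule ℝ E), F 0 = ⊥ ∧
    (∀ v, v ∈ F r ↔ ∀ x ∈ X, ∀ t : ℝ, x + t • v ∈ X) ∧
    (∀ i < r, F i < F (i + 1) ∧ (∀ g ∈ Γ, ∀ v ∈ F (i + 1), g.linear v ∈ F (i + 1)) ∧
      (QuadType Γ (F i) (F (i + 1)) 1 ∨ ConeType Γ (F i) (F (i + 1)))) ∧
    (X = Set.univ → ∃ i < r, QuadType Γ (F i) (F (i + 1)) 0 ∨ ConeType Γ (F i) (F (i + 1)))

end Flag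

/-! ### Partitions -/

/-- An equivariant map to the probability measures on the group: first order differentiable on `K`
with derivative bounded by `C`, small by `ε` in some direction. -/
def GoodPart {E : Type*} [NormedAddCommGroup E] [NormedSpace ℝ E] (D : Geo E) (K : Set E)
    (C ε : ℝ) : Prop :=
  ∃ (P : E → D.Γ → ℝ) (P' : E → D.Γ → (E →ₗ[ℝ] ℝ)) (C' : ℝ),
    (∀ x ∈ D.X, (∀ γ, 0 ≤ P x γ) ∧ HasSum (P x) 1) ∧
    (∀ g : D.Γ, ∀ x ∈ D.X, ∀ γ, P (g.1 x) (g * γ) = P x γ) ∧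
    (∀ x ∈ K, ∀ S : Finset D.Γ, ∀ u, ∑ γ ∈ S, |P' x γ u| ≤ C * ‖u‖) ∧
    (∀ x ∈ K, ∃ u, ‖u‖ = 1 ∧ ∀ S : Finset D.Γ, ∑ γ ∈ S, |P' x γ u| ≤ ε) ∧
    (∀ x ∈ K, ∀ y ∈ K, ∀ S : Finset D.Γ,
      ∑ γ ∈ S, |P y γ - P x γ - P' x γ (y - x)| ≤ C' * ‖y - x‖ ^ 2)

/-! ### Kernels -/

section Kernel

variable {ι G : Type*} [Fintype ι]

/-- The product kernel. -/
noncomputable def kern (N : ℕ) (a : ι → G → ℝ) (g : G) : ℝ := ∏ i, (a i g)⁻¹ ^ N

/-- The normalised kernel. -/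
noncomputable def PP (N : ℕ) (a : ι → G → ℝ) (g : G) : ℝ := kern N a g / ∑' h, kern N a h

/-- The logarithmic derivative of the kernel at `a` in the direction `b`. -/
noncomputable def ld (N : ℕ) (a b : ι → G → ℝ) (g : G) : ℝ := -(N : ℝ) * ∑ i, b i g / a i g

/-- The derivative of the normalised kernel at `a` in the direction `b`. -/
noncomputable def dP (N : ℕ) (a b : ι → G → ℝ) (g : G) : ℝ :=
  PP N a g * (ld N a b g - ∑' h, PP N a h * ld N a b h)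

end Kernel

/-! ### Blocks -/

/-- A linear representation of `G` with an invariant open convex cone `C` and a linear functional
`ξ` that is positive on `C`. -/
structure Blk (G : Type*) [Group G] where
  /-- the dimension -/
  d : ℕ
  /-- the representation -/
  ρ : G →* ((Fin d → ℝ) →ₗ[ℝ] (Fin d → ℝ))
  /-- the cone -/
  C : Set (Fin d → ℝ)
  /-- the functional -/
  ξ : (Fin d → ℝ) →ₗ[ℝ] ℝ
  isOpen : IsOpen C
  convex : Convex ℝ C
  nonempty : C.Nonempty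
  smul_mem : ∀ v ∈ C, ∀ t : ℝ, 0 < t → t • v ∈ C
  inv : ∀ g, ∀ v ∈ C, ρ g v ∈ C
  pos : ∀ v ∈ C, 0 < ξ v

/-- The functional of the group element `g`. -/
def Blk.ev {G : Type*} [Group G] (B : Blk G) (g : G) (v : Fin B.d → ℝ) : ℝ := B.ξ (B.ρ g⁻¹ v)

/-- `T` grows at most polynomially in `s`. -/
def Grow {G R : Type*} [Group G] [NormedRing R] (T : G → R) (s : G → ℝ) (b : ℕ) : Prop :=
  ∃ A : ℝ, 0 < A ∧ ∀ g, A⁻¹ ≤ s g ∧ ‖T g‖ ≤ A * s g ^ b ∧ ‖T g⁻¹‖ ≤ A * s g ^ b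

/-- The representation is discrete. -/
def Disc {G R : Type*} [Group G] [NormedRing R] (τ : G → R) : Prop :=
  ∀ C : ℝ, {g : G | ‖τ g‖ ≤ C ∧ ‖τ g⁻¹‖ ≤ C}.Finite

/-- The block of `g` cut out by the idempotent `f`, divided by `c g`. -/
noncomputable def cut {G R : Type*} [Group G] [NormedRing R] [NormedAlgebra ℝ R] (φ : G →* R)
    (f : R) (c : G → ℝ) (g : G) : R := (c g)⁻¹ • (f * φ g * f)

/-- A positive multiplicative function. -/
def PosMul {G : Type*} [Group G] (c : G → ℝ) : Prop :=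
  (∀ g, 0 < c g) ∧ ∀ g h, c (g * h) = c g * c h

/-! ### The convex domain -/

section Domain

variable {E : Type*} [NormedAddCommGroup E] [NormedSpace ℝ E]

/-- The recession cone. -/
def Rec (X : Set E) : Set E := {u | ∀ x ∈ X, ∀ t : ℝ, 0 ≤ t → x + t • u ∈ X}

/-- The lineality space. -/
def Lin (X : Set E) : Set E := {v | ∀ x ∈ X, ∀ t : ℝ, x + t • v ∈ X}

/-- The points of the recession cone that are interior in its linear span. -/
def RecInt (X : Set E) : Set E :=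
  {u | ∃ δ : ℝ, 0 < δ ∧ ∀ w ∈ Submodule.span ℝ (Rec X), ‖w‖ ≤ δ → u + w ∈ Rec X}

end Domain

/-! ### Families of kernels -/

/-- The hypothesis of the criterion `goodPart_of_family` for the step `δ`: a finite sequence of
points `a l x` of the index space `ι → Γ → ℝ` of positive functions, depending equivariantly on
`x`. -/
def FamHyp {E : Type*} [NormedAddCommGroup E] [NormedSpace ℝ E] (D : Geo E) (K : Set E)
    (ι : Type) [Fintype ι] (N : ℕ) (C δ : ℝ) : Prop :=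
  ∃ (Ln : ℕ) (a : ℕ → E → ι → D.Γ → ℝ) (a' : ℕ → E → ι → D.Γ → (E →ₗ[ℝ] ℝ)) (C' : ℝ),
    1 ≤ δ ^ 2 * (Ln : ℝ) ∧
    (∀ l, ∀ x ∈ D.X, (∀ i g, 0 < a l x i g) ∧ Summable (kern N (a l x))) ∧
    (∀ l, ∀ h : D.Γ, ∀ x ∈ D.X, ∀ i, ∃ c : ℝ, 0 < c ∧
      ∀ g, a l (h.1 x) i (h * g) = c * a l x i g) ∧
    (∀ l < Ln, ∀ x ∈ K, ∀ u, ∀ i g, |a' l x i g u| ≤ C * ‖u‖ * a l x i g) ∧
    (∀ l < Ln, ∀ x ∈ K, ∀ y ∈ K, ∀ i g, |a l y i g - a l x i g| ≤ C' * ‖y - x‖ * a l x i g ∧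
      |a l y i g - a l x i g - a' l x i g (y - x)| ≤ C' * ‖y - x‖ ^ 2 * a l x i g) ∧
    (∀ x ∈ K, ∃ u, ‖u‖ = 1 ∧ ∃ (lam : ι → ℝ) (μ : ℝ) (y w : ℕ → ι → D.Γ → ℝ) (s : ℕ → ℝ),
      |μ| ≤ C ∧
      (∀ l < Ln, 0 ≤ s l ∧ ∀ i g, a' l x i g u = lam i * a l x i g + w l i g + μ * y l i g ∧
        a (l + 1) x i g = a l x i g + δ * y l i g ∧ |y l i g| ≤ a l x i g ∧
        |w l i g| ≤ s l * a l x i g) ∧
      ∑ l ∈ Finset.range Ln, s l ≤ C * δ * (Ln : ℝ))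

end Pool.AF
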