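import Pool.Agent.Helper94.AF.Defs

open Set Finset

set_option linter.unusedSectionVars false

namespace Pool.AF

open Pool.SV

/-! ## AF-9a GAUGE: uniform gauge bounds on compact sets -/

section

variable {E : Type*} [NormedAddCommGroup E] [NormedSpace ℝ E] [FiniteDimensional ℝ E]

/-- First order expansion on a compact convex subset of the domain. -/
theorem c2_est {F : Type*} [NormedAddCommGroup F] [NormedSpace ℝ F] (D : Geo E) (K : Set E)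
    (hK : IsCompact K) (hKX : K ⊆ D.X) (hKc : Convex ℝ K) (v : E → F)
    (hv : ContDiffOn ℝ 2 v D.X) :
    ∃ C : ℝ, 0 ≤ C ∧ (∀ x ∈ K, ∀ u, ‖fderiv ℝ v x u‖ ≤ C * ‖u‖) ∧
      (∀ x ∈ K, ∀ y ∈ K, ‖v y - v x‖ ≤ C * ‖y - x‖) ∧
      (∀ x ∈ K, ∀ y ∈ K, ‖v y - v x - fderiv ℝ v x (y - x)‖ ≤ C * ‖y - x‖ ^ 2) := by
  obtain ⟨C, hC, -, h1, h2, h3⟩ := Rank.taylor K D.X hK hKc D.isOpen hKX v hv
  refine ⟨C, hC, fun x hx u => ?_, h2, fun x hx y hy => ?_⟩
  · exact (ContinuousLinearMap.le_opNorm _ _).trans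
      (mul_le_mul_of_nonneg_right (h1 x hx) (norm_nonneg _))
  · rw [pow_two, ← mul_assoc]
    exact h3 x hx y hy

private theorem gauge_aux {V : Type*} [NormedAddCommGroup V] [NormedSpace ℝ V] (L : V →ₗ[ℝ] ℝ)
    (a δ : ℝ) (hδ : 0 < δ) (w : V)
    (h : ∀ s : ℝ, ‖s • w‖ ≤ δ → 0 ≤ a + L (s • w)) : |L w| ≤ δ⁻¹ * ‖w‖ * a := by
  rcases eq_or_ne w 0 with rfl | hw
  · simp
  · have hn : 0 < ‖w‖ := norm_pos_iff.2 hw
    have hs : ‖(δ / ‖w‖) • w‖ ≤ δ := by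
      rw [norm_smul, Real.norm_eq_abs, abs_of_pos (div_pos hδ hn), div_mul_cancel₀ _ hn.ne']
    have h1 := h (δ / ‖w‖) hs
    have h2 := h (-(δ / ‖w‖)) (by rw [neg_smul, norm_neg]; exact hs)
    rw [map_smul, smul_eq_mul] at h1 h2
    have h3 : δ / ‖w‖ * |L w| ≤ a := by
      rcases abs_cases (L w) with ⟨h4, -⟩ | ⟨h4, -⟩ <;> rw [h4] <;> linarith
    have h5 : |L w| = δ⁻¹ * ‖w‖ * (δ / ‖w‖ * |L w|) := by
      field_simp
    rw [h5]
    exact mul_le_mul_of_nonneg_left h3 (by positivity)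

/-- Uniform gauge bound for the functionals of a block. -/
theorem blk_gauge {G : Type*} [Group G] (B : Blk G) (K : Set (Fin B.d → ℝ)) (hK : IsCompact K)
    (hKC : K ⊆ B.C) :
    ∃ C : ℝ, 0 ≤ C ∧ ∀ z ∈ K, ∀ w : Fin B.d → ℝ, ∀ g, |B.ev g w| ≤ C * ‖w‖ * B.ev g z := by
  obtain ⟨δ, hδ, hsub⟩ := hK.exists_cthickening_subset_open B.isOpen hKC
  refine ⟨δ⁻¹, by positivity, fun z hz w g => ?_⟩
  refine gauge_aux (B.ξ.comp (B.ρ g⁻¹)) (B.ev g z) δ hδ w fun s hs => ?_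
  have h1 : z + s • w ∈ B.C := by
    refine hsub (Metric.mem_cthickening_of_dist_le _ z δ K hz ?_)
    rw [dist_eq_norm, add_sub_cancel_left]
    exact hs
  have h2 := B.pos _ (B.inv g⁻¹ _ h1)
  rw [map_add, map_add] at h2
  exact h2.le

private theorem hatHom_one_coord (D : Geo E) (g : D.Γ) (x : E) :
    hatHom D.Γ g (x, 1) = (g.1 x, 1) := by
  show hat g.1 (x, 1) = (g.1 x, 1)
  have h := act_hat g.1 x
  rw [hat_apply]
  rw [act, hat_apply] at h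
  exact Prod.ext h rfl

/-- Uniform gauge bound for the domain. -/
theorem dom_gauge (D : Geo E) (ξ : (E × ℝ) →ₗ[ℝ] ℝ) (hξ : ∀ x ∈ D.X, 0 < ξ (x, 1)) (K : Set E)
    (hK : IsCompact K) (hKX : K ⊆ D.X) :
    ∃ C : ℝ, 0 ≤ C ∧ ∀ x ∈ K, ∀ u : E, ∀ g : D.Γ,
      |ξ (hatHom D.Γ g (u, 0))| ≤ C * ‖u‖ * ξ (hatHom D.Γ g (x, 1)) := by
  obtain ⟨δ, hδ, hsub⟩ := hK.exists_cthickening_subset_open D.isOpen hKX
  refine ⟨δ⁻¹, by positivity, fun x hx u g => ?_⟩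
  refine gauge_aux ((ξ.comp ((hatHom D.Γ g : Alg E) : (E × ℝ) →ₗ[ℝ] (E × ℝ))).comp
    (LinearMap.inl ℝ E ℝ)) (ξ (hatHom D.Γ g (x, 1))) δ hδ u fun s hs => ?_
  have h1 : x + s • u ∈ D.X := by
    refine hsub (Metric.mem_cthickening_of_dist_le _ x δ K hx ?_)
    rw [dist_eq_norm, add_sub_cancel_left]
    exact hs
  have h2 := hξ _ (D.inv g.1 g.2 _ h1)
  rw [← hatHom_one_coord D g] at h2
  have h3 : ((x + s • u, 1) : E × ℝ) = (x, 1) + (s • u, 0) := by simp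
  rw [h3, map_add, map_add] at h2
  exact h2.le

/-- The recession cone is invariant, and the functional is nonnegative on it. -/
theorem rec_nonneg (D : Geo E) (ξ : (E × ℝ) →ₗ[ℝ] ℝ) (hξ : ∀ x ∈ D.X, 0 < ξ (x, 1)) (u : E)
    (hu : u ∈ Rec D.X) (g : D.Γ) :
    g.1.linear u ∈ Rec D.X ∧ 0 ≤ ξ (hatHom D.Γ g (u, 0)) := by
  constructor
  · intro x hx t ht
    have h1 : (g⁻¹ : D.Γ).1 x ∈ D.X := D.inv _ (g⁻¹ : D.Γ).2 x hx
    have h2 := D.inv g.1 g.2 _ (hu _ h1 t ht)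
    have h3 : g.1 ((g⁻¹ : D.Γ).1 x) = x := by
      have : (g.1 * (g⁻¹ : D.Γ).1) x = x := by
        rw [← Subgroup.coe_mul, mul_inv_cancel]
        rfl
      exact this
    have h4 : g.1 ((g⁻¹ : D.Γ).1 x + t • u) = x + t • g.1.linear u := by
      have := g.1.map_vadd ((g⁻¹ : D.Γ).1 x) (t • u)
      rw [vadd_eq_add, vadd_eq_add, h3, map_smul] at this
      rw [add_comm, this, add_comm]
    rwa [h4] at h2
  · obtain ⟨x, hx⟩ := D.nonempty
    by_contra hneg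
    rw [not_le] at hneg
    set a := ξ (hatHom D.Γ g (x, 1)) with ha
    set b := ξ (hatHom D.Γ g (u, 0)) with hb
    have hpos : ∀ t : ℝ, 0 ≤ t → 0 < a + t * b := by
      intro t ht
      have h2 := hξ _ (D.inv g.1 g.2 _ (hu x hx t ht))
      rw [← hatHom_one_coord D g] at h2
      have h3 : ((x + t • u, 1) : E × ℝ) = (x, 1) + t • (u, (0 : ℝ)) := by simp
      rw [h3, map_add, map_add, map_smul, map_smul, smul_eq_mul] at h2
      exact h2
    have ha0 : 0 < a := by simpa using hpos 0 le_rfl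
    have := hpos (a / (-b)) (by have : 0 < -b := by linarith
                                positivity)
    have h5 : a / (-b) * b = -a := by
      rw [div_mul_eq_mul_div, div_eq_iff (by linarith)]
      ring
    rw [h5] at this
    linarith

/-- Uniform gauge bound for the recession cone. -/
theorem rec_gauge (D : Geo E) (ξ : (E × ℝ) →ₗ[ℝ] ℝ) (hξ : ∀ x ∈ D.X, 0 < ξ (x, 1)) (K : Set E)
    (hK : IsCompact K) (hKR : K ⊆ RecInt D.X) :
    ∃ C : ℝ, 0 ≤ C ∧ ∀ z ∈ K, ∀ w ∈ Submodule.span ℝ (Rec D.X), ∀ g : D.Γ,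
      |ξ (hatHom D.Γ g (w, 0))| ≤ C * ‖w‖ * ξ (hatHom D.Γ g (z, 0)) := by
  have hKS : ∀ z ∈ K, z ∈ Submodule.span ℝ (Rec D.X) := by
    intro z hz
    obtain ⟨δ, hδ, h⟩ := hKR hz
    have := h 0 (Submodule.zero_mem _) (by simpa using hδ.le)
    rw [add_zero] at this
    exact Submodule.subset_span this
  have huni : ∃ δ : ℝ, 0 < δ ∧ ∀ z ∈ K, ∀ w ∈ Submodule.span ℝ (Rec D.X), ‖w‖ ≤ δ →
      z + w ∈ Rec D.X := by
    refine hK.induction_on (p := fun s => ∃ δ : ℝ, 0 < δ ∧ ∀ z ∈ s,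
      ∀ w ∈ Submodule.span ℝ (Rec D.X), ‖w‖ ≤ δ → z + w ∈ Rec D.X) ?_ ?_ ?_ ?_
    · exact ⟨1, one_pos, fun z hz => absurd hz (Set.notMem_empty z)⟩
    · rintro s t hst ⟨δ, hδ, h⟩
      exact ⟨δ, hδ, fun z hz => h z (hst hz)⟩
    · rintro s t ⟨δ, hδ, h⟩ ⟨δ', hδ', h'⟩
      refine ⟨min δ δ', lt_min hδ hδ', fun z hz w hw hn => ?_⟩
      rcases hz with hz | hz
      · exact h z hz w hw (hn.trans (min_le_left _ _))
      · exact h' z hz w hw (hn.trans (min_le_right _ _))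
    · intro x hx
      obtain ⟨δ, hδ, h⟩ := hKR hx
      refine ⟨Metric.ball x (δ / 2) ∩ K, ?_, δ / 2, by positivity, ?_⟩
      · rw [mem_nhdsWithin]
        exact ⟨Metric.ball x (δ / 2), Metric.isOpen_ball, Metric.mem_ball_self (by positivity),
          Subset.rfl⟩
      · rintro z ⟨hz1, hz2⟩ w hw hn
        have h1 : z + w = x + ((z - x) + w) := by abel
        rw [h1]
        refine h _ (Submodule.add_mem _ (Submodule.sub_mem _ (hKS z hz2) (hKS x hx)) hw) ?_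
        refine (norm_add_le _ _).trans ?_
        rw [Metric.mem_ball, dist_eq_norm] at hz1
        linarith
  obtain ⟨δ, hδ, hd⟩ := huni
  refine ⟨δ⁻¹, by positivity, fun z hz w hw g => ?_⟩
  refine gauge_aux ((ξ.comp ((hatHom D.Γ g : Alg E) : (E × ℝ) →ₗ[ℝ] (E × ℝ))).comp
    (LinearMap.inl ℝ E ℝ)) (ξ (hatHom D.Γ g (z, 0))) δ hδ w fun s hs => ?_
  have h1 := hd z hz (s • w) (Submodule.smul_mem _ _ hw) hs
  have h2 := (rec_nonneg D ξ hξ _ h1 g).2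
  have h3 : ((z + s • w, 0) : E × ℝ) = (z, 0) + (s • w, 0) := by simp
  rw [h3, map_add, map_add] at h2
  exact h2

end

end Pool.AF
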