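import Pool.Agent.Helper94.AF.Defs

open Set Finset

set_option linter.unusedSectionVars false

namespace Pool.AF

/-! ## AF-5 KERN: the normalised kernel and its derivative -/

variable {ι G : Type*} [Fintype ι] (N : ℕ) (a b b' : ι → G → ℝ)

theorem kern_pos (ha : ∀ i g, 0 < a i g) (g : G) : 0 < kern N a g := by
  unfold kern
  exact Finset.prod_pos fun i _ => pow_pos (inv_pos.mpr (ha i g)) N

theorem PP_nonneg (ha : ∀ i g, 0 < a i g) (g : G) : 0 ≤ PP N a g := by
  unfold PP
  exact div_nonneg (kern_pos N a ha g).le (tsum_nonneg fun h => (kern_pos N a ha h).le)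

theorem hasSum_PP [Nonempty G] (ha : ∀ i g, 0 < a i g) (hs : Summable (kern N a)) :
    HasSum (PP N a) 1 := by
  have h0 : 0 < ∑' h, kern N a h :=
    hs.tsum_pos (fun h => (kern_pos N a ha h).le) (Classical.arbitrary G) (kern_pos N a ha _)
  have h1 := hs.hasSum.div_const (∑' h, kern N a h)
  rw [div_self h0.ne'] at h1
  exact h1

theorem PP_equiv {G : Type*} [Group G] (a a' : ι → G → ℝ) (h : G) (c : ι → ℝ)
    (hc : ∀ i, 0 < c i) (ha : ∀ i g, a' i (h * g) = c i * a i g) (g : G) :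
    PP N a' (h * g) = PP N a g := by
  have hk : ∀ g, kern N a' (h * g) = (∏ i, (c i)⁻¹ ^ N) * kern N a g := by
    intro g
    unfold kern
    rw [← Finset.prod_mul_distrib]
    refine Finset.prod_congr rfl fun i _ => ?_
    rw [ha, mul_inv, mul_pow]
  have hC : (∏ i, (c i)⁻¹ ^ N) ≠ 0 :=
    (Finset.prod_pos fun i _ => pow_pos (inv_pos.mpr (hc i)) N).ne'
  have ht : ∑' g, kern N a' g = (∏ i, (c i)⁻¹ ^ N) * ∑' g, kern N a g := by
    rw [← (Equiv.mulLeft h).tsum_eq (kern N a'), ← tsum_mul_left]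
    exact tsum_congr fun g => hk g
  unfold PP
  rw [hk, ht, mul_div_mul_left _ _ hC]

theorem abs_ld_le (s : ℝ) (ha : ∀ i g, 0 < a i g) (hb : ∀ i g, |b i g| ≤ s * a i g) (g : G) :
    |ld N a b g| ≤ N * Fintype.card ι * s := by
  unfold ld
  rw [abs_mul, abs_neg, Nat.abs_cast, mul_assoc]
  refine mul_le_mul_of_nonneg_left ?_ (Nat.cast_nonneg N)
  refine (Finset.abs_sum_le_sum_abs _ _).trans ?_
  have h1 : ∑ i : ι, |b i g / a i g| ≤ ∑ _i : ι, s := by
    refine Finset.sum_le_sum fun i _ => ?_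
    rw [abs_div, abs_of_pos (ha i g), div_le_iff₀ (ha i g)]
    exact hb i g
  refine h1.trans (le_of_eq ?_)
  rw [Finset.sum_const, nsmul_eq_mul, Finset.card_univ]

private theorem kK_nonneg [Nonempty G] (s : ℝ) (ha : ∀ i g, 0 < a i g)
    (hb : ∀ i g, |b i g| ≤ s * a i g) : 0 ≤ (N : ℝ) * Fintype.card ι * s :=
  (abs_nonneg _).trans (abs_ld_le N a b s ha hb (Classical.arbitrary G))

private theorem kPPld_le (s : ℝ) (ha : ∀ i g, 0 < a i g)
    (hb : ∀ i g, |b i g| ≤ s * a i g) (g : G) :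
    ‖PP N a g * ld N a b g‖ ≤ PP N a g * (N * Fintype.card ι * s) := by
  rw [Real.norm_eq_abs, abs_mul, abs_of_nonneg (PP_nonneg N a ha g)]
  exact mul_le_mul_of_nonneg_left (abs_ld_le N a b s ha hb g) (PP_nonneg N a ha g)

theorem summable_PP_ld [Nonempty G] (s : ℝ) (ha : ∀ i g, 0 < a i g) (hs : Summable (kern N a))
    (hb : ∀ i g, |b i g| ≤ s * a i g) : Summable (fun g => PP N a g * ld N a b g) := by
  have h1 := (hasSum_PP N a ha hs).summable.mul_right ((N : ℝ) * Fintype.card ι * s)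
  exact Summable.of_norm_bounded h1 (kPPld_le N a b s ha hb)

private theorem kE_le [Nonempty G] (s : ℝ) (ha : ∀ i g, 0 < a i g) (hs : Summable (kern N a))
    (hb : ∀ i g, |b i g| ≤ s * a i g) :
    |∑' h, PP N a h * ld N a b h| ≤ N * Fintype.card ι * s := by
  have h1 := (hasSum_PP N a ha hs).mul_right ((N : ℝ) * Fintype.card ι * s)
  rw [one_mul] at h1
  have h2 := tsum_of_norm_bounded h1 (kPPld_le N a b s ha hb)
  exact h2

theorem dP_bound [Nonempty G] (s : ℝ) (ha : ∀ i g, 0 < a i g) (hs : Summable (kern N a))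
    (hb : ∀ i g, |b i g| ≤ s * a i g) (S : Finset G) :
    ∑ g ∈ S, |dP N a b g| ≤ 2 * N * Fintype.card ι * s := by
  have hK := kK_nonneg N a b s ha hb
  have h1 : ∀ g ∈ S, |dP N a b g| ≤ PP N a g * (2 * (N * Fintype.card ι * s)) := by
    intro g _
    unfold dP
    rw [abs_mul, abs_of_nonneg (PP_nonneg N a ha g)]
    refine mul_le_mul_of_nonneg_left ?_ (PP_nonneg N a ha g)
    refine (abs_sub _ _).trans ?_
    have h2 := abs_ld_le N a b s ha hb g
    have h3 := kE_le N a b s ha hs hb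
    linarith
  refine (Finset.sum_le_sum h1).trans ?_
  rw [← Finset.sum_mul]
  have h4 : ∑ g ∈ S, PP N a g ≤ 1 :=
    sum_le_hasSum S (fun g _ => PP_nonneg N a ha g) (hasSum_PP N a ha hs)
  have h5 : 0 ≤ 2 * ((N : ℝ) * Fintype.card ι * s) := by positivity
  calc (∑ g ∈ S, PP N a g) * (2 * ((N : ℝ) * Fintype.card ι * s))
      ≤ 1 * (2 * ((N : ℝ) * Fintype.card ι * s)) := mul_le_mul_of_nonneg_right h4 h5
    _ = 2 * N * Fintype.card ι * s := by ring

theorem dP_add [Nonempty G] (s s' : ℝ) (ha : ∀ i g, 0 < a i g) (hs : Summable (kern N a))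
    (hb : ∀ i g, |b i g| ≤ s * a i g) (hb' : ∀ i g, |b' i g| ≤ s' * a i g) (g : G) :
    dP N a (fun i g => b i g + b' i g) g = dP N a b g + dP N a b' g := by
  have h1 : ∀ g, ld N a (fun i g => b i g + b' i g) g = ld N a b g + ld N a b' g := by
    intro g
    unfold ld
    rw [← mul_add, ← Finset.sum_add_distrib]
    congr 1
    exact Finset.sum_congr rfl fun i _ => add_div _ _ _
  have h2 : ∑' h, PP N a h * ld N a (fun i g => b i g + b' i g) h =
      (∑' h, PP N a h * ld N a b h) + ∑' h, PP N a h * ld N a b' h := by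
    rw [← (summable_PP_ld N a b s ha hs hb).tsum_add (summable_PP_ld N a b' s' ha hs hb')]
    refine tsum_congr fun h => ?_
    rw [h1, mul_add]
  unfold dP
  rw [h1, h2]
  ring

theorem dP_smul (t : ℝ) (g : G) :
    dP N a (fun i g => t * b i g) g = t * dP N a b g := by
  have h1 : ∀ g, ld N a (fun i g => t * b i g) g = t * ld N a b g := by
    intro g
    unfold ld
    rw [Finset.mul_sum, Finset.mul_sum, Finset.mul_sum]
    refine Finset.sum_congr rfl fun i _ => ?_
    ring
  have h2 : ∑' h, PP N a h * ld N a (fun i g => t * b i g) h =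
      t * ∑' h, PP N a h * ld N a b h := by
    rw [← tsum_mul_left]
    refine tsum_congr fun h => ?_
    rw [h1]
    ring
  unfold dP
  rw [h1, h2]
  ring

theorem dP_scale [Nonempty G] (lam : ι → ℝ) (ha : ∀ i g, 0 < a i g) (hs : Summable (kern N a))
    (g : G) : dP N a (fun i g => lam i * a i g) g = 0 := by
  have h1 : ∀ g, ld N a (fun i g => lam i * a i g) g = -(N : ℝ) * ∑ i, lam i := by
    intro g
    unfold ld
    congr 1
    refine Finset.sum_congr rfl fun i _ => ?_
    exact mul_div_cancel_right₀ _ (ha i g).ne'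
  have h2 : ∑' h, PP N a h * ld N a (fun i g => lam i * a i g) h = -(N : ℝ) * ∑ i, lam i := by
    simp only [h1]
    rw [tsum_mul_right, (hasSum_PP N a ha hs).tsum_eq, one_mul]
  unfold dP
  rw [h1, h2, sub_self, mul_zero]

end Pool.AF
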