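import Pool.Agent.Helper94.AF.Kern

open Set Finset

set_option linter.unusedSectionVars false

namespace Pool.AF

/-! ## AF-6 TAYLOR: Taylor expansion of the normalised kernel in `ℓ¹` (uses AF-5) -/

/-- Product of two first order expansions. -/
theorem exp_mul_aux {P Q p q s C₁ c₁ C₂ c₂ : ℝ} (hs0 : 0 ≤ s) (hs1 : s ≤ 1) (hC₁ : 0 ≤ C₁)
    (hc₁ : 0 ≤ c₁) (hC₂ : 0 ≤ C₂) (hc₂ : 0 ≤ c₂) (h1 : |P - 1 - p| ≤ C₁ * s ^ 2)
    (hp : |p| ≤ c₁ * s) (h2 : |Q - 1 - q| ≤ C₂ * s ^ 2) (hq : |q| ≤ c₂ * s) :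
    |P * Q - 1 - (p + q)| ≤ (C₁ * (1 + c₂ + C₂) + (1 + c₁) * C₂ + c₁ * c₂) * s ^ 2 := by
  have hs2 : s ^ 2 ≤ 1 := by nlinarith
  have hs2' : 0 ≤ s ^ 2 := sq_nonneg s
  have hQ : |Q| ≤ 1 + c₂ + C₂ := by
    have : Q = 1 + q + (Q - 1 - q) := by ring
    rw [this]
    calc |1 + q + (Q - 1 - q)| ≤ |1 + q| + |Q - 1 - q| := abs_add_le _ _
      _ ≤ (|1| + |q|) + C₂ * s ^ 2 := add_le_add (abs_add_le _ _) h2
      _ ≤ (1 + c₂) + C₂ := by
          rw [abs_one]
          have h3 : c₂ * s ≤ c₂ := by nlinarith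
          have h4 : C₂ * s ^ 2 ≤ C₂ := by nlinarith
          linarith
  have hp1 : |1 + p| ≤ 1 + c₁ := by
    calc |1 + p| ≤ |1| + |p| := abs_add_le _ _
      _ ≤ 1 + c₁ := by
          rw [abs_one]
          have h3 : c₁ * s ≤ c₁ := by nlinarith
          linarith
  have e : P * Q - 1 - (p + q) = (P - 1 - p) * Q + (1 + p) * (Q - 1 - q) + p * q := by ring
  rw [e]
  have hpq : |p * q| ≤ c₁ * c₂ * s ^ 2 := by
    rw [abs_mul]
    calc |p| * |q| ≤ (c₁ * s) * (c₂ * s) :=
          mul_le_mul hp hq (abs_nonneg _) (mul_nonneg hc₁ hs0)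
      _ = c₁ * c₂ * s ^ 2 := by ring
  have h5 : |(P - 1 - p) * Q| ≤ C₁ * s ^ 2 * (1 + c₂ + C₂) := by
    rw [abs_mul]
    exact mul_le_mul h1 hQ (abs_nonneg _) (mul_nonneg hC₁ hs2')
  have h6 : |(1 + p) * (Q - 1 - q)| ≤ (1 + c₁) * (C₂ * s ^ 2) := by
    rw [abs_mul]
    exact mul_le_mul hp1 h2 (abs_nonneg _) (by linarith)
  calc |(P - 1 - p) * Q + (1 + p) * (Q - 1 - q) + p * q|
      ≤ |(P - 1 - p) * Q + (1 + p) * (Q - 1 - q)| + |p * q| := abs_add_le _ _
    _ ≤ |(P - 1 - p) * Q| + |(1 + p) * (Q - 1 - q)| + |p * q| := by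
        gcongr
        exact abs_add_le _ _
    _ ≤ _ := by nlinarith

/-- The expansion of `(1 + x)⁻ᴺ`. -/
theorem exp_pow_aux (N : ℕ) : ∃ C : ℝ, 0 ≤ C ∧ ∀ x s : ℝ, 0 ≤ s → s ≤ 1 / 2 → |x| ≤ s →
    |((1 + x)⁻¹) ^ N - 1 - (-(N : ℝ) * x)| ≤ C * s ^ 2 := by
  induction N with
  | zero => exact ⟨0, le_refl _, fun x s _ _ _ => by simp⟩
  | succ N ih =>
      obtain ⟨C, hC, h⟩ := ih
      refine ⟨C * (1 + 1 + 2) + (1 + N) * 2 + N * 1, by positivity, ?_⟩
      intro x s hs0 hs1 hx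
      have h1 := h x s hs0 hs1 hx
      have hx' := abs_le.mp hx
      have hpos : 1 / 2 ≤ 1 + x := by linarith
      have h2 : |(1 + x)⁻¹ - 1 - (-x)| ≤ 2 * s ^ 2 := by
        have e : (1 + x)⁻¹ - 1 - (-x) = x ^ 2 * (1 + x)⁻¹ := by
          have : (1 + x) ≠ 0 := by linarith
          field_simp
          ring
        rw [e, abs_mul, abs_of_nonneg (sq_nonneg x)]
        have h3 : |(1 + x)⁻¹| ≤ 2 := by
          rw [abs_of_nonneg (by positivity)]
          rw [inv_le_comm₀ (by linarith) (by norm_num)]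
          linarith
        have h4 : x ^ 2 ≤ s ^ 2 := by
          rw [← sq_abs x]
          exact pow_le_pow_left₀ (abs_nonneg _) hx 2
        calc x ^ 2 * |(1 + x)⁻¹| ≤ s ^ 2 * 2 := mul_le_mul h4 h3 (abs_nonneg _) (sq_nonneg _)
          _ = 2 * s ^ 2 := by ring
      have h3 : |(-(N : ℝ) * x)| ≤ N * s := by
        rw [abs_mul, abs_neg, Nat.abs_cast]
        gcongr
      have h4 : |(-x)| ≤ 1 * s := by rw [abs_neg]; linarith
      have h5 := exp_mul_aux hs0 (by linarith) hC (Nat.cast_nonneg N) (by norm_num : (0:ℝ) ≤ 2)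
        (by norm_num : (0:ℝ) ≤ 1) h1 h3 h2 h4
      have e : ((1 + x)⁻¹) ^ (N + 1) - 1 - (-((N + 1 : ℕ) : ℝ) * x) =
          ((1 + x)⁻¹) ^ N * (1 + x)⁻¹ - 1 - (-(N : ℝ) * x + -x) := by
        push_cast
        ring
      rw [e]
      exact h5

/-- The expansion of the product. -/
theorem exp_prod_aux {ι : Type*} (N : ℕ) (t : Finset ι) : ∃ C : ℝ, 0 ≤ C ∧
    ∀ (x : ι → ℝ) (s : ℝ), 0 ≤ s → s ≤ 1 / 2 → (∀ i, |x i| ≤ s) →
    |∏ i ∈ t, ((1 + x i)⁻¹) ^ N - 1 - (-(N : ℝ) * ∑ i ∈ t, x i)| ≤ C * s ^ 2 := by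
  classical
  induction t using Finset.induction_on with
  | empty => exact ⟨0, le_refl _, fun x s _ _ _ => by simp⟩
  | insert i t hi ih =>
      obtain ⟨C₁, hC₁, h₁⟩ := exp_pow_aux N
      obtain ⟨C₂, hC₂, h₂⟩ := ih
      refine ⟨C₁ * (1 + N * t.card + C₂) + (1 + N) * C₂ + N * (N * t.card), by positivity, ?_⟩
      intro x s hs0 hs1 hx
      rw [Finset.prod_insert hi, Finset.sum_insert hi]
      have h3 : |(-(N : ℝ) * x i)| ≤ N * s := by
        rw [abs_mul, abs_neg, Nat.abs_cast]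
        exact mul_le_mul_of_nonneg_left (hx i) (Nat.cast_nonneg N)
      have h4 : |(-(N : ℝ) * ∑ j ∈ t, x j)| ≤ (N * t.card) * s := by
        rw [abs_mul, abs_neg, Nat.abs_cast, mul_assoc]
        refine mul_le_mul_of_nonneg_left ?_ (Nat.cast_nonneg N)
        calc |∑ j ∈ t, x j| ≤ ∑ j ∈ t, |x j| := Finset.abs_sum_le_sum_abs _ _
          _ ≤ ∑ _j ∈ t, s := Finset.sum_le_sum (fun j _ => hx j)
          _ = t.card * s := by rw [Finset.sum_const, nsmul_eq_mul]
      have h5 := exp_mul_aux hs0 (by linarith) hC₁ (Nat.cast_nonneg N) hC₂ (by positivity)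
        (h₁ (x i) s hs0 hs1 (hx i)) h3 (h₂ x s hs0 hs1 hx) h4
      have e : -(N : ℝ) * (x i + ∑ j ∈ t, x j) = -(N : ℝ) * x i + -(N : ℝ) * ∑ j ∈ t, x j := by
        ring
      rw [e]
      exact h5

theorem PP_taylor (ι : Type*) [Fintype ι] (N : ℕ) : ∃ C : ℝ, 0 ≤ C ∧
    ∀ (G : Type*) [Nonempty G] (a b : ι → G → ℝ) (s : ℝ), 0 ≤ s → (∀ i g, 0 < a i g) →
      (∀ i g, 0 < a i g + b i g) → (∀ i g, |b i g| ≤ s * a i g) → Summable (kern N a) →
      Summable (kern N (fun i g => a i g + b i g)) → ∀ S : Finset G,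
      ∑ g ∈ S, |PP N (fun i g => a i g + b i g) g - PP N a g - dP N a b g| ≤ C * s ^ 2 := by
  obtain ⟨C₁, hC₁, h₁⟩ := exp_prod_aux (ι := ι) N Finset.univ
  set M : ℝ := N * Fintype.card ι with hM
  have hM0 : 0 ≤ M := by positivity
  set c₀ : ℝ := ((2 / 3 : ℝ) ^ N) ^ Fintype.card ι with hc₀
  have hc₀0 : 0 < c₀ := by positivity
  set A : ℝ := (2 * C₁ + (M + C₁) * (2 * M)) / c₀ with hA
  have hA0 : 0 ≤ A := by positivity
  refine ⟨A + (8 + 4 * M), by positivity, ?_⟩
  intro G _ a b s hs0 ha hab hb hsa hsab S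
  have hs2 : 0 ≤ s ^ 2 := sq_nonneg s
  set a' : ι → G → ℝ := fun i g => a i g + b i g with ha'
  have hPa := hasSum_PP N a ha hsa
  have hPa' := hasSum_PP N a' hab hsab
  have hPa0 := PP_nonneg N a ha
  have hPa0' := PP_nonneg N a' hab
  have hS1 : ∑ g ∈ S, PP N a g ≤ 1 := by
    have := hPa.summable.sum_le_tsum S (fun g _ => hPa0 g)
    rwa [hPa.tsum_eq] at this
  have hS2 : ∑ g ∈ S, PP N a' g ≤ 1 := by
    have := hPa'.summable.sum_le_tsum S (fun g _ => hPa0' g)
    rwa [hPa'.tsum_eq] at this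
  rcases lt_or_ge (1 / 2) s with hs | hs
  · -- large `s`
    have h3 := dP_bound N a b s ha hsa hb S
    have h4 : ∑ g ∈ S, |PP N a' g - PP N a g - dP N a b g| ≤
        ∑ g ∈ S, (PP N a' g + PP N a g + |dP N a b g|) := by
      refine Finset.sum_le_sum (fun g _ => ?_)
      calc |PP N a' g - PP N a g - dP N a b g|
          ≤ |PP N a' g - PP N a g| + |dP N a b g| := abs_sub _ _
        _ ≤ (|PP N a' g| + |PP N a g|) + |dP N a b g| := by
            gcongr
            exact abs_sub _ _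
        _ = _ := by rw [abs_of_nonneg (hPa0' g), abs_of_nonneg (hPa0 g)]
    rw [Finset.sum_add_distrib, Finset.sum_add_distrib] at h4
    have h5 : 1 ≤ 4 * s ^ 2 := by nlinarith
    have h6 : 2 * M * s ≤ 4 * M * s ^ 2 := by
      have h61 : s ≤ 2 * s ^ 2 := by nlinarith
      nlinarith
    have h7 : 2 * (N : ℝ) * Fintype.card ι * s = 2 * M * s := by rw [hM]; ring
    rw [h7] at h3
    have h8 : 0 ≤ A * s ^ 2 := by positivity
    nlinarith
  · -- small `s`
    -- the ratio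
    set ρ : G → ℝ := fun g => ∏ i, ((1 + b i g / a i g)⁻¹) ^ N with hρ
    have hx : ∀ g i, |b i g / a i g| ≤ s := by
      intro g i
      rw [abs_div, abs_of_pos (ha i g), div_le_iff₀ (ha i g)]
      exact hb i g
    have hρe : ∀ g, kern N a' g = kern N a g * ρ g := by
      intro g
      simp only [kern, hρ, ha', ← Finset.prod_mul_distrib]
      refine Finset.prod_congr rfl (fun i _ => ?_)
      rw [← mul_pow, ← mul_inv]
      congr 2
      have := (ha i g).ne'
      field_simp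
    have hρ1 : ∀ g, |ρ g - 1 - ld N a b g| ≤ C₁ * s ^ 2 := by
      intro g
      exact h₁ (fun i => b i g / a i g) s hs0 hs (hx g)
    have hρ0 : ∀ g, c₀ ≤ ρ g := by
      intro g
      have : c₀ = ∏ _i : ι, (2 / 3 : ℝ) ^ N := by
        rw [Finset.prod_const, hc₀]
        rfl
      rw [this]
      refine Finset.prod_le_prod (fun i _ => by positivity) (fun i _ => ?_)
      refine pow_le_pow_left₀ (by norm_num) ?_ N
      have h3 := abs_le.mp (hx g i)
      rw [le_inv_comm₀ (by norm_num) (by linarith)]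
      norm_num
      linarith
    have hld : ∀ g, |ld N a b g| ≤ M * s := fun g => abs_ld_le N a b s ha hb g
    set Z : ℝ := ∑' h, kern N a h with hZ
    set Z' : ℝ := ∑' h, kern N a' h with hZ'
    have hZ0 : 0 < Z := hsa.tsum_pos (fun g => (kern_pos N a ha g).le) (Classical.arbitrary G)
      (kern_pos N a ha _)
    have hZ0' : 0 < Z' := hsab.tsum_pos (fun g => (kern_pos N a' hab g).le)
      (Classical.arbitrary G) (kern_pos N a' hab _)
    -- the means
    set W : ℝ := Z' / Z with hW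
    have hW0 : 0 < W := div_pos hZ0' hZ0
    have hE : HasSum (fun g => PP N a g * ρ g) W := by
      have h3 := hsab.hasSum.div_const Z
      have e : (fun g => PP N a g * ρ g) = fun g => kern N a' g / Z := by
        funext g
        rw [hρe g]
        simp only [PP, ← hZ]
        ring
      rw [e]
      exact h3
    have hEl := (summable_PP_ld N a b s ha hsa hb).hasSum
    set El : ℝ := ∑' h, PP N a h * ld N a b h with hEldef
    have hEr : HasSum (fun g => PP N a g * (ρ g - 1 - ld N a b g)) (W - 1 - El) := by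
      have h3 := (hE.sub hPa).sub hEl
      have e : (fun g => PP N a g * (ρ g - 1 - ld N a b g)) =
          fun g => PP N a g * ρ g - PP N a g - PP N a g * ld N a b g := by
        funext g
        ring
      rw [e]
      exact h3
    have hmean : ∀ (f : G → ℝ) (m c : ℝ), HasSum (fun g => PP N a g * f g) m →
        (∀ g, |f g| ≤ c) → |m| ≤ c := by
      intro f m c hf hfc
      have h3 : HasSum (fun g => PP N a g * c) c := by
        have := hPa.mul_right c
        rwa [one_mul] at this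
      have h4 : HasSum (fun g => PP N a g * (-c)) (-c) := by
        have := hPa.mul_right (-c)
        rwa [one_mul] at this
      rw [abs_le]
      constructor
      · exact hasSum_le (fun g => mul_le_mul_of_nonneg_left (abs_le.mp (hfc g)).1 (hPa0 g)) h4 hf
      · exact hasSum_le (fun g => mul_le_mul_of_nonneg_left (abs_le.mp (hfc g)).2 (hPa0 g)) hf h3
    have hEl1 : |El| ≤ M * s := hmean _ _ _ hEl hld
    have hEr1 : |W - 1 - El| ≤ C₁ * s ^ 2 := hmean _ _ _ hEr hρ1
    have hWc : c₀ ≤ W := by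
      have h3 : HasSum (fun g => PP N a g * c₀) c₀ := by
        have := hPa.mul_right c₀
        rwa [one_mul] at this
      exact hasSum_le (fun g => mul_le_mul_of_nonneg_left (hρ0 g) (hPa0 g)) h3 hE
    have hW1 : |W - 1| ≤ (M + C₁) * s := by
      have e : W - 1 = El + (W - 1 - El) := by ring
      rw [e]
      calc |El + (W - 1 - El)| ≤ |El| + |W - 1 - El| := abs_add_le _ _
        _ ≤ M * s + C₁ * s ^ 2 := add_le_add hEl1 hEr1
        _ ≤ (M + C₁) * s := by
            have : s ^ 2 ≤ s := by nlinarith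
            nlinarith
    have hterm : ∀ g, |PP N a' g - PP N a g - dP N a b g| ≤ PP N a g * (A * s ^ 2) := by
      intro g
      have e1 : PP N a' g = PP N a g * (ρ g / W) := by
        simp only [PP, ← hZ, ← hZ']
        rw [hρe g, hW]
        field_simp
      have e2 : PP N a' g - PP N a g - dP N a b g =
          PP N a g * (((ρ g - 1 - ld N a b g) - (W - 1 - El) -
            (W - 1) * (ld N a b g - El)) / W) := by
        rw [e1]
        simp only [dP, ← hEldef]
        field_simp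
        ring
      rw [e2, abs_mul, abs_of_nonneg (hPa0 g)]
      refine mul_le_mul_of_nonneg_left ?_ (hPa0 g)
      rw [abs_div, abs_of_pos hW0]
      have h3 : |(ρ g - 1 - ld N a b g) - (W - 1 - El) - (W - 1) * (ld N a b g - El)| ≤
          (2 * C₁ + (M + C₁) * (2 * M)) * s ^ 2 := by
        have h4 : |(W - 1) * (ld N a b g - El)| ≤ ((M + C₁) * s) * (M * s + M * s) := by
          rw [abs_mul]
          refine mul_le_mul hW1 ?_ (abs_nonneg _) (by positivity)
          exact (abs_sub _ _).trans (add_le_add (hld g) hEl1)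
        calc |(ρ g - 1 - ld N a b g) - (W - 1 - El) - (W - 1) * (ld N a b g - El)|
            ≤ |(ρ g - 1 - ld N a b g) - (W - 1 - El)| + |(W - 1) * (ld N a b g - El)| :=
              abs_sub _ _
          _ ≤ (C₁ * s ^ 2 + C₁ * s ^ 2) + ((M + C₁) * s) * (M * s + M * s) :=
              add_le_add ((abs_sub _ _).trans (add_le_add (hρ1 g) hEr1)) h4
          _ = _ := by ring
      calc |(ρ g - 1 - ld N a b g) - (W - 1 - El) - (W - 1) * (ld N a b g - El)| / W
          ≤ ((2 * C₁ + (M + C₁) * (2 * M)) * s ^ 2) / c₀ :=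
            div_le_div₀ (by positivity) h3 hc₀0 hWc
        _ = A * s ^ 2 := by rw [hA]; ring
    calc ∑ g ∈ S, |PP N a' g - PP N a g - dP N a b g|
        ≤ ∑ g ∈ S, PP N a g * (A * s ^ 2) := Finset.sum_le_sum (fun g _ => hterm g)
      _ = (∑ g ∈ S, PP N a g) * (A * s ^ 2) := by rw [Finset.sum_mul]
      _ ≤ 1 * (A * s ^ 2) := mul_le_mul_of_nonneg_right hS1 (by positivity)
      _ ≤ (A + (8 + 4 * M)) * s ^ 2 := by nlinarith

end Pool.AF
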