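import Pool.Agent.Helper94.AF.Defs
import Pool.Agent.SV.Aus1
import Pool.Agent.SV.Aus2
import Pool.Agent.SV.Step

open Set Finset

set_option linter.unusedSectionVars false

namespace Pool.AF

open Pool.SV

/-! ## AF-12 STRIP: splitting off a block and dividing it by a character (uses `aus1`, `aus2`) -/

private theorem inj_of_disc {Γ R : Type*} [Group Γ] [NormedRing R] (φ : Γ →* R)
    (htf : ∀ (g : Γ) (m : ℕ), 0 < m → g ^ m = 1 → g = 1) (hd : Disc φ) :
    Function.Injective φ := by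
  rw [injective_iff_map_eq_one]
  intro g hg
  have hfin := hd ‖(1 : R)‖
  by_contra hne
  have hinf : (Set.range fun n : ℕ => g ^ n).Infinite := by
    apply Set.infinite_range_of_injective
    intro m n hmn
    rcases lt_trichotomy m n with h | h | h
    · exfalso
      apply hne
      apply htf g (n - m) (by omega)
      have h6 : g ^ m * g ^ (n - m) = g ^ m * 1 := by
        rw [← pow_add, mul_one, show m + (n - m) = n by omega]; exact hmn.symm
      exact mul_left_cancel h6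
    · exact h
    · exfalso
      apply hne
      apply htf g (m - n) (by omega)
      have h6 : g ^ n * g ^ (m - n) = g ^ n * 1 := by
        rw [← pow_add, mul_one, show n + (m - n) = m by omega]; exact hmn
      exact mul_left_cancel h6
  apply hinf
  apply hfin.subset
  rintro x ⟨n, rfl⟩
  have h3 : φ (g ^ n) = 1 := by rw [map_pow, hg, one_pow]
  have h4 : φ (g ^ n)⁻¹ = 1 := by
    have h5 : φ (g ^ n) * φ (g ^ n)⁻¹ = 1 := by rw [← map_mul, mul_inv_cancel, map_one]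
    rwa [h3, one_mul] at h5
  refine ⟨?_, ?_⟩
  · show ‖φ (g ^ n)‖ ≤ _
    rw [h3]
  · show ‖φ (g ^ n)⁻¹‖ ≤ _
    rw [h4]

theorem strip {Γ R : Type*} [Group Γ] [NormedRing R] [NormedAlgebra ℝ R] [FiniteDimensional ℝ R]
    (φ : Γ →* R) (htf : ∀ (g : Γ) (m : ℕ), 0 < m → g ^ m = 1 → g = 1) (hd : Disc φ) (f : R)
    (hf : f * f = f) (hinv : ∀ g, (1 - f) * φ g * f = 0) (c : Γ → ℝ) (hc : PosMul c) :
    HasAbNormal Γ ∨ ∃ τ : Γ →* R, (∀ g, τ g = cut φ f c g + (1 - f) * φ g * (1 - f)) ∧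
      Disc τ := by
  classical
  obtain ⟨hc0, hc⟩ := hc
  have hinj := inj_of_disc φ htf hd
  by_cases hsmall : ∀ ε : ℝ, 0 < ε → ∃ g : Γ, g ≠ 1 ∧
      ‖f * φ g * f + (1 - f) * φ g * (1 - f) - 1‖ < ε
  · exact Or.inl (aus1 φ hinj hd f hf hinv hsmall)
  push Not at hsmall
  obtain ⟨ε₀, hε₀, hrho0⟩ := hsmall
  have hc1 : c 1 = 1 := by
    have h3 := hc 1 1
    rw [mul_one] at h3
    have h4 := hc0 1
    have h5 : c 1 * (c 1 - 1) = 0 := by linarith
    rcases mul_eq_zero.1 h5 with h6 | h6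
    · linarith
    · linarith
  -- the block-diagonal parts
  have q1 : f * (1 - f) = 0 := by rw [mul_sub, hf, mul_one, sub_self]
  have q2 : (1 - f) * f = 0 := by rw [sub_mul, hf, one_mul, sub_self]
  have q3 : (1 - f) * (1 - f) = 1 - f := by rw [sub_mul, q1, one_mul, sub_zero]
  have hA : ∀ g h, f * φ (g * h) * f = (f * φ g * f) * (f * φ h * f) := by
    intro g h
    have e1 : f * φ (g * h) * f
        = f * φ g * (f * (φ h * f)) + f * φ g * ((1 - f) * φ h * f) := by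
      rw [map_mul]; noncomm_ring
    rw [e1, hinv, mul_zero, add_zero]
    have e2 : (f * φ g * f) * (f * φ h * f) = f * φ g * ((f * f) * (φ h * f)) := by
      noncomm_ring
    rw [e2, hf]
  have hB : ∀ g h, (1 - f) * φ (g * h) * (1 - f)
      = ((1 - f) * φ g * (1 - f)) * ((1 - f) * φ h * (1 - f)) := by
    intro g h
    exact Step.comp_mul φ f hf hinv g h
  -- the second representation
  let τ : Γ →* R :=
    { toFun := fun g => (c g)⁻¹ • (f * φ g * f) + (1 - f) * φ g * (1 - f)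
      map_one' := by
        rw [map_one, mul_one, mul_one, hf, q3, hc1]; simp
      map_mul' := by
        intro g h
        rw [hA, hB, hc]
        set a := (c g)⁻¹
        set b := (c h)⁻¹
        have ha : (c g * c h)⁻¹ = a * b := mul_inv _ _
        rw [ha]
        symm
        calc (a • (f * φ g * f) + (1 - f) * φ g * (1 - f)) *
              (b • (f * φ h * f) + (1 - f) * φ h * (1 - f))
            = (a * b) • ((f * φ g * f) * (f * φ h * f))
              + a • (f * φ g * (f * (1 - f)) * φ h * (1 - f))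
              + b • ((1 - f) * φ g * ((1 - f) * f) * φ h * f)
              + ((1 - f) * φ g * (1 - f)) * ((1 - f) * φ h * (1 - f)) := by
              simp only [add_mul, mul_add, smul_mul_assoc, mul_smul_comm]
              simp only [mul_assoc]
              module
          _ = _ := by rw [q1, q2]; simp }
  have hτ : ∀ g, τ g = (c g)⁻¹ • (f * φ g * f) + (1 - f) * φ g * (1 - f) :=
    fun g => rfl
  have hw : ∀ g h : Γ, ‖τ ((h * g)⁻¹ * (g * h)) - 1‖ < ε₀ → g * h = h * g := by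
    intro g h hlt
    by_contra hne
    have h3 : (h * g)⁻¹ * (g * h) ≠ 1 := by
      intro h4
      apply hne
      rw [inv_mul_eq_one] at h4
      exact h4.symm
    have h4 := hrho0 _ h3
    have h5 : c ((h * g)⁻¹ * (g * h)) = 1 := by
      have h6 : c ((h * g)⁻¹ * (h * g)) = 1 := by rw [inv_mul_cancel, hc1]
      rw [hc] at h6 ⊢
      rw [hc g h, mul_comm (c g) (c h), ← hc h g]
      exact h6
    rw [hτ, h5, inv_one, one_smul] at hlt
    linarith
  have h1' : ∀ g h : Γ, τ (g * h) = τ (h * g) → g * h = h * g := by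
    intro g h heq
    apply hw
    rw [map_mul, heq, ← map_mul, inv_mul_cancel, map_one, sub_self, norm_zero]
    exact hε₀
  have h1'' : ∃ ε₁ : ℝ, 0 < ε₁ ∧ ∀ g h : Γ, ‖τ g - 1‖ < ε₁ → ‖τ h - 1‖ < ε₁ → g * h = h * g := by
    set K : ℝ := ‖(1 : R)‖ with hK
    have hK0 : 0 ≤ K := norm_nonneg _
    refine ⟨min (1 / 2) (ε₀ / (8 * K ^ 2 + 1)), lt_min (by norm_num) (by positivity), ?_⟩
    intro g h hg hh
    have hinvb : ∀ x : Γ, ‖τ x - 1‖ < 1 / 2 → ‖τ x⁻¹‖ ≤ 2 * K := by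
      intro x hx
      have e1 : τ x⁻¹ = 1 - τ x⁻¹ * (τ x - 1) := by
        rw [mul_sub, mul_one, ← map_mul, inv_mul_cancel, map_one]; abel
      have e2 : ‖τ x⁻¹‖ ≤ K + ‖τ x⁻¹‖ * ‖τ x - 1‖ := by
        calc ‖τ x⁻¹‖ = ‖1 - τ x⁻¹ * (τ x - 1)‖ := by rw [← e1]
          _ ≤ ‖(1 : R)‖ + ‖τ x⁻¹ * (τ x - 1)‖ := norm_sub_le _ _
          _ ≤ _ := by gcongr; exact norm_mul_le _ _
      have e3 : ‖τ x⁻¹‖ * ‖τ x - 1‖ ≤ ‖τ x⁻¹‖ * (1 / 2) := by gcongr
      linarith
    have hg1 := hinvb g (hg.trans_le (min_le_left _ _))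
    have hh1 := hinvb h (hh.trans_le (min_le_left _ _))
    have hg2 : ‖τ g - 1‖ < 1 / 2 := hg.trans_le (min_le_left _ _)
    have hg3 : ‖τ g - 1‖ < ε₀ / (8 * K ^ 2 + 1) := hg.trans_le (min_le_right _ _)
    have hh2 : ‖τ h - 1‖ < 1 / 2 := hh.trans_le (min_le_left _ _)
    apply hw
    have e4 : τ ((h * g)⁻¹ * (g * h)) - 1 =
        τ g⁻¹ * τ h⁻¹ * ((τ g - 1) * (τ h - 1) - (τ h - 1) * (τ g - 1)) := by
      have e5 : (τ g - 1) * (τ h - 1) - (τ h - 1) * (τ g - 1) = τ (g * h) - τ (h * g) := by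
        rw [map_mul, map_mul]; noncomm_ring
      rw [e5, mul_sub, ← map_mul, ← map_mul, ← map_mul]
      congr 1
      · congr 1; group
      · rw [show g⁻¹ * h⁻¹ * (h * g) = 1 by group, map_one]
    rw [e4]
    have e6 : ‖(τ g - 1) * (τ h - 1) - (τ h - 1) * (τ g - 1)‖ ≤ 2 * (‖τ g - 1‖ * ‖τ h - 1‖) := by
      calc _ ≤ ‖(τ g - 1) * (τ h - 1)‖ + ‖(τ h - 1) * (τ g - 1)‖ := norm_sub_le _ _
        _ ≤ ‖τ g - 1‖ * ‖τ h - 1‖ + ‖τ h - 1‖ * ‖τ g - 1‖ :=
          add_le_add (norm_mul_le _ _) (norm_mul_le _ _)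
        _ = _ := by ring
    have e7 : 2 * (‖τ g - 1‖ * ‖τ h - 1‖) ≤ ‖τ g - 1‖ := by
      nlinarith [norm_nonneg (τ g - 1), norm_nonneg (τ h - 1)]
    calc ‖τ g⁻¹ * τ h⁻¹ * ((τ g - 1) * (τ h - 1) - (τ h - 1) * (τ g - 1))‖
        ≤ ‖τ g⁻¹ * τ h⁻¹‖ * ‖(τ g - 1) * (τ h - 1) - (τ h - 1) * (τ g - 1)‖ := norm_mul_le _ _
      _ ≤ (2 * K * (2 * K)) * ‖τ g - 1‖ := by
          gcongr
          · exact (norm_mul_le _ _).trans (by gcongr)
          · exact e6.trans e7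
      _ ≤ (8 * K ^ 2 + 1) * ‖τ g - 1‖ := by
          gcongr
          nlinarith [sq_nonneg K]
      _ < ε₀ := by
          rw [lt_div_iff₀ (by positivity)] at hg3
          linarith
  by_cases hD : Disc τ
  · refine Or.inr ⟨τ, fun g => ?_, hD⟩
    rw [hτ, cut]
  left
  refine aus2 τ h1'' h1' ?_
  intro ε hε
  -- compactness
  have : ProperSpace R := FiniteDimensional.proper_real R
  unfold Disc at hD
  push Not at hD
  obtain ⟨M, hC⟩ := hD
  have hinf : Set.Infinite {g : Γ | ‖τ g‖ ≤ M ∧ ‖τ g⁻¹‖ ≤ M} := hC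
  set u := hinf.natEmbedding with hu
  have hu1 : ∀ n, ‖τ (u n : Γ)‖ ≤ M := fun n => (u n).2.1
  have hu2 : ∀ n, ‖τ (u n : Γ)⁻¹‖ ≤ M := fun n => (u n).2.2
  have hM0 : 0 ≤ M := (norm_nonneg _).trans (hu1 0)
  obtain ⟨a, -, ψ, hψ, hlim⟩ := tendsto_subseq_of_bounded (s := Metric.closedBall (0 : R) M)
    Metric.isBounded_closedBall (x := fun n => τ (u n : Γ)) (fun n => by simpa using hu1 n)
  have hcau := hlim.cauchySeq
  rw [Metric.cauchySeq_iff'] at hcau
  obtain ⟨N, hN⟩ := hcau (ε / (M + 1)) (by positivity)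
  have h3 := hN (N + 1) (by omega)
  simp only [Function.comp] at h3
  rw [dist_eq_norm] at h3
  refine ⟨(u (ψ N) : Γ)⁻¹ * (u (ψ (N + 1)) : Γ), ?_, ?_⟩
  · intro h4
    rw [inv_mul_eq_one] at h4
    have h5 : ψ N = ψ (N + 1) := u.injective (Subtype.ext h4)
    have h6 : ψ N < ψ (N + 1) := hψ (by omega)
    omega
  · have e1 : τ ((u (ψ N) : Γ)⁻¹ * (u (ψ (N + 1)) : Γ)) - 1 =
        τ (u (ψ N) : Γ)⁻¹ * (τ (u (ψ (N + 1)) : Γ) - τ (u (ψ N) : Γ)) := by
      rw [mul_sub, ← map_mul, ← map_mul, inv_mul_cancel, map_one]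
    rw [e1]
    calc _ ≤ ‖τ (u (ψ N) : Γ)⁻¹‖ * ‖τ (u (ψ (N + 1)) : Γ) - τ (u (ψ N) : Γ)‖ := norm_mul_le _ _
      _ ≤ (M + 1) * ‖τ (u (ψ (N + 1)) : Γ) - τ (u (ψ N) : Γ)‖ := by
          gcongr
          linarith [hu2 (ψ N)]
      _ < ε := by
          rw [lt_div_iff₀ (by positivity)] at h3
          linarith

end Pool.AF
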